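import Pool.Agent.Helper209.AC.ODE

set_option autoImplicit false

/-!
# Coercivity and Riccati variables
-/

open MeasureTheory Filter Topology Set

namespace Pool.Agent.TH795.LT

open Pool.Agent.Helper209.AC (IsSol)

/-- gluing two solutions -/
lemma IsSol_glue {V V0 ψ ψ' χ χ' : ℝ → ℂ} {X : ℝ} (h1 : IsSol V0 χ χ') (h2 : IsSol V ψ ψ')
    (hV : ∀ y ≤ X, V y = V0 y) (e : ψ X = χ X) (e' : ψ' X = χ' X) :
    IsSol V (fun y => if y ≤ X then χ y else ψ y) (fun y => if y ≤ X then χ' y else ψ' y) := by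
  have key : ∀ {f g f' g' : ℝ → ℂ}, (∀ x, HasDerivAt f (f' x) x) → (∀ x, HasDerivAt g (g' x) x) →
      f X = g X → f' X = g' X → ∀ x, HasDerivAt (fun y => if y ≤ X then f y else g y)
        (if x ≤ X then f' x else g' x) x := by
    intro f g f' g' hf hg e1 e2 x
    rcases lt_trichotomy x X with hx | hx | hx
    · rw [if_pos hx.le]
      refine (hf x).congr_of_eventuallyEq ?_
      filter_upwards [Iio_mem_nhds hx] with y hy
      rw [if_pos (le_of_lt hy)]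
    · subst hx
      rw [if_pos le_rfl]
      have a1 : HasDerivWithinAt (fun y => if y ≤ x then f y else g y) (f' x) (Iic x) x := by
        refine (hf x).hasDerivWithinAt.congr ?_ ?_
        · intro y hy
          rw [if_pos (show y ≤ x from hy)]
        · rw [if_pos le_rfl]
      have a2 : HasDerivWithinAt (fun y => if y ≤ x then f y else g y) (f' x) (Ici x) x := by
        rw [e2]
        refine (hg x).hasDerivWithinAt.congr ?_ ?_
        · intro y hy
          rcases eq_or_lt_of_le (show x ≤ y from hy) with h | h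
          · subst h
            rw [if_pos le_rfl, e1]
          · rw [if_neg (not_le.2 h)]
        · rw [if_pos le_rfl, e1]
      have a3 := a1.union a2
      rw [Iic_union_Ici] at a3
      exact a3.hasDerivAt univ_mem
    · rw [if_neg (not_le.2 hx)]
      refine (hg x).congr_of_eventuallyEq ?_
      filter_upwards [Ioi_mem_nhds hx] with y hy
      rw [if_neg (not_le.2 hy)]
  intro x
  refine ⟨key (fun x => (h1 x).1) (fun x => (h2 x).1) e.symm e'.symm x, ?_⟩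
  have h3 := key (fun x => (h1 x).2) (fun x => (h2 x).2) e'.symm (by
    show V0 X * χ X = V X * ψ X
    rw [hV X le_rfl, e]) x
  have h4 : V x * (if x ≤ X then χ x else ψ x) = if x ≤ X then V0 x * χ x else V x * ψ x := by
    split_ifs with h
    · rw [hV x h]
    · rfl
  simp only [h4]
  exact h3

/-- `Re (ω conj(φ) φ')` -/
noncomputable def en (ω : ℂ) (φ φ' : ℝ → ℂ) (y : ℝ) : ℝ :=
  (ω * (starRingEnd ℂ (φ y) * φ' y)).re

/-- derivative of the energy -/
noncomputable def den (ω : ℂ) (P φ φ' : ℝ → ℂ) (y : ℝ) : ℝ :=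
  ω.re * ‖φ' y‖ ^ 2 + (ω * P y).re * ‖φ y‖ ^ 2

lemma hasDerivAt_en {ω : ℂ} {P φ φ' : ℝ → ℂ} (h : IsSol P φ φ') (y : ℝ) :
    HasDerivAt (en ω φ φ') (den ω P φ φ' y) y := by
  have h1 : HasDerivAt (fun y => starRingEnd ℂ (φ y)) (starRingEnd ℂ (φ' y)) y :=
    HasDerivAt.star (h y).1
  have h2 := (h1.mul (h y).2).const_mul ω
  have h3 : HasDerivAt (fun y => (ω * (starRingEnd ℂ (φ y) * φ' y)).re)
      ((ω * (starRingEnd ℂ (φ' y) * φ' y + starRingEnd ℂ (φ y) * (P y * φ y))).re) y :=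
    Complex.reCLM.hasFDerivAt.comp_hasDerivAt y h2
  refine h3.congr_deriv ?_
  unfold den
  have e1 : starRingEnd ℂ (φ' y) * φ' y = ((‖φ' y‖ ^ 2 : ℝ) : ℂ) := by
    rw [mul_comm, Complex.mul_conj, Complex.normSq_eq_norm_sq]
  have e2 : starRingEnd ℂ (φ y) * (P y * φ y) = P y * ((‖φ y‖ ^ 2 : ℝ) : ℂ) := by
    have : starRingEnd ℂ (φ y) * (P y * φ y) = P y * (φ y * starRingEnd ℂ (φ y)) := by ring
    rw [this, Complex.mul_conj, Complex.normSq_eq_norm_sq]
  rw [e1, e2, mul_add, ← mul_assoc]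
  simp only [Complex.add_re, Complex.mul_re, Complex.ofReal_re, Complex.ofReal_im, mul_zero, sub_zero]

lemma en_cont {ω : ℂ} {P φ φ' : ℝ → ℂ} (h : IsSol P φ φ') : Continuous (en ω φ φ') :=
  continuous_iff_continuousAt.2 fun y => (hasDerivAt_en h y).continuousAt

lemma en_mono {ω : ℂ} {P φ φ' : ℝ → ℂ} (h : IsSol P φ φ') (hω : 0 ≤ ω.re) {s : Set ℝ}
    (hs : Convex ℝ s) (hP : ∀ y ∈ s, 0 ≤ (ω * P y).re) : MonotoneOn (en ω φ φ') s := by
  apply monotoneOn_of_deriv_nonneg hs (en_cont h).continuousOn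
    (fun y _ => (hasDerivAt_en h y).differentiableAt.differentiableWithinAt)
  intro y hy
  rw [(hasDerivAt_en h y).deriv]
  unfold den
  have := hP y (interior_subset hy)
  positivity

/-- Riccati variable -/
noncomputable def mm (φ φ' : ℝ → ℂ) (y : ℝ) : ℂ := φ' y / φ y

lemma hasDerivAt_mm {P φ φ' : ℝ → ℂ} (h : IsSol P φ φ') {y : ℝ} (hy : φ y ≠ 0) :
    HasDerivAt (mm φ φ') (P y - mm φ φ' y ^ 2) y := by
  have h1 := (h y).2.div (h y).1 hy
  refine h1.congr_deriv ?_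
  unfold mm
  field_simp

lemma re_mm {ω : ℂ} {φ φ' : ℝ → ℂ} {y : ℝ} (hy : φ y ≠ 0) :
    (ω * mm φ φ' y).re = en ω φ φ' y / ‖φ y‖ ^ 2 := by
  unfold mm en
  have h0 : (0 : ℝ) < ‖φ y‖ ^ 2 := by positivity
  have h1 : φ' y / φ y = starRingEnd ℂ (φ y) * φ' y / ((‖φ y‖ ^ 2 : ℝ) : ℂ) := by
    have h2 : ((‖φ y‖ ^ 2 : ℝ) : ℂ) = φ y * starRingEnd ℂ (φ y) := by
      rw [Complex.mul_conj, Complex.normSq_eq_norm_sq]
    have h3 : starRingEnd ℂ (φ y) ≠ 0 := (map_ne_zero _).2 hy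
    rw [h2]
    field_simp
  rw [h1, ← mul_div_assoc, Complex.div_ofReal_re]

/-- The window lemma: the Riccati flow contracts towards `κ`. -/
lemma window {P M : ℝ → ℂ} {κ ω : ℂ} {x1 x2 t δ : ℝ} (hx : x1 ≤ x2)
    (hM : ∀ y ∈ Icc x1 x2, HasDerivAt M (P y - M y ^ 2) y)
    (hre : ∀ y ∈ Icc x1 x2, 0 ≤ (ω * M y).re)
    (ht : 0 < t) (hωκ : t ≤ (ω * κ).re) (hω : ‖ω‖ ≤ 2) (hκ : 0 < κ.re)
    (hδ : ∀ y ∈ Icc x1 x2, ‖P y - κ ^ 2‖ ≤ δ) :
    ‖(M x2 - κ) / (M x2 + κ)‖ ≤ (1 + 4 * ‖κ‖ / t) * Real.exp (-(2 * κ.re * (x2 - x1)))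
      + δ * (2 + 4 * ‖κ‖ / t) ^ 2 / (4 * ‖κ‖ * κ.re) := by
  have hκ0 : κ ≠ 0 := by
    intro h
    rw [h] at hκ
    simp at hκ
  have hκn : 0 < ‖κ‖ := norm_pos_iff.2 hκ0
  have hlow : ∀ y ∈ Icc x1 x2, t / 2 ≤ ‖M y + κ‖ := by
    intro y hy
    have h1 : t ≤ (ω * (M y + κ)).re := by
      rw [mul_add, Complex.add_re]
      have := hre y hy
      linarith
    have h2 : (ω * (M y + κ)).re ≤ ‖ω‖ * ‖M y + κ‖ := by
      rw [← norm_mul]
      exact Complex.re_le_norm _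
    have h3 : ‖ω‖ * ‖M y + κ‖ ≤ 2 * ‖M y + κ‖ := mul_le_mul_of_nonneg_right hω (norm_nonneg _)
    linarith
  have hne : ∀ y ∈ Icc x1 x2, M y + κ ≠ 0 := by
    intro y hy h
    have := hlow y hy
    rw [h, norm_zero] at this
    linarith
  set C0 : ℝ := 1 + 4 * ‖κ‖ / t with hC0
  have hC00 : 0 ≤ C0 := by positivity
  set R : ℝ → ℂ := fun y => (M y - κ) / (M y + κ) with hR
  have hR1 : ∀ y ∈ Icc x1 x2, 1 - R y = 2 * κ / (M y + κ) := by
    intro y hy
    have := hne y hy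
    simp only [hR]
    field_simp
    ring
  have hRn1 : ∀ y ∈ Icc x1 x2, ‖1 - R y‖ ≤ 4 * ‖κ‖ / t := by
    intro y hy
    rw [hR1 y hy, norm_div, norm_mul]
    simp only [Complex.norm_ofNat]
    rw [div_le_div_iff₀ (norm_pos_iff.2 (hne y hy)) ht]
    have := hlow y hy
    nlinarith
  have hRn : ∀ y ∈ Icc x1 x2, ‖R y‖ ≤ C0 := by
    intro y hy
    have h1 : R y = 1 - (1 - R y) := by ring
    rw [h1]
    calc ‖1 - (1 - R y)‖ ≤ ‖(1 : ℂ)‖ + ‖1 - R y‖ := norm_sub_le _ _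
      _ ≤ _ := by
        rw [norm_one, hC0]
        have := hRn1 y hy
        linarith
  have hRd : ∀ y ∈ Icc x1 x2, HasDerivAt R (-(2 * κ) * R y +
      (P y - κ ^ 2) / (2 * κ) * (1 - R y) ^ 2) y := by
    intro y hy
    have h1 := ((hM y hy).sub_const κ).div ((hM y hy).add_const κ) (hne y hy)
    refine h1.congr_deriv ?_
    rw [hR1 y hy]
    simp only [hR]
    have := hne y hy
    field_simp
    ring
  set f : ℝ → ℂ := fun y => Complex.exp (2 * κ * (y - x1 : ℝ)) * R y with hf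
  have hexp : ∀ y : ℝ, HasDerivAt (fun y : ℝ => Complex.exp (2 * κ * (y - x1 : ℝ)))
      (Complex.exp (2 * κ * (y - x1 : ℝ)) * (2 * κ)) y := by
    intro y
    have h1 : HasDerivAt (fun y : ℝ => 2 * κ * ((y - x1 : ℝ) : ℂ)) (2 * κ * 1) y := by
      apply HasDerivAt.const_mul
      exact ((hasDerivAt_id y).sub_const x1).ofReal_comp
    have h2 := h1.cexp
    rwa [mul_one] at h2
  have hfd : ∀ y ∈ Icc x1 x2, HasDerivAt f (Complex.exp (2 * κ * (y - x1 : ℝ)) *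
      ((P y - κ ^ 2) / (2 * κ) * (1 - R y) ^ 2)) y := by
    intro y hy
    have h1 := (hexp y).mul (hRd y hy)
    refine h1.congr_deriv ?_
    ring
  set K : ℝ := δ * (2 + 4 * ‖κ‖ / t) ^ 2 / (2 * ‖κ‖) with hK
  have hδ0 : 0 ≤ δ := (norm_nonneg _).trans (hδ x1 ⟨le_rfl, hx⟩)
  have hnexp : ∀ y : ℝ, ‖Complex.exp (2 * κ * (y - x1 : ℝ))‖ = Real.exp (2 * κ.re * (y - x1)) := by
    intro y
    rw [Complex.norm_exp]
    congr 1
    simp only [Complex.mul_re, Complex.re_ofNat, Complex.im_ofNat, Complex.ofReal_re,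
      Complex.ofReal_im, zero_mul, sub_zero, mul_zero]
  have hb : ∀ y ∈ Icc x1 x2, ‖f y‖ ≤ ‖R x1‖ + K / (2 * κ.re) * (Real.exp (2 * κ.re * (y - x1)) - 1) := by
    have hB : ∀ y : ℝ, HasDerivAt (fun y : ℝ => ‖R x1‖ + K / (2 * κ.re) *
        (Real.exp (2 * κ.re * (y - x1)) - 1)) (K * Real.exp (2 * κ.re * (y - x1))) y := by
      intro y
      have h1 : HasDerivAt (fun y : ℝ => 2 * κ.re * (y - x1)) (2 * κ.re * 1) y :=
        ((hasDerivAt_id y).sub_const x1).const_mul _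
      have h2 := ((h1.exp.sub_const 1).const_mul (K / (2 * κ.re))).const_add ‖R x1‖
      refine h2.congr_deriv ?_
      field_simp
    have key := image_norm_le_of_norm_deriv_right_le_deriv_boundary (f := f) (a := x1) (b := x2)
      (f' := fun y => Complex.exp (2 * κ * (y - x1 : ℝ)) *
        ((P y - κ ^ 2) / (2 * κ) * (1 - R y) ^ 2))
      (B := fun y : ℝ => ‖R x1‖ + K / (2 * κ.re) * (Real.exp (2 * κ.re * (y - x1)) - 1))
      (B' := fun y => K * Real.exp (2 * κ.re * (y - x1)))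
    intro y hy
    refine key ?_ ?_ ?_ hB ?_ hy
    · intro y hy
      exact (hfd y hy).continuousAt.continuousWithinAt
    · intro y hy
      exact (hfd y ⟨hy.1, hy.2.le⟩).hasDerivWithinAt
    · simp [hf]
    · intro y hy
      have hy' : y ∈ Icc x1 x2 := ⟨hy.1, hy.2.le⟩
      rw [norm_mul, hnexp, mul_comm K]
      apply mul_le_mul_of_nonneg_left _ (Real.exp_pos _).le
      rw [norm_mul, norm_div, norm_pow, norm_mul]
      simp only [Complex.norm_ofNat]
      rw [hK, div_mul_eq_mul_div]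
      apply div_le_div_of_nonneg_right _ (by positivity)
      apply mul_le_mul (hδ y hy') _ (by positivity) hδ0
      apply pow_le_pow_left₀ (norm_nonneg _)
      have := hRn1 y hy'
      linarith
  have hend := hb x2 ⟨hx, le_rfl⟩
  have hf2 : ‖f x2‖ = Real.exp (2 * κ.re * (x2 - x1)) * ‖R x2‖ := by
    simp only [hf]
    rw [norm_mul, hnexp]
  rw [hf2] at hend
  have hK0 : 0 ≤ K := by positivity
  set X := Real.exp (2 * κ.re * (x2 - x1)) with hX
  have hX0 : 0 < X := Real.exp_pos _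
  have hXi : Real.exp (-(2 * κ.re * (x2 - x1))) = X⁻¹ := by rw [Real.exp_neg]
  show ‖R x2‖ ≤ _
  rw [hXi]
  have h1 : ‖R x1‖ ≤ C0 := hRn x1 ⟨le_rfl, hx⟩
  have h2 : X * ‖R x2‖ ≤ C0 + K / (2 * κ.re) * X := by
    have : K / (2 * κ.re) * (X - 1) ≤ K / (2 * κ.re) * X := by
      apply mul_le_mul_of_nonneg_left _ (by positivity)
      linarith
    linarith
  have h3 : ‖R x2‖ ≤ (C0 + K / (2 * κ.re) * X) / X := by
    rw [le_div_iff₀ hX0, mul_comm]
    exact h2
  refine h3.trans (le_of_eq ?_)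
  rw [hK]
  field_simp
  ring

end Pool.Agent.TH795.LT
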