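import Pool.Agent.Helper41.CE.FDefs

/-!
# The eigenvalue sums `S_{γ,σ}(V,ħ)`
-/

set_option autoImplicit false

open MeasureTheory Filter Topology Set
open scoped ENNReal

namespace Pool.Agent.TH795.LT

open Pool.Agent.Helper41.CE (E mult dRay posRay)

/-- `S_{γ,σ}(V,ħ)`: the sum of `|E|^{-σ} δ(E)^{γ+σ}`, `δ(E) = dist(E, [0,∞))`, over the eigenvalues
`E` of `-ħ²Δ + V` in `ℂ ∖ [0,∞)`, counted with algebraic multiplicity (`mult V ħ z` is the
algebraic multiplicity of `z`, and `0` if `z` is not an eigenvalue). -/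
noncomputable def eigS {d : ℕ} (γ σ : ℝ) (V : E d → ℂ) (ħ : ℝ) : ℝ≥0∞ :=
  open Classical in
  ∑' z : ℂ, if z ∉ posRay then
    mult V ħ z * ENNReal.ofReal (‖z‖ ^ (-σ) * dRay z ^ (γ + σ)) else 0

end Pool.Agent.TH795.LT
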