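import Pool.Agent.TH795.LT.Defs
import Pool.Agent.TH795.LT.EigS
import Pool.Agent.TH55.J60
import Pool.Agent.TH55.J61
import Pool.Agent.TH55.J62

set_option autoImplicit false

/-!
# Counting eigenvalues with multiplicity
-/

open MeasureTheory Filter Topology Set
open scoped ENNReal NNReal ContDiff

namespace Pool.Agent.TH795.LT

open Pool.Agent.Helper41.CE (E IsTest pd pair IsGrad WeakEq Graph GenVec IndepVecs mult dRay posRay)

lemma sum_le_eigS {d : ℕ} {γ σ : ℝ} {V : E d → ℂ} {ħ : ℝ} {ι : Type} (s : Finset ι)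
    (Ev : ι → ℂ) (N : ι → ℕ) (hE : ∀ i ∈ s, Ev i ∉ posRay)
    (hm : ∀ z, ((∑ i ∈ s with Ev i = z, N i : ℕ) : ℝ≥0∞) ≤ mult V ħ z) :
    ∑ i ∈ s, (N i : ℝ≥0∞) * ENNReal.ofReal (‖Ev i‖ ^ (-σ) * dRay (Ev i) ^ (γ + σ)) ≤
      eigS γ σ V ħ := by
  classical
  unfold eigS
  refine le_trans ?_ (ENNReal.sum_le_tsum (s.image Ev))
  rw [← Finset.sum_fiberwise_of_maps_to (g := Ev) (t := s.image Ev)
    (fun i hi => Finset.mem_image_of_mem Ev hi)]
  apply Finset.sum_le_sum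
  intro z hz
  obtain ⟨i, hi, rfl⟩ := Finset.mem_image.1 hz
  rw [if_pos (hE i hi)]
  have h1 : ∑ j ∈ s with Ev j = Ev i, (N j : ℝ≥0∞) *
      ENNReal.ofReal (‖Ev j‖ ^ (-σ) * dRay (Ev j) ^ (γ + σ)) =
      ∑ j ∈ s with Ev j = Ev i, (N j : ℝ≥0∞) *
      ENNReal.ofReal (‖Ev i‖ ^ (-σ) * dRay (Ev i) ^ (γ + σ)) := by
    apply Finset.sum_congr rfl
    intro j hj
    rw [(Finset.mem_filter.1 hj).2]
  rw [h1, ← Finset.sum_mul]
  gcongr
  have h2 := hm (Ev i)
  push_cast at h2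
  exact h2

/-- The multiplicity is at least the number of harmonic polynomials involved. -/
lemma mult_ge {d : ℕ} (hd : 2 ≤ d) {V : E d → ℂ} {ħ : ℝ} {z : ℂ} {ι : Type} (J : Finset ι)
    (deg : ι → ℕ) (hdeg : ∀ i ∈ J, ∀ j ∈ J, deg i = deg j → i = j) (H : ι → ℝ → ℂ)
    (hH : ∀ i ∈ J, Continuous (H i)) (h1 : ∀ i ∈ J, H i 0 = 1)
    (hG : ∀ i ∈ J, ∀ Y : E d → ℝ, IsHH d (deg i) Y →
      Graph V ħ (fun x => H i (‖x‖ ^ 2) * (Y x : ℂ)) (fun x => z * (H i (‖x‖ ^ 2) * (Y x : ℂ)))) :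
    ((∑ i ∈ J, (deg i + d - 2).choose (d - 2) : ℕ) : ℝ≥0∞) ≤ mult V ħ z := by
  classical
  unfold mult
  refine le_iSup_of_le (∑ i ∈ J, (deg i + d - 2).choose (d - 2)) (le_iSup_of_le ?_ le_rfl)
  choose Y hY1 hY2 using fun l : ℕ => Pool.Agent.TH55.J61.exists_harmonics d l hd
  have hcard : Fintype.card (Σ i : J, Fin ((deg i + d - 2).choose (d - 2))) =
      ∑ i ∈ J, (deg i + d - 2).choose (d - 2) := by
    rw [Fintype.card_sigma]
    simp only [Fintype.card_fin]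
    exact Finset.sum_coe_sort J (fun i => (deg i + d - 2).choose (d - 2))
  let e := Fintype.equivFinOfCardEq hcard
  refine ⟨fun k x => H ((e.symm k).1 : ι) (‖x‖ ^ 2) * (Y (deg (e.symm k).1) (e.symm k).2 x : ℂ),
    ?_, ?_⟩
  · intro k
    refine ⟨1, fun _ => 0, Filter.EventuallyEq.rfl, ?_⟩
    have := hG (e.symm k).1 (e.symm k).1.2 (Y (deg (e.symm k).1) (e.symm k).2) (hY1 _ _)
    simpa using this
  · intro c hc
    have key := Pool.Agent.TH55.J62.indep_radial hd (ι := J) (fun i => deg i)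
      (fun i => (deg i + d - 2).choose (d - 2))
      (fun i j hij => Subtype.ext (hdeg i i.2 j j.2 hij)) (fun i j => Y (deg i) j)
      (fun i j => hY1 _ _) (fun i => hY2 _) (fun i => H i) (fun i => hH i i.2)
      (fun i => h1 i i.2) (fun i j => c (e ⟨i, j⟩)) ?_
    · funext k
      have := key (e.symm k).1 (e.symm k).2
      simpa using this
    · have heq : (fun x : E d => ∑ i : J, ∑ j, c (e ⟨i, j⟩) *
          (H i (‖x‖ ^ 2) * (Y (deg i) j x : ℂ))) = fun x => ∑ k, c k *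
            (H ((e.symm k).1 : ι) (‖x‖ ^ 2) * (Y (deg (e.symm k).1) (e.symm k).2 x : ℂ)) := by
        funext x
        rw [← Fintype.sum_sigma' (f := fun (i : J) (j : Fin ((deg i + d - 2).choose (d - 2))) =>
          c (e ⟨i, j⟩) * (H i (‖x‖ ^ 2) * (Y (deg i) j x : ℂ)))]
        apply Fintype.sum_equiv e
        intro p
        rw [Equiv.symm_apply_apply]
      rw [heq]
      exact hc

end Pool.Agent.TH795.LT
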