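import Pool.Agent.Helper41.CE.FDefs

/-!
# Eigenvalue sums for complex radial potentials in dimension at least two: auxiliary definitions
-/

set_option autoImplicit false

open MeasureTheory Filter Topology Set
open scoped ENNReal NNReal ContDiff

namespace Pool.Agent.TH795.LT

open Pool.Agent.Helper41.CE (E IsTest pd pair IsGrad WeakEq Graph GenVec IndepVecs mult dRay posRay)

/-- `Y` is (the function of) a homogeneous harmonic polynomial of degree `l` on `ℝᵈ`. -/
def IsHH (d l : ℕ) (Y : E d → ℝ) : Prop :=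
  ContDiff ℝ ∞ Y ∧ (∀ (c : ℝ) (x : E d), Y (c • x) = c ^ l * Y x) ∧
  ∀ x, ∑ i, fderiv ℝ (fun y => fderiv ℝ Y y (EuclideanSpace.single i 1)) x
    (EuclideanSpace.single i 1) = 0

/-- `√(-ζ)` with positive real part. -/
noncomputable def kap (ζ : ℂ) : ℂ := (-ζ) ^ (1 / 2 : ℂ)

/-- `√(ζ - i)`. -/
noncomputable def qq (ζ : ℂ) : ℂ := (ζ - Complex.I) ^ (1 / 2 : ℂ)

/-- The characteristic function of `-u'' + i 1_{[-a,a]} u = ζ u` on the line. -/
noncomputable def Finf (a : ℝ) (ζ : ℂ) : ℂ :=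
  2 * kap ζ * Complex.cos (2 * qq ζ * a) +
    (kap ζ ^ 2 / qq ζ - qq ζ) * Complex.sin (2 * qq ζ * a)

end Pool.Agent.TH795.LT
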