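import Pool.Agent.TH795.LT.Zero2

set_option autoImplicit false

/-!
# Existence of eigenvalues of the radial problem
-/

open MeasureTheory Filter Topology Set

namespace Pool.Agent.TH795.LT

open Pool.Agent.Helper209.AC (IsSol)

lemma regFam_of_regular {ε η : ℝ} (hε : 0 < ε) (hη : 0 < η) {v : ℝ → ℂ} {y0 : ℝ}
    {S T : ℂ → ℝ → ℂ} (h1 : ∀ z, IsSol (PP ε η v z) (S z) (T z))
    (h2 : ∀ z, ∀ y ≤ y0, S z y = reg ε η z y ∧ T z y = reg' ε η z y)
    (h3 : ∀ y, Differentiable ℂ (fun z => S z y)) (h4 : ∀ y, Differentiable ℂ (fun z => T z y)) :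
    RegFam ε η v S T := by
  refine ⟨h1, ?_, ?_, ?_, h3, h4⟩
  · intro z
    apply (reg_tendsto hε hη z).1.congr'
    filter_upwards [eventually_le_atBot y0] with y hy
    exact (h2 z y hy).1.symm
  · intro z
    apply (reg_tendsto hε hη z).2.congr'
    filter_upwards [eventually_le_atBot y0] with y hy
    exact (h2 z y hy).2.symm
  · intro z
    filter_upwards [eventually_le_atBot y0, reg_ne hε hη.le z] with y hy hy'
    rw [(h2 z y hy).1]
    exact hy'

theorem exists_eig {a : ℝ} (ha : 0 < a) {e : ℂ} (he : 1 < e.re) (hei : 0 < e.im)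
    (hF : Finf a e = 0) (hiso : ∀ᶠ ζ in 𝓝[≠] e, Finf a ζ ≠ 0) {r0 η0 Λ : ℝ} (hr0 : 0 < r0)
    (hη0 : 0 < η0) (hΛ : η0 ≤ Λ) :
    ∃ ε1 : ℝ, 0 < ε1 ∧ ∀ (ε η : ℝ) (v : ℝ → ℂ), Adm a ε1 ε η0 Λ η v → ∀ y0 : ℝ,
      (∀ y ≤ y0, v y = 0) → ∃ z : ℂ, ‖z - (e + (η : ℂ) ^ 2)‖ ≤ r0 ∧ ∃ φ φ' : ℝ → ℂ,
        IsSol (PP ε η v z) φ φ' ∧ (∀ y ≤ y0, φ y = reg ε η z y ∧ φ' y = reg' ε η z y) ∧
        IntegrableOn (fun y => (1 + Real.exp (2 * ε * y)) * ‖φ y‖ ^ 2) (Ioi 0) ∧
        IntegrableOn (fun y => ‖φ' y‖ ^ 2) (Ioi 0) := by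
  obtain ⟨ε1, t, c1, b0, hε1, ht, hc1, hab0, hmain⟩ := trunc_zero ha he hei hF hiso hr0 hη0 hΛ
  refine ⟨ε1, hε1, ?_⟩
  intro ε η v hA y0 hy0
  have hη : 0 < η := hη0.trans_le hA.hη0
  obtain ⟨r, hr, hrr, hco, hz⟩ := hmain ε η v hA
  obtain ⟨S, T, h1, h2, h3, h4⟩ := exists_regular hA.hε hη.le hA.cont hy0
  have hfam := regFam_of_regular hA.hε hη h1 h2 h3 h4
  set ω : ℂ := (t : ℂ) + Complex.I with hω
  have hωre : ω.re = t := by simp [hω]
  have hb : ∀ n : ℕ, b0 < b0 + 1 + n := fun n => by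
    have : (0 : ℝ) ≤ n := Nat.cast_nonneg n
    linarith
  choose zn hzn hzn0 using fun n : ℕ => hz S T hfam (b0 + 1 + n) (hb n)
  obtain ⟨z, hzK, ψ, hψ, hψlim⟩ := (isCompact_closedBall (e + (η : ℂ) ^ 2) r).tendsto_subseq hzn
  have hen : ∀ Y, a ≤ Y → en ω (S z) (T z) Y ≤ 0 := by
    intro Y hY
    have hc : Continuous fun z => en ω (S z) (T z) Y := by
      unfold en
      have a1 := (h3 Y).continuous
      have a2 := (h4 Y).continuous
      exact Complex.continuous_re.comp (continuous_const.mul ((Complex.continuous_conj.comp a1).mul a2))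
    have hlim := (hc.tendsto z).comp hψlim
    apply le_of_tendsto hlim
    have hev : ∀ᶠ n : ℕ in atTop, Y ≤ b0 + 1 + (ψ n : ℕ) := by
      have h5 : Tendsto (fun n : ℕ => ((ψ n : ℕ) : ℝ)) atTop atTop :=
        tendsto_natCast_atTop_atTop.comp hψ.tendsto_atTop
      filter_upwards [h5.eventually_ge_atTop (Y - b0 - 1)] with n hn
      linarith
    filter_upwards [hev] with n hn
    have hmono : MonotoneOn (en ω (S (zn (ψ n))) (T (zn (ψ n)))) (Ici a) := by
      apply en_mono (h1 _) (by rw [hωre]; exact ht.le) (convex_Ici a)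
      intro y hy
      have h6 := hco (zn (ψ n)) (hzn (ψ n)) y hy
      have h7 : 0 ≤ c1 * (1 + Real.exp (2 * ε * y)) := by positivity
      exact h7.trans h6
    have h8 := hmono (show Y ∈ Ici a from hY) (show b0 + 1 + ((ψ n : ℕ) : ℝ) ∈ Ici a from hY.trans hn) hn
    have h9 : en ω (S (zn (ψ n))) (T (zn (ψ n))) (b0 + 1 + (ψ n : ℕ)) = 0 := by
      unfold en
      rw [hzn0 (ψ n)]
      simp
    rw [h9] at h8
    exact h8
  have hz1 : ‖z - (e + (η : ℂ) ^ 2)‖ ≤ r0 := by
    rw [mem_closedBall_iff_norm] at hzK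
    exact hzK.trans hrr
  refine ⟨z, hz1, S z, T z, h1 z, h2 z, ?_⟩
  have hSc : Continuous (S z) := (h1 z).cont
  have hTc : Continuous (T z) := (h1 z).cont'
  set g : ℝ → ℝ := fun y => c1 * ((1 + Real.exp (2 * ε * y)) * ‖S z y‖ ^ 2) + t * ‖T z y‖ ^ 2 with hg
  have hgc : Continuous g := by
    rw [hg]
    fun_prop
  have hgn : ∀ y, 0 ≤ g y := fun y => by
    simp only [hg]
    positivity
  have hdc : Continuous (den ω (PP ε η v z) (S z) (T z)) := by
    have hPc := PP_cont ε η hA.cont z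
    unfold den
    exact (continuous_const.mul (hTc.norm.pow 2)).add
      ((Complex.continuous_re.comp (continuous_const.mul hPc)).mul (hSc.norm.pow 2))
  have hgd : ∀ y, a ≤ y → g y ≤ den ω (PP ε η v z) (S z) (T z) y := by
    intro y hy
    simp only [hg]
    unfold den
    rw [hωre]
    have h6 := hco z hzK y hy
    have h7 := mul_le_mul_of_nonneg_right h6 (by positivity : 0 ≤ ‖S z y‖ ^ 2)
    linarith
  have hbound : ∀ Y, a ≤ Y → ∫ y in a..Y, ‖g y‖ ≤ -en ω (S z) (T z) a := by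
    intro Y hY
    have e1 : ∫ y in a..Y, den ω (PP ε η v z) (S z) (T z) y =
        en ω (S z) (T z) Y - en ω (S z) (T z) a :=
      intervalIntegral.integral_eq_sub_of_hasDerivAt (fun y _ => hasDerivAt_en (h1 z) y)
        (hdc.intervalIntegrable _ _)
    have e2 : ∫ y in a..Y, ‖g y‖ ≤ ∫ y in a..Y, den ω (PP ε η v z) (S z) (T z) y := by
      apply intervalIntegral.integral_mono_on hY (hgc.norm.intervalIntegrable _ _)
        (hdc.intervalIntegrable _ _)
      intro y hy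
      rw [Real.norm_of_nonneg (hgn y)]
      exact hgd y hy.1
    rw [e1] at e2
    have := hen Y hY
    linarith
  have hgint : IntegrableOn g (Ioi a) := by
    apply integrableOn_Ioi_of_intervalIntegral_norm_bounded (-en ω (S z) (T z) a) a
      (b := fun n : ℕ => (n : ℝ)) (l := atTop)
    · intro n
      exact (hgc.integrableOn_Icc).mono_set Ioc_subset_Icc_self
    · exact tendsto_natCast_atTop_atTop
    · filter_upwards [eventually_ge_atTop (Nat.ceil a)] with n hn
      exact hbound n ((Nat.le_ceil a).trans (by exact_mod_cast hn))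
  have hg0 : IntegrableOn g (Ioi 0) := by
    have h5 : Ioi (0 : ℝ) ⊆ Icc 0 a ∪ Ioi a := by
      intro y hy
      rcases le_or_gt y a with h6 | h6
      · exact Or.inl ⟨le_of_lt hy, h6⟩
      · exact Or.inr h6
    exact (hgc.integrableOn_Icc.union hgint).mono_set h5
  constructor
  · have h5 : Integrable (fun y => c1⁻¹ * g y) (volume.restrict (Ioi 0)) := hg0.const_mul c1⁻¹
    refine Integrable.mono' h5 (by fun_prop : Continuous fun y =>
      (1 + Real.exp (2 * ε * y)) * ‖S z y‖ ^ 2).aestronglyMeasurable ?_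
    refine Filter.Eventually.of_forall (fun y => ?_)
    rw [Real.norm_of_nonneg (by positivity)]
    simp only [hg]
    rw [mul_add, ← mul_assoc, inv_mul_cancel₀ hc1.ne', one_mul]
    have : 0 ≤ c1⁻¹ * (t * ‖T z y‖ ^ 2) := by positivity
    linarith
  · have h5 : Integrable (fun y => t⁻¹ * g y) (volume.restrict (Ioi 0)) := hg0.const_mul t⁻¹
    refine Integrable.mono' h5 (by fun_prop : Continuous fun y => ‖T z y‖ ^ 2).aestronglyMeasurable ?_
    refine Filter.Eventually.of_forall (fun y => ?_)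
    rw [Real.norm_of_nonneg (by positivity)]
    simp only [hg]
    have : 0 ≤ t⁻¹ * (c1 * ((1 + Real.exp (2 * ε * y)) * ‖S z y‖ ^ 2)) := by positivity
    have e3 : t⁻¹ * (t * ‖T z y‖ ^ 2) = ‖T z y‖ ^ 2 := by
      rw [← mul_assoc, inv_mul_cancel₀ ht.ne', one_mul]
    rw [mul_add, e3]
    linarith

end Pool.Agent.TH795.LT
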