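import Pool.Agent.TH795.LT.Lim

set_option autoImplicit false

/-!
# Estimates on the coefficient
-/

open MeasureTheory Filter Topology Set

namespace Pool.Agent.TH795.LT

open Pool.Agent.Helper209.AC (IsSol)

/-- admissible data -/
structure Adm (a ε1 ε η0 Λ η : ℝ) (v : ℝ → ℂ) : Prop where
  hε : 0 < ε
  hε1 : ε ≤ ε1
  hη0 : η0 ≤ η
  hΛ : η ≤ Λ
  cont : Continuous v
  out : ∀ y, a ≤ |y| → ‖v y‖ ≤ ε1 * (1 + Real.exp (-(2 * ε * y)))
  ins : ∀ y, |y| ≤ a → ‖v y‖ ≤ 1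
  l1 : ∫ y in (-a)..a, ‖v y - Complex.I‖ ≤ ε1

lemma abs_exp_sub_one {x c : ℝ} (h : |x| ≤ c) : |Real.exp x - 1| ≤ Real.exp c - 1 := by
  have hc : 0 ≤ c := (abs_nonneg x).trans h
  rw [abs_le] at h
  rw [abs_le]
  constructor
  · have h1 : Real.exp (-c) ≤ Real.exp x := Real.exp_le_exp.2 h.1
    have h2 : 1 - c ≤ Real.exp (-c) := by
      have := Real.add_one_le_exp (-c)
      linarith
    have h3 : 2 ≤ Real.exp c + Real.exp (-c) := by
      have h4 := Real.add_one_le_exp c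
      linarith
    linarith
  · have h1 : Real.exp x ≤ Real.exp c := Real.exp_le_exp.2 h.2
    linarith

section

variable {a ε1 ε η0 Λ η : ℝ} {v : ℝ → ℂ}

lemma coer {B s0 t c1 : ℝ} {z : ℂ} (h : Adm a ε1 ε η0 Λ η v) (hη0 : 0 < η0)
    (hz : ‖z‖ ≤ B) (hzi : s0 ≤ z.im) (ht : 0 < t) (ht1 : t ≤ 1) (htB : t * B ≤ s0 / 2)
    (hc1 : 2 * ε1 ≤ c1) (hc2 : 2 * c1 ≤ t * η0 ^ 2) (hc3 : 2 * c1 ≤ s0 / 2) {y : ℝ}
    (hy : a ≤ |y|) :
    c1 * (1 + Real.exp (2 * ε * y)) ≤ (((t : ℂ) + Complex.I) * PP ε η v z y).re := by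
  set E := Real.exp (2 * ε * y) with hE
  have hE0 : 0 < E := Real.exp_pos _
  have hv := h.out y hy
  have hEi : Real.exp (-(2 * ε * y)) = E⁻¹ := by rw [Real.exp_neg]
  rw [hEi] at hv
  have hvE : E * ‖v y‖ ≤ ε1 * (E + 1) := by
    calc E * ‖v y‖ ≤ E * (ε1 * (1 + E⁻¹)) := mul_le_mul_of_nonneg_left hv hE0.le
      _ = ε1 * (E + 1) := by field_simp
  have e1 : (((t : ℂ) + Complex.I) * PP ε η v z y).re =
      t * η ^ 2 + E * (t * (v y).re - (v y).im) + E * (z.im - t * z.re) := by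
    unfold PP
    rw [← hE]
    have e2 : (η : ℂ) ^ 2 = ((η ^ 2 : ℝ) : ℂ) := by push_cast; ring
    rw [e2]
    simp only [Complex.mul_re, Complex.add_re, Complex.ofReal_re, Complex.I_re, Complex.add_im,
      Complex.ofReal_im, Complex.I_im, Complex.mul_im, Complex.sub_re, Complex.sub_im]
    ring
  rw [e1]
  have h1 : |(v y).re| ≤ ‖v y‖ := Complex.abs_re_le_norm _
  have h2 : |(v y).im| ≤ ‖v y‖ := Complex.abs_im_le_norm _
  have h3 : -(2 * ‖v y‖) ≤ t * (v y).re - (v y).im := by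
    rw [abs_le] at h1 h2
    have := norm_nonneg (v y)
    nlinarith
  have h4 : -(2 * (ε1 * (E + 1))) ≤ E * (t * (v y).re - (v y).im) := by
    have := mul_le_mul_of_nonneg_left h3 hE0.le
    nlinarith
  have h5 : z.re ≤ B := (Complex.re_le_norm z).trans hz
  have h6 : s0 / 2 ≤ z.im - t * z.re := by nlinarith
  have h7 : E * (s0 / 2) ≤ E * (z.im - t * z.re) := mul_le_mul_of_nonneg_left h6 hE0.le
  have h8 : η0 ^ 2 ≤ η ^ 2 := by
    have := h.hη0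
    nlinarith
  have h9 : t * η0 ^ 2 ≤ t * η ^ 2 := mul_le_mul_of_nonneg_left h8 ht.le
  have h10 : 2 * c1 * E ≤ s0 / 2 * E := mul_le_mul_of_nonneg_right hc3 hE0.le
  have h11 : 2 * ε1 * E ≤ c1 * E := mul_le_mul_of_nonneg_right hc1 hE0.le
  nlinarith

lemma pdiff {B X : ℝ} {z : ℂ} (h : Adm a ε1 ε η0 Λ η v) (hz : ‖z‖ ≤ B) {y : ℝ}
    (hy : a ≤ |y|) (hyX : |y| ≤ X) :
    ‖PP ε η v z y - ((η : ℂ) ^ 2 - z)‖ ≤ (Real.exp (2 * ε1 * X) - 1) * B +
      Real.exp (2 * ε1 * X) * (ε1 * (1 + Real.exp (2 * ε1 * X))) := by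
  set E := Real.exp (2 * ε * y) with hE
  have hE0 : 0 < E := Real.exp_pos _
  have hε := h.hε
  have hε1 := h.hε1
  have hX : 0 ≤ X := (abs_nonneg y).trans hyX
  have hv := h.out y hy
  have e1 : PP ε η v z y - ((η : ℂ) ^ 2 - z) = E * v y - ((E - 1 : ℝ) : ℂ) * z := by
    unfold PP
    rw [← hE]
    push_cast
    ring
  rw [e1]
  have hb : |2 * ε * y| ≤ 2 * ε1 * X := by
    rw [abs_mul, abs_of_pos (by positivity : 0 < 2 * ε)]
    apply mul_le_mul _ hyX (abs_nonneg _) (by linarith)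
    linarith
  have h1 : |E - 1| ≤ Real.exp (2 * ε1 * X) - 1 := abs_exp_sub_one hb
  have h2 : E ≤ Real.exp (2 * ε1 * X) := Real.exp_le_exp.2 ((le_abs_self _).trans hb)
  have h3 : Real.exp (-(2 * ε * y)) ≤ Real.exp (2 * ε1 * X) :=
    Real.exp_le_exp.2 ((neg_le_abs _).trans hb)
  have hB : 0 ≤ B := (norm_nonneg _).trans hz
  have hε10 : 0 < ε1 := hε.trans_le hε1
  have h4 : ‖v y‖ ≤ ε1 * (1 + Real.exp (2 * ε1 * X)) :=
    hv.trans (mul_le_mul_of_nonneg_left (by linarith) hε10.le)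
  calc ‖(E : ℂ) * v y - ((E - 1 : ℝ) : ℂ) * z‖ ≤ ‖(E : ℂ) * v y‖ + ‖((E - 1 : ℝ) : ℂ) * z‖ :=
        norm_sub_le _ _
    _ = E * ‖v y‖ + |E - 1| * ‖z‖ := by
        rw [norm_mul, norm_mul, Complex.norm_real, Complex.norm_real, Real.norm_of_nonneg hE0.le,
          Real.norm_eq_abs]
    _ ≤ Real.exp (2 * ε1 * X) * (ε1 * (1 + Real.exp (2 * ε1 * X))) +
        (Real.exp (2 * ε1 * X) - 1) * B := by
        apply add_le_add
        · exact mul_le_mul h2 h4 (norm_nonneg _) (Real.exp_pos _).le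
        · exact mul_le_mul h1 hz (norm_nonneg _) ((abs_nonneg _).trans h1)
    _ = _ := by ring

lemma pin {B : ℝ} {z : ℂ} (h : Adm a ε1 ε η0 Λ η v) (hη0 : 0 ≤ η0) (hz : ‖z‖ ≤ B)
    (h3 : Real.exp (2 * ε1 * a) ≤ 3) {y : ℝ} (hy : |y| ≤ a) :
    ‖PP ε η v z y - (Complex.I - (z - (η : ℂ) ^ 2))‖ ≤ (Real.exp (2 * ε1 * a) - 1) * (1 + B) +
      ‖v y - Complex.I‖ ∧ ‖PP ε η v z y‖ ≤ Λ ^ 2 + 3 * (1 + B) := by
  set E := Real.exp (2 * ε * y) with hE
  have hE0 : 0 < E := Real.exp_pos _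
  have hε := h.hε
  have hε1 := h.hε1
  have ha : 0 ≤ a := (abs_nonneg y).trans hy
  have hv := h.ins y hy
  have hb : |2 * ε * y| ≤ 2 * ε1 * a := by
    rw [abs_mul, abs_of_pos (by positivity : 0 < 2 * ε)]
    apply mul_le_mul _ hy (abs_nonneg _) (by linarith)
    linarith
  have h1 : |E - 1| ≤ Real.exp (2 * ε1 * a) - 1 := abs_exp_sub_one hb
  have h2 : E ≤ Real.exp (2 * ε1 * a) := Real.exp_le_exp.2 ((le_abs_self _).trans hb)
  have hB : 0 ≤ B := (norm_nonneg _).trans hz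
  have hvz : ‖v y - z‖ ≤ 1 + B := (norm_sub_le _ _).trans (add_le_add hv hz)
  constructor
  · have e1 : PP ε η v z y - (Complex.I - (z - (η : ℂ) ^ 2)) =
        ((E - 1 : ℝ) : ℂ) * (v y - z) + (v y - Complex.I) := by
      unfold PP
      rw [← hE]
      push_cast
      ring
    rw [e1]
    refine (norm_add_le _ _).trans ?_
    gcongr
    rw [norm_mul, Complex.norm_real, Real.norm_eq_abs]
    exact mul_le_mul h1 hvz (norm_nonneg _) ((abs_nonneg _).trans h1)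
  · unfold PP
    rw [← hE]
    refine (norm_add_le _ _).trans ?_
    have hη : 0 ≤ η := hη0.trans h.hη0
    apply add_le_add
    · rw [norm_pow, Complex.norm_real, Real.norm_of_nonneg hη]
      exact pow_le_pow_left₀ hη h.hΛ 2
    · rw [norm_mul, Complex.norm_real, Real.norm_of_nonneg hE0.le]
      exact mul_le_mul (h2.trans h3) hvz (norm_nonneg _) (by norm_num)

lemma PP_cont (ε η : ℝ) {v : ℝ → ℂ} (hv : Continuous v) (z : ℂ) : Continuous (PP ε η v z) := by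
  unfold PP
  fun_prop

end

end Pool.Agent.TH795.LT
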