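import Pool.Agent.TH795.LT.Pot

set_option autoImplicit false

/-!
# Integrability of the potential, and the final estimate
-/

open MeasureTheory Filter Topology Set
open scoped ENNReal NNReal ContDiff

namespace Pool.Agent.TH795.LT

open Pool.Agent.Helper41.CE (E)

section

variable {d : ℕ} {p : ℝ} {a tol am ε R : ℕ → ℝ}

lemma exp_sub_exp_neg_le {x : ℝ} (h0 : 0 ≤ x) (h1 : x ≤ 1) :
    Real.exp x - Real.exp (-x) ≤ 3 * x := by
  have h2 := Real.abs_exp_sub_one_sub_id_le (x := x) (by rw [abs_of_nonneg h0]; exact h1)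
  rw [abs_le] at h2
  have h3 := Real.add_one_le_exp (-x)
  nlinarith [h2.2]

lemma shell_volume (h : Seqs d p a tol am ε R) (j : ℕ) :
    volume (Metric.closedBall (0 : E d) (Up a ε R j) \ Metric.ball 0 (Lo a ε R j)) ≤
      ENNReal.ofReal (R j ^ d * (3 * (d * ε j * a j))) * volume (Metric.ball (0 : E d) 1) := by
  have hLo := Lo_pos h j
  have hLU := Lo_lt_Up h j
  have hUp : 0 < Up a ε R j := hLo.trans hLU
  have hfin : volume (Metric.ball (0 : E d) (Lo a ε R j)) ≠ ⊤ := measure_ball_lt_top.ne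
  rw [measure_sdiff (Metric.ball_subset_closedBall.trans (Metric.closedBall_subset_closedBall hLU.le))
    measurableSet_ball.nullMeasurableSet hfin]
  rw [Measure.addHaar_closedBall _ _ hUp.le, Measure.addHaar_ball_of_pos _ _ hLo]
  have hfr : Module.finrank ℝ (E d) = d := finrank_euclideanSpace_fin
  rw [hfr, ← ENNReal.sub_mul (fun _ _ => measure_ball_lt_top.ne), ← ENNReal.ofReal_sub _ (by positivity)]
  gcongr
  have hR := h.hR j
  have e1 : Up a ε R j ^ d = R j ^ d * Real.exp (d * ε j * a j) := by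
    unfold Up
    rw [mul_pow, ← Real.exp_nat_mul]
    ring_nf
  have e2 : Lo a ε R j ^ d = R j ^ d * Real.exp (-(d * ε j * a j)) := by
    unfold Lo
    rw [mul_pow, ← Real.exp_nat_mul]
    ring_nf
  rw [e1, e2, ← mul_sub]
  apply mul_le_mul_of_nonneg_left _ (by positivity)
  apply exp_sub_exp_neg_le
  · have h1 := h.hε j
    have h2 := h.ha j
    positivity
  · exact h.hεa j

theorem VV_memLp (hp : 0 < p) (h : Seqs d p a tol am ε R) :
    MemLp (fun x : E d => VV a tol am ε R ‖x‖) (ENNReal.ofReal p) volume := by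
  refine ⟨((VV_cont h).comp continuous_norm).aestronglyMeasurable, ?_⟩
  have hp0 : ENNReal.ofReal p ≠ 0 := by
    rw [Ne, ENNReal.ofReal_eq_zero, not_le]
    exact hp
  rw [eLpNorm_lt_top_iff_lintegral_rpow_enorm_lt_top hp0 ENNReal.ofReal_ne_top,
    ENNReal.toReal_ofReal hp.le]
  set A : ℕ → Set (E d) := fun j =>
    Metric.closedBall (0 : E d) (Up a ε R j) \ Metric.ball 0 (Lo a ε R j) with hA
  have hAm : ∀ j, MeasurableSet (A j) := fun j => measurableSet_closedBall.diff measurableSet_ball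
  have hpt : ∀ x : E d, ‖VV a tol am ε R ‖x‖‖ₑ ^ p ≤
      ∑' j, (A j).indicator (fun _ => ENNReal.ofReal (am j ^ p)) x := by
    intro x
    rcases VV_cases h ‖x‖ with h0 | ⟨j, hj, h0⟩
    · rw [h0, enorm_zero, ENNReal.zero_rpow_of_pos hp]
      exact zero_le
    · refine le_trans ?_ (ENNReal.le_tsum j)
      obtain ⟨h1, h2⟩ := ff_supp h hj
      have hx : x ∈ A j := by
        rw [hA]
        refine ⟨?_, ?_⟩
        · rw [mem_closedBall_zero_iff]; exact h2.le
        · rw [mem_ball_zero_iff, not_lt]; exact h1.le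
      rw [indicator_of_mem hx, ← ofReal_norm, ENNReal.ofReal_rpow_of_nonneg (norm_nonneg _) hp.le]
      apply ENNReal.ofReal_le_ofReal
      exact Real.rpow_le_rpow (norm_nonneg _) (VV_norm h h0) hp.le
  refine (lintegral_mono hpt).trans_lt ?_
  rw [lintegral_tsum (fun j => (measurable_const.indicator (hAm j)).aemeasurable)]
  have hterm : ∀ j, ∫⁻ x, (A j).indicator (fun _ => ENNReal.ofReal (am j ^ p)) x ∂volume ≤
      ENNReal.ofReal (3 * d * (1 / 2) ^ j) * volume (Metric.ball (0 : E d) 1) := by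
    intro j
    rw [lintegral_indicator_const (hAm j)]
    calc ENNReal.ofReal (am j ^ p) * volume (A j) ≤ ENNReal.ofReal (am j ^ p) *
          (ENNReal.ofReal (R j ^ d * (3 * (d * ε j * a j))) * volume (Metric.ball (0 : E d) 1)) := by
          gcongr
          exact shell_volume h j
      _ = ENNReal.ofReal (3 * d * (1 / 2) ^ j) * volume (Metric.ball (0 : E d) 1) := by
          rw [← mul_assoc, ← ENNReal.ofReal_mul (Real.rpow_nonneg (h.ham j).le _), ← h.hpow j]
          congr 2
          ring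
  refine (ENNReal.tsum_le_tsum hterm).trans_lt ?_
  rw [ENNReal.tsum_mul_right]
  apply ENNReal.mul_lt_top _ measure_ball_lt_top
  rw [← ENNReal.ofReal_tsum_of_nonneg (fun j => by positivity)]
  · exact ENNReal.ofReal_lt_top
  · exact (summable_geometric_of_lt_one (by norm_num) (by norm_num)).mul_left _

theorem VV_tendsto (h : Seqs d p a tol am ε R) :
    Tendsto (fun x : E d => VV a tol am ε R ‖x‖) (cocompact (E d)) (𝓝 0) := by
  rw [Metric.tendsto_nhds]
  intro δ hδ
  obtain ⟨J, hJ⟩ := exists_pow_lt_of_lt_one hδ (by norm_num : (1 / 4 : ℝ) < 1)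
  filter_upwards [(tendsto_norm_cocompact_atTop (E := E d)).eventually_gt_atTop (Up a ε R J)] with x hx
  rw [dist_zero_right]
  rcases VV_cases h ‖x‖ with h0 | ⟨j, hj, h0⟩
  · rw [h0, norm_zero]; exact hδ
  · have h1 := (ff_supp h hj).2
    have h2 : J < j := by
      by_contra hcon
      push Not at hcon
      have := Up_mono h hcon
      linarith
    calc ‖VV a tol am ε R ‖x‖‖ ≤ am j := VV_norm h h0
      _ ≤ am J := am_anti h h2.le
      _ ≤ (1 / 4) ^ J := am_le h J
      _ < δ := hJ

end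

theorem main {d : ℕ} (hd : 2 ≤ d) {γ : ℝ} (hγ : 0 < γ) :
    ∃ W : ℝ → ℝ, Continuous W ∧ (∀ r, 0 ≤ W r ∧ W r ≤ 1) ∧ ∃ V : E d → ℂ,
      (∀ x, V x = (W ‖x‖ : ℂ) * Complex.I) ∧
      Tendsto V (cocompact (E d)) (𝓝 0) ∧ MemLp V (ENNReal.ofReal (γ + (d : ℝ) / 2)) volume ∧
      ∀ σ : ℝ, 0 ≤ σ → σ ≤ (d : ℝ) / 2 →
        limsup (fun ħ : ℝ => ENNReal.ofReal (ħ ^ d) * eigS γ σ V ħ) (𝓝[>] 0) = ⊤ := by
  have hd0 : (0 : ℝ) < d := by exact_mod_cast (by omega : 0 < d)
  choose a tol ha htol hstage using fun j : ℕ => stage hd hγ ((4 : ℝ) ^ j)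
  obtain ⟨am, ε, R, h⟩ := exists_seqs hd (γ + (d : ℝ) / 2) a tol ha htol
  have hVW : ∀ r, VV a tol am ε R r = (((VV a tol am ε R r).im : ℝ) : ℂ) * Complex.I ∧
      0 ≤ (VV a tol am ε R r).im := by
    intro r
    rcases VV_cases h r with h0 | ⟨j, hj, h0⟩
    · rw [h0]; simp
    · have h1 : 0 ≤ ff a tol ε R j r := trap_nonneg _ _ _
      have h3 := h.ham j
      have e : (VV a tol am ε R r).im = am j * ff a tol ε R j r := by
        rw [h0, Complex.im_ofReal_mul, Complex.I_im, mul_one]
      rw [e]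
      exact ⟨h0, by positivity⟩
  refine ⟨fun r => (VV a tol am ε R r).im, Complex.continuous_im.comp (VV_cont h),
    fun r => ⟨(hVW r).2, ?_⟩, fun x => VV a tol am ε R ‖x‖, fun x => (hVW ‖x‖).1, VV_tendsto h,
    VV_memLp (by positivity) h, ?_⟩
  · exact ((le_abs_self _).trans (Complex.abs_im_le_norm _)).trans (VV_bdd h r)
  · intro σ hσ0 hσ
    obtain ⟨hb, hhb⟩ : ∃ hb : ℕ → ℝ, hb = fun j => Real.sqrt (am j) * (R j * ε j) := ⟨_, rfl⟩
    have hbpos : ∀ j, 0 < hb j := by
      intro j
      have h1 := h.ham j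
      have h2 := h.hR j
      have h3 := h.hε j
      rw [hhb]
      positivity
    have hbt : Tendsto hb atTop (𝓝[>] 0) := by
      rw [tendsto_nhdsWithin_iff]
      refine ⟨?_, Eventually.of_forall hbpos⟩
      refine squeeze_zero (fun j => (hbpos j).le) (fun j => ?_) tendsto_one_div_add_atTop_nhds_zero_nat
      rw [hhb]
      exact (h.hsmall j).le
    have hlow : ∀ j, ENNReal.ofReal (cst d γ * 2 ^ j) ≤
        ENNReal.ofReal (hb j ^ d) * eigS γ σ (fun x : E d => VV a tol am ε R ‖x‖) (hb j) := by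
      intro j
      have ham := h.ham j
      have hR := h.hR j
      have hε := h.hε j
      have haj := h.ha j
      have haj0 : 0 < a j := by linarith
      have hrel : am j * R j ^ 2 * ε j ^ 2 = hb j ^ 2 := by
        rw [hhb]
        simp only
        rw [mul_pow, mul_pow, Real.sq_sqrt ham.le]
        ring
      have h1 := hstage j (ε j) (R j) (am j) (hb j) _ (VV_ann h j) (hbpos j) hrel σ hσ0 hσ
      have h2 : ENNReal.ofReal (cst d γ * 2 ^ j) = ENNReal.ofReal (hb j ^ d) *
          ENNReal.ofReal (cst d γ * (4 ^ j * a j) * am j ^ γ * (1 / ε j) ^ (d - 1)) := by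
        rw [← ENNReal.ofReal_mul (by have := hbpos j; positivity)]
        congr 1
        have e1 : hb j ^ d = am j ^ ((d : ℝ) / 2) * R j ^ d * ε j ^ d := by
          rw [hhb]
          simp only
          rw [mul_pow, mul_pow, Real.sqrt_eq_rpow, ← Real.rpow_natCast, ← Real.rpow_mul ham.le]
          have : 1 / 2 * (d : ℝ) = (d : ℝ) / 2 := by ring
          rw [this]
          ring
        have e2 : ε j ^ d * (1 / ε j) ^ (d - 1) = ε j := by
          obtain ⟨n, hn⟩ : ∃ n, d = n + 1 := ⟨d - 1, by omega⟩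
          rw [hn, Nat.add_sub_cancel, pow_succ, one_div, inv_pow]
          field_simp
        have e3 : am j ^ ((d : ℝ) / 2) * am j ^ γ = am j ^ (γ + (d : ℝ) / 2) := by
          rw [← Real.rpow_add ham]
          congr 1
          ring
        have e4 := h.hpow j
        calc cst d γ * 2 ^ j = cst d γ * (4 ^ j * (1 / 2) ^ j) := by
              rw [← mul_pow]
              norm_num
          _ = cst d γ * (4 ^ j * (am j ^ (γ + (d : ℝ) / 2) * R j ^ d * a j * ε j)) := by rw [e4]
          _ = (am j ^ ((d : ℝ) / 2) * R j ^ d) * (ε j ^ d * (1 / ε j) ^ (d - 1)) *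
              (cst d γ * (4 ^ j * a j) * am j ^ γ) := by
              rw [e2, ← e3]
              ring
          _ = _ := by
              rw [e1]
              ring
      rw [h2]
      gcongr
    rw [eq_top_iff]
    refine le_of_forall_lt_imp_le_of_dense (fun C hC => ?_) 
    refine le_limsup_of_frequently_le ?_ (by isBoundedDefault)
    · have hev : ∀ᶠ j : ℕ in atTop, C ≤ ENNReal.ofReal (hb j ^ d) *
          eigS γ σ (fun x : E d => VV a tol am ε R ‖x‖) (hb j) := by
        have h5 : Tendsto (fun j : ℕ => cst d γ * (2 : ℝ) ^ j) atTop atTop :=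
          (tendsto_pow_atTop_atTop_of_one_lt (by norm_num)).const_mul_atTop (cst_pos d γ)
        filter_upwards [h5.eventually_ge_atTop C.toReal] with j hj
        refine le_trans ?_ (hlow j)
        rw [← ENNReal.ofReal_toReal hC.ne]
        exact ENNReal.ofReal_le_ofReal hj
      exact hbt.frequently hev.frequently

end Pool.Agent.TH795.LT
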