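import Mathlib

set_option autoImplicit false

/-!
# The entire function `₀F₁(; ν+1; x)`
-/

open Filter Topology Set

namespace Pool.Agent.TH795.LT

namespace GF

/-- power series with coefficients `c` -/
noncomputable def S (c : ℕ → ℂ) (x : ℂ) : ℂ := ∑' k, c k * x ^ k

/-- coefficients of the derivative -/
def D (c : ℕ → ℂ) (k : ℕ) : ℂ := (k + 1) * c (k + 1)

/-- coefficients of exponential type at most one -/
def Small (c : ℕ → ℂ) : Prop := ∀ k, ‖c k‖ ≤ ((k.factorial : ℝ))⁻¹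

lemma Small.D {c : ℕ → ℂ} (h : Small c) : Small (D c) := by
  intro k
  have h1 := h (k + 1)
  unfold GF.D
  rw [norm_mul]
  have h2 : ‖((k : ℂ) + 1)‖ = (k : ℝ) + 1 := by
    have : ((k : ℂ) + 1) = ((k + 1 : ℕ) : ℂ) := by push_cast; ring
    rw [this, Complex.norm_natCast]; push_cast; ring
  rw [h2]
  have h3 : ((k + 1).factorial : ℝ) = (k + 1) * k.factorial := by
    rw [Nat.factorial_succ]; push_cast; ring
  rw [h3, mul_inv] at h1
  have hk : (0 : ℝ) < (k : ℝ) + 1 := by positivity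
  calc ((k : ℝ) + 1) * ‖c (k + 1)‖ ≤ ((k : ℝ) + 1) * (((k : ℝ) + 1)⁻¹ * (k.factorial : ℝ)⁻¹) :=
        mul_le_mul_of_nonneg_left h1 hk.le
    _ = (k.factorial : ℝ)⁻¹ := by field_simp

lemma Small.summable {c : ℕ → ℂ} (h : Small c) (x : ℂ) : Summable fun k => c k * x ^ k := by
  have hs := Real.summable_pow_div_factorial ‖x‖
  refine Summable.of_norm_bounded hs (fun k => ?_)
  have e : ‖x‖ ^ k / (k.factorial : ℝ) = ((k.factorial : ℝ))⁻¹ * ‖x‖ ^ k := by
    rw [div_eq_mul_inv, mul_comm]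
  rw [e, norm_mul, norm_pow]
  exact mul_le_mul_of_nonneg_right (h k) (pow_nonneg (norm_nonneg _) _)

lemma hasDerivAt_S {c : ℕ → ℂ} (h : Small c) (x : ℂ) : HasDerivAt (S c) (S (D c) x) x := by
  set R : ℝ := ‖x‖ + 1 with hR
  have hR0 : 0 < R := by positivity
  have hx : x ∈ Metric.ball (0 : ℂ) R := by
    rw [mem_ball_zero_iff]; linarith
  have hs : Summable fun n : ℕ => (if n = 0 then (0 : ℝ) else R ^ (n - 1) / ((n - 1).factorial : ℝ)) := by
    rw [← summable_nat_add_iff 1]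
    have := Real.summable_pow_div_factorial R
    refine this.congr ?_
    intro n
    simp
  have key := hasDerivAt_tsum_of_isPreconnected (𝕜 := ℂ) (F := ℂ)
    (g := fun n z => c n * z ^ n) (g' := fun n z => c n * (n * z ^ (n - 1)))
    (t := Metric.ball (0 : ℂ) R) (y₀ := x) (y := x) hs Metric.isOpen_ball
    (convex_ball (0 : ℂ) R).isPreconnected
    (fun n y _ => (hasDerivAt_pow n y).const_mul (c n))
    (fun n y hy => by
      rcases Nat.eq_zero_or_pos n with h0 | h0
      · subst h0; simp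
      · rw [if_neg h0.ne']
        obtain ⟨m, rfl⟩ : ∃ m, n = m + 1 := ⟨n - 1, by omega⟩
        rw [mem_ball_zero_iff] at hy
        have h1 := (Small.D h) m
        unfold GF.D at h1
        have e : c (m + 1) * (((m + 1 : ℕ) : ℂ) * y ^ (m + 1 - 1)) = ((m + 1) * c (m + 1)) * y ^ m := by
          rw [Nat.add_sub_cancel]
          push_cast
          ring
        rw [e, norm_mul, norm_pow, Nat.add_sub_cancel, div_eq_mul_inv, mul_comm]
        exact mul_le_mul (pow_le_pow_left₀ (norm_nonneg _) hy.le _) h1 (norm_nonneg _)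
          (by positivity))
    hx (h.summable x) hx
  have e : (∑' n, c n * ((n : ℂ) * x ^ (n - 1))) = S (D c) x := by
    have hsum : Summable fun n : ℕ => c n * ((n : ℂ) * x ^ (n - 1)) := by
      rw [← summable_nat_add_iff 1]
      refine ((Small.D h).summable x).congr ?_
      intro k
      rw [Nat.add_sub_cancel]
      unfold GF.D
      push_cast
      ring
    rw [hsum.tsum_eq_zero_add]
    unfold S GF.D
    simp only [Nat.cast_zero, zero_mul, mul_zero, zero_add, Nat.add_sub_cancel]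
    apply tsum_congr
    intro k
    push_cast
    ring
  rw [← e]
  exact key

/-- the coefficients -/
noncomputable def co (ν : ℝ) : ℕ → ℂ
  | 0 => 1
  | k + 1 => co ν k / ((k + 1) * ((k : ℂ) + ν + 1))

lemma co_small {ν : ℝ} (hν : 0 ≤ ν) : Small (co ν) := by
  intro k
  induction k with
  | zero => simp [co]
  | succ k ih =>
    rw [co, norm_div, norm_mul]
    have h2 : ‖((k : ℂ) + 1)‖ = (k : ℝ) + 1 := by
      have : ((k : ℂ) + 1) = ((k + 1 : ℕ) : ℂ) := by push_cast; ring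
      rw [this, Complex.norm_natCast]; push_cast; ring
    have h3 : ‖((k : ℂ) + ν + 1)‖ = (k : ℝ) + ν + 1 := by
      have : ((k : ℂ) + ν + 1) = (((k : ℝ) + ν + 1 : ℝ) : ℂ) := by push_cast; ring
      rw [this, Complex.norm_real, Real.norm_of_nonneg (by positivity)]
    rw [h2, h3]
    have h4 : ((k + 1).factorial : ℝ) = (k + 1) * k.factorial := by
      rw [Nat.factorial_succ]; push_cast; ring
    rw [h4, mul_inv]
    have hk : (0 : ℝ) < (k : ℝ) + 1 := by positivity
    have hk2 : (1 : ℝ) ≤ (k : ℝ) + ν + 1 := by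
      have : (0 : ℝ) ≤ k := Nat.cast_nonneg k
      linarith
    rw [div_le_iff₀ (by positivity)]
    calc ‖co ν k‖ ≤ (k.factorial : ℝ)⁻¹ := ih
      _ = (((k : ℝ) + 1)⁻¹ * (k.factorial : ℝ)⁻¹) * (((k : ℝ) + 1) * 1) := by field_simp
      _ ≤ (((k : ℝ) + 1)⁻¹ * (k.factorial : ℝ)⁻¹) * (((k : ℝ) + 1) * ((k : ℝ) + ν + 1)) := by
        gcongr

lemma ode {ν : ℝ} (hν : 0 ≤ ν) (x : ℂ) :
    x * S (D (D (co ν))) x + (ν + 1) * S (D (co ν)) x = S (co ν) x := by
  have h0 := co_small hν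
  have h1 := h0.D
  have h2 := h1.D
  have e1 : x * S (D (D (co ν))) x = ∑' k, (D (D (co ν)) k * x ^ (k + 1)) := by
    unfold S
    rw [← tsum_mul_left]
    apply tsum_congr
    intro k
    ring
  have s2 : Summable fun k => D (D (co ν)) k * x ^ (k + 1) := by
    have := (h2.summable x).mul_left x
    refine this.congr ?_
    intro k
    ring
  have e2 : S (D (co ν)) x = D (co ν) 0 + ∑' k, D (co ν) (k + 1) * x ^ (k + 1) := by
    unfold S
    rw [(h1.summable x).tsum_eq_zero_add]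
    simp
  have e3 : S (co ν) x = co ν 0 + ∑' k, co ν (k + 1) * x ^ (k + 1) := by
    unfold S
    rw [(h0.summable x).tsum_eq_zero_add]
    simp
  have s1 : Summable fun k => D (co ν) (k + 1) * x ^ (k + 1) :=
    (summable_nat_add_iff 1).2 (h1.summable x)
  rw [e1, e2, e3, mul_add, ← tsum_mul_left, add_left_comm, ← s2.tsum_add (s1.mul_left _)]
  have hc : ∀ k : ℕ, ((k : ℂ) + 1) * ((k : ℂ) + ν + 1) * co ν (k + 1) = co ν k := by
    intro k
    have a1 : ((k : ℂ) + 1) ≠ 0 := by exact_mod_cast Nat.succ_ne_zero k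
    have a2 : ((k : ℂ) + ν + 1) ≠ 0 := by
      have : ((k : ℂ) + ν + 1) = (((k : ℝ) + ν + 1 : ℝ) : ℂ) := by push_cast; ring
      rw [this]
      have : (0 : ℝ) < (k : ℝ) + ν + 1 := by positivity
      exact_mod_cast this.ne'
    rw [co]
    field_simp
  congr 1
  · have := hc 0
    unfold D
    simp only [Nat.cast_zero, zero_add, one_mul] at this ⊢
    rw [this]
  · apply tsum_congr
    intro k
    rw [← hc (k + 1)]
    unfold D
    push_cast
    ring

end GF

/-- `₀F₁(; ν+1; x)` -/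
noncomputable def G (ν : ℝ) (x : ℂ) : ℂ := GF.S (GF.co ν) x

/-- derivative of `G` -/
noncomputable def G1 (ν : ℝ) (x : ℂ) : ℂ := GF.S (GF.D (GF.co ν)) x

/-- second derivative of `G` -/
noncomputable def G2 (ν : ℝ) (x : ℂ) : ℂ := GF.S (GF.D (GF.D (GF.co ν))) x

lemma G_hasDerivAt {ν : ℝ} (hν : 0 ≤ ν) (x : ℂ) : HasDerivAt (G ν) (G1 ν x) x :=
  GF.hasDerivAt_S (GF.co_small hν) x

lemma G1_hasDerivAt {ν : ℝ} (hν : 0 ≤ ν) (x : ℂ) : HasDerivAt (G1 ν) (G2 ν x) x :=
  GF.hasDerivAt_S (GF.co_small hν).D x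

lemma G2_differentiable {ν : ℝ} (hν : 0 ≤ ν) : Differentiable ℂ (G2 ν) := fun x =>
  (GF.hasDerivAt_S (GF.co_small hν).D.D x).differentiableAt

lemma G_ode {ν : ℝ} (hν : 0 ≤ ν) (x : ℂ) : x * G2 ν x + (ν + 1) * G1 ν x = G ν x :=
  GF.ode hν x

lemma G_zero (ν : ℝ) : G ν 0 = 1 := by
  unfold G GF.S
  rw [tsum_eq_single 0]
  · simp [GF.co]
  · intro k hk
    simp [hk]

end Pool.Agent.TH795.LT
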