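import Pool.Agent.TH795.LT.Eig

set_option autoImplicit false

/-!
# From the logarithmic variable to the radial variable
-/

open MeasureTheory Filter Topology Set

namespace Pool.Agent.TH795.LT

open Pool.Agent.Helper209.AC (IsSol)

/-- gluing of two `C²` functions which agree on an interval -/
lemma glue2 {f f1 f2 g g1 g2 : ℝ → ℂ} {t0 : ℝ} (ht0 : 0 < t0)
    (hf : ∀ t, HasDerivAt f (f1 t) t) (hf1 : ∀ t, HasDerivAt f1 (f2 t) t) (hf2 : Continuous f2)
    (hg : ∀ t, 0 < t → HasDerivAt g (g1 t) t) (hg1 : ∀ t, 0 < t → HasDerivAt g1 (g2 t) t)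
    (hg2 : ContinuousOn g2 (Ioi 0)) (h : ∀ t ∈ Ioo 0 t0, f t = g t) :
    ∃ H H1 H2 : ℝ → ℂ, (∀ t, HasDerivAt H (H1 t) t) ∧ (∀ t, HasDerivAt H1 (H2 t) t) ∧
      Continuous H2 ∧ (∀ t < t0, H t = f t ∧ H1 t = f1 t ∧ H2 t = f2 t) ∧
      (∀ t, 0 < t → H t = g t ∧ H1 t = g1 t ∧ H2 t = g2 t) := by
  have key : ∀ {p q p' q' : ℝ → ℂ}, (∀ t ∈ Ioo 0 t0, p t = q t) → (∀ t, HasDerivAt p (p' t) t) →
      (∀ t, 0 < t → HasDerivAt q (q' t) t) → ∀ t ∈ Ioo 0 t0, p' t = q' t := by
    intro p q p' q' hpq hp hq t ht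
    have h1 : HasDerivAt p (q' t) t := by
      refine (hq t ht.1).congr_of_eventuallyEq ?_
      filter_upwards [Ioo_mem_nhds ht.1 ht.2] with s hs
      exact hpq s hs
    exact (hp t).unique h1
  have e1 := key h hf hg
  have e2 := key e1 hf1 hg1
  have hH : ∀ {p q : ℝ → ℂ}, (∀ t ∈ Ioo 0 t0, p t = q t) →
      (∀ t < t0, (if t ≤ t0 / 2 then p t else q t) = p t) ∧
      (∀ t, 0 < t → (if t ≤ t0 / 2 then p t else q t) = q t) := by
    intro p q hpq
    constructor
    · intro t ht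
      split_ifs with h1
      · rfl
      · exact (hpq t ⟨by linarith [not_le.1 h1], ht⟩).symm
    · intro t ht
      split_ifs with h1
      · exact hpq t ⟨ht, by linarith⟩
      · rfl
  have hD : ∀ {p q p' q' : ℝ → ℂ}, (∀ t ∈ Ioo 0 t0, p t = q t) → (∀ t ∈ Ioo 0 t0, p' t = q' t) →
      (∀ t, HasDerivAt p (p' t) t) → (∀ t, 0 < t → HasDerivAt q (q' t) t) →
      ∀ t, HasDerivAt (fun t => if t ≤ t0 / 2 then p t else q t)
        (if t ≤ t0 / 2 then p' t else q' t) t := by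
    intro p q p' q' hpq hpq' hp hq t
    rcases lt_or_ge t t0 with ht | ht
    · rw [(hH hpq').1 t ht]
      refine (hp t).congr_of_eventuallyEq ?_
      filter_upwards [Iio_mem_nhds ht] with s hs
      exact (hH hpq).1 s hs
    · have ht' : 0 < t := ht0.trans_le ht
      rw [(hH hpq').2 t ht']
      refine (hq t ht').congr_of_eventuallyEq ?_
      filter_upwards [Ioi_mem_nhds ht'] with s hs
      exact (hH hpq).2 s hs
  refine ⟨fun t => if t ≤ t0 / 2 then f t else g t, fun t => if t ≤ t0 / 2 then f1 t else g1 t,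
    fun t => if t ≤ t0 / 2 then f2 t else g2 t, hD h e1 hf hg, hD e1 e2 hf1 hg1, ?_, ?_, ?_⟩
  · rw [continuous_iff_continuousAt]
    intro t
    rcases lt_or_ge t t0 with ht | ht
    · refine (hf2.continuousAt (x := t)).congr ?_
      filter_upwards [Iio_mem_nhds ht] with s hs
      exact ((hH e2).1 s hs).symm
    · have ht' : 0 < t := ht0.trans_le ht
      refine (hg2.continuousAt (Ioi_mem_nhds ht')).congr ?_
      filter_upwards [Ioi_mem_nhds ht'] with s hs
      exact ((hH e2).2 s hs).symm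
  · intro t ht
    exact ⟨(hH h).1 t ht, (hH e1).1 t ht, (hH e2).1 t ht⟩
  · intro t ht
    exact ⟨(hH h).2 t ht, (hH e1).2 t ht, (hH e2).2 t ht⟩

/-- the logarithmic variable as a function of `t = r²` -/
noncomputable def yy (ε R t : ℝ) : ℝ := (Real.log t / 2 - Real.log R) / ε

lemma hasDerivAt_yy {ε R t : ℝ} (hε : 0 < ε) (ht : 0 < t) :
    HasDerivAt (yy ε R) (1 / (2 * ε * t)) t := by
  have h1 := (((Real.hasDerivAt_log ht.ne').div_const 2).sub_const (Real.log R)).div_const ε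
  refine h1.congr_deriv ?_
  field_simp

lemma yy_sq {ε R y : ℝ} (hε : 0 < ε) (hR : 0 < R) : yy ε R ((R * Real.exp (ε * y)) ^ 2) = y := by
  unfold yy
  rw [Real.log_pow, Real.log_mul hR.ne' (Real.exp_pos _).ne', Real.log_exp]
  field_simp
  push_cast
  ring

lemma exp_yy {ε R t : ℝ} (hε : 0 < ε) (hR : 0 < R) (ht : 0 < t) :
    (R * Real.exp (ε * yy ε R t)) = Real.sqrt t ∧ Real.exp (2 * ε * yy ε R t) = t / R ^ 2 := by
  have h1 : Real.exp (2 * ε * yy ε R t) = t / R ^ 2 := by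
    unfold yy
    have : 2 * ε * ((Real.log t / 2 - Real.log R) / ε) = Real.log t - Real.log (R ^ 2) := by
      rw [Real.log_pow]
      field_simp
      push_cast
      ring
    rw [this, Real.exp_sub, Real.exp_log ht, Real.exp_log (by positivity)]
  refine ⟨?_, h1⟩
  symm
  rw [Real.sqrt_eq_iff_mul_self_eq ht.le (by positivity)]
  have h2 : Real.exp (2 * ε * yy ε R t) = Real.exp (ε * yy ε R t) * Real.exp (ε * yy ε R t) := by
    rw [← Real.exp_add]
    ring_nf
  rw [h2] at h1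
  have hR2 : R ^ 2 ≠ 0 := by positivity
  field_simp at h1
  nlinarith

end Pool.Agent.TH795.LT
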