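import Pool.Agent.TH795.LT.KConv

set_option autoImplicit false

/-!
# From the logarithmic variable to the radial variable, II
-/

open MeasureTheory Filter Topology Set

namespace Pool.Agent.TH795.LT

open Pool.Agent.Helper209.AC (IsSol)

lemma hasDerivAt_expN (η y : ℝ) :
    HasDerivAt (fun y : ℝ => (Real.exp (-(η * y)) : ℂ)) (-(η * (Real.exp (-(η * y)) : ℂ))) y := by
  have h := hasDerivAt_expR (-η) y
  have e : (fun y : ℝ => (Real.exp (-η * y) : ℂ)) = fun y : ℝ => (Real.exp (-(η * y)) : ℂ) := by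
    funext y
    rw [neg_mul]
  rw [e] at h
  refine h.congr_deriv ?_
  rw [neg_mul]
  push_cast
  ring

/-- integrability transfer -/
lemma integrableOn_transfer {ε R : ℝ} (hε : 0 < ε) (hR : 0 < R) {F : ℝ → ℝ} (hFc : Continuous F)
    (h : IntegrableOn (fun y => (R * ε * Real.exp (ε * y)) * F (R * Real.exp (ε * y))) (Ioi 0)) :
    IntegrableOn F (Ioi 0) := by
  have h1 : IntegrableOn F (Ioi R) := by
    have himg : (fun y : ℝ => R * Real.exp (ε * y)) '' (Ioi 0) = Ioi R := by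
      ext r
      simp only [mem_image, mem_Ioi]
      constructor
      · rintro ⟨y, hy, rfl⟩
        have : 1 < Real.exp (ε * y) := Real.one_lt_exp_iff.2 (by positivity)
        nlinarith
      · intro hr
        have hr0 : 0 < r := hR.trans hr
        refine ⟨Real.log (r / R) / ε, ?_, ?_⟩
        · apply div_pos _ hε
          apply Real.log_pos
          rw [lt_div_iff₀ hR]
          linarith
        · have e1 : ε * (Real.log (r / R) / ε) = Real.log (r / R) := by field_simp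
          rw [e1, Real.exp_log (by positivity)]
          field_simp
    rw [← himg]
    rw [integrableOn_image_iff_integrableOn_abs_deriv_smul (f' := fun y => R * ε * Real.exp (ε * y))
      measurableSet_Ioi]
    · refine h.congr_fun ?_ measurableSet_Ioi
      intro y _
      simp only [smul_eq_mul]
      rw [abs_of_pos (by positivity)]
    · intro y _
      have e1 : HasDerivAt (fun y : ℝ => ε * y) (ε * 1) y := (hasDerivAt_id y).const_mul ε
      have e2 := (e1.exp.const_mul R)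
      exact (e2.congr_deriv (by ring)).hasDerivWithinAt
    · intro x _ y _ hxy
      have e1 : Real.exp (ε * x) = Real.exp (ε * y) := mul_left_cancel₀ hR.ne' hxy
      have e2 := Real.exp_injective e1
      exact mul_left_cancel₀ hε.ne' e2
  have h2 : IntegrableOn F (Icc 0 R) := hFc.integrableOn_Icc
  refine (h2.union h1).mono_set ?_
  intro r hr
  rcases le_or_gt r R with h3 | h3
  · exact Or.inl ⟨le_of_lt hr, h3⟩
  · exact Or.inr h3

theorem exists_H {d l : ℕ} (hd : 2 ≤ d) {ε R ħ am : ℝ} (hε : 0 < ε) (hR : 0 < R) (hħ : 0 < ħ)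
    (ham : 0 < am) (hrel : am * R ^ 2 * ε ^ 2 = ħ ^ 2) {V : ℝ → ℂ} (hV : Continuous V) {y0 : ℝ}
    (hV0 : ∀ r, 0 ≤ r → r ≤ R * Real.exp (ε * y0) → V r = 0) {z : ℂ} {φ φ' : ℝ → ℂ} {η : ℝ}
    (hη : η = (l + ((d : ℝ) - 2) / 2) * ε)
    (hsol : IsSol (PP ε η (fun y => V (R * Real.exp (ε * y)) / am) z) φ φ')
    (hreg : ∀ y ≤ y0, φ y = reg ε η z y)
    (hi : IntegrableOn (fun y => (1 + Real.exp (2 * ε * y)) * ‖φ y‖ ^ 2) (Ioi 0))
    (hi' : IntegrableOn (fun y => ‖φ' y‖ ^ 2) (Ioi 0)) :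
    ∃ H H1 H2 : ℝ → ℂ, (∀ t, HasDerivAt H (H1 t) t) ∧ (∀ t, HasDerivAt H1 (H2 t) t) ∧
      Continuous H2 ∧ H 0 = 1 ∧
      (∀ r : ℝ, 0 ≤ r → (ħ : ℂ) ^ 2 * (4 * (r : ℂ) ^ 2 * H2 (r ^ 2)
        + (2 * d + 4 * l) * H1 (r ^ 2)) = (V r - am * z) * H (r ^ 2)) ∧
      IntegrableOn (fun r : ℝ => r ^ (2 * l + d - 1) * ‖H (r ^ 2)‖ ^ 2) (Ioi 0) ∧
      IntegrableOn (fun r : ℝ => r ^ (2 * l + d + 1) * ‖H1 (r ^ 2)‖ ^ 2) (Ioi 0) := by
  have hd' : (2 : ℝ) ≤ d := by exact_mod_cast hd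
  obtain ⟨ν, hν⟩ : ∃ ν : ℝ, ν = l + ((d : ℝ) - 2) / 2 := ⟨_, rfl⟩
  have hν0 : 0 ≤ ν := by
    rw [hν]
    have : (0 : ℝ) ≤ l := Nat.cast_nonneg l
    linarith
  have hην : η = ν * ε := by rw [hη, hν]
  have hνe : η / ε = ν := by rw [hην]; field_simp
  have hηc : (η : ℂ) = ν * ε := by rw [hην]; push_cast; ring
  have hεc : (ε : ℂ) ≠ 0 := by exact_mod_cast hε.ne'
  have hRc : (R : ℂ) ≠ 0 := by exact_mod_cast hR.ne'
  have hħc : (ħ : ℂ) ≠ 0 := by exact_mod_cast hħ.ne'
  have hamc : (am : ℂ) ≠ 0 := by exact_mod_cast ham.ne'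
  have hrelc : (am : ℂ) * R ^ 2 * ε ^ 2 = ħ ^ 2 := by exact_mod_cast hrel
  obtain ⟨c, hc⟩ : ∃ c : ℂ, c = -(am * z) / (4 * ħ ^ 2) := ⟨_, rfl⟩
  set P := PP ε η (fun y => V (R * Real.exp (ε * y)) / am) z with hP
  have hPc : Continuous P := by
    apply PP_cont
    have : Continuous fun y : ℝ => R * Real.exp (ε * y) := by fun_prop
    exact (hV.comp this).div_const _
  set t0 : ℝ := (R * Real.exp (ε * y0)) ^ 2 with ht0
  have ht0' : 0 < t0 := by positivity
  set ψ : ℝ → ℂ := fun y => (Real.exp (-(η * y)) : ℂ) * φ y with hψ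
  set ψ1 : ℝ → ℂ := fun y => (Real.exp (-(η * y)) : ℂ) * (φ' y - η * φ y) with hψ1
  set ψ2 : ℝ → ℂ := fun y => (Real.exp (-(η * y)) : ℂ) *
    (P y * φ y - 2 * η * φ' y + η ^ 2 * φ y) with hψ2
  have hψd : ∀ y, HasDerivAt ψ (ψ1 y) y := by
    intro y
    refine ((hasDerivAt_expN η y).mul (hsol y).1).congr_deriv ?_
    simp only [hψ1]
    ring
  have hψ1d : ∀ y, HasDerivAt ψ1 (ψ2 y) y := by
    intro y
    refine ((hasDerivAt_expN η y).mul ((hsol y).2.sub ((hsol y).1.const_mul (η : ℂ)))).congr_deriv ?_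
    simp only [hψ2, Pi.sub_apply]
    ring
  have hφc : Continuous φ := hsol.cont
  have hφ'c : Continuous φ' := hsol.cont'
  set f : ℝ → ℂ := fun t => G ν (c * t) with hf
  set f1 : ℝ → ℂ := fun t => c * G1 ν (c * t) with hf1
  set f2 : ℝ → ℂ := fun t => c ^ 2 * G2 ν (c * t) with hf2
  have hlin : ∀ t : ℝ, HasDerivAt (fun t : ℝ => c * (t : ℂ)) c t := by
    intro t
    have h1 : HasDerivAt (fun t : ℝ => (t : ℂ)) 1 t := Complex.ofRealCLM.hasDerivAt
    have := h1.const_mul c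
    rwa [mul_one] at this
  have hfd : ∀ t, HasDerivAt f (f1 t) t := by
    intro t
    refine ((G_hasDerivAt hν0 (c * t)).comp t (hlin t)).congr_deriv ?_
    simp only [hf1]
    ring
  have hf1d : ∀ t, HasDerivAt f1 (f2 t) t := by
    intro t
    refine (((G1_hasDerivAt hν0 (c * t)).comp t (hlin t)).const_mul c).congr_deriv ?_
    simp only [hf2]
    ring
  have hf2c : Continuous f2 := by
    have h1 := (G2_differentiable hν0).continuous
    have h2 : Continuous fun t : ℝ => c * (t : ℂ) := by fun_prop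
    exact continuous_const.mul (h1.comp h2)
  set g : ℝ → ℂ := fun t => ψ (yy ε R t) with hg
  set g1 : ℝ → ℂ := fun t => ψ1 (yy ε R t) / (2 * ε * t) with hg1
  set g2 : ℝ → ℂ := fun t => ψ2 (yy ε R t) / (2 * ε * t) ^ 2 - ψ1 (yy ε R t) / (2 * ε * t ^ 2) with hg2
  have hgd : ∀ t, 0 < t → HasDerivAt g (g1 t) t := by
    intro t ht
    refine ((hψd (yy ε R t)).scomp t (hasDerivAt_yy hε ht)).congr_deriv ?_
    simp only [hg1, Complex.real_smul]
    push_cast
    ring
  have hg1d : ∀ t, 0 < t → HasDerivAt g1 (g2 t) t := by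
    intro t ht
    have htc : (t : ℂ) ≠ 0 := by exact_mod_cast ht.ne'
    have h1 : HasDerivAt (fun t : ℝ => 2 * (ε : ℂ) * (t : ℂ)) (2 * ε) t := by
      have h1 : HasDerivAt (fun t : ℝ => (t : ℂ)) 1 t := Complex.ofRealCLM.hasDerivAt
      have := h1.const_mul (2 * (ε : ℂ))
      rwa [mul_one] at this
    have h2 : HasDerivAt (fun t => ψ1 (yy ε R t)) ((1 / (2 * ε * t) : ℝ) • ψ2 (yy ε R t)) t :=
      (hψ1d (yy ε R t)).scomp t (hasDerivAt_yy hε ht)
    refine (h2.div h1 (by simp [hεc, htc])).congr_deriv ?_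
    simp only [hg2, Complex.real_smul]
    push_cast
    field_simp
  have hg2c : ContinuousOn g2 (Ioi 0) := by
    have h1 : ContinuousOn (yy ε R) (Ioi 0) := fun t ht =>
      (hasDerivAt_yy hε ht).continuousAt.continuousWithinAt
    have h2 : Continuous ψ1 := continuous_iff_continuousAt.2 fun y => (hψ1d y).continuousAt
    have h3 : Continuous ψ2 := by
      rw [hψ2]
      fun_prop
    have h4 : ContinuousOn (fun t : ℝ => (2 * (ε : ℂ) * (t : ℂ))) (Ioi 0) := by fun_prop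
    have h5 : ContinuousOn (fun t : ℝ => (2 * (ε : ℂ) * (t : ℂ) ^ 2)) (Ioi 0) := by fun_prop
    refine ((h3.comp_continuousOn h1).div (h4.pow 2) ?_).sub ((h2.comp_continuousOn h1).div h5 ?_)
    · intro t ht
      have htc : (t : ℂ) ≠ 0 := by exact_mod_cast (ne_of_gt ht)
      simp [hεc, htc]
    · intro t ht
      have htc : (t : ℂ) ≠ 0 := by exact_mod_cast (ne_of_gt ht)
      simp [hεc, htc]
  have hagree : ∀ t ∈ Ioo 0 t0, f t = g t := by
    intro t ht
    have hy : yy ε R t ≤ y0 := by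
      have h1 : t < (R * Real.exp (ε * y0)) ^ 2 := ht.2
      have h2 : Real.log t < Real.log ((R * Real.exp (ε * y0)) ^ 2) := Real.log_lt_log ht.1 h1
      have h3 := yy_sq (y := y0) hε hR
      rw [← h3]
      unfold yy
      gcongr
    simp only [hf, hg, hψ]
    rw [hreg _ hy]
    unfold reg xx
    rw [hνe, ← mul_assoc, ← Complex.ofReal_mul, ← Real.exp_add]
    have e1 : -(η * yy ε R t) + η * yy ε R t = 0 := by ring
    rw [e1, Real.exp_zero, Complex.ofReal_one, one_mul, (exp_yy hε hR ht.1).2, hc]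
    congr 1
    rw [← hrelc]
    push_cast
    field_simp
  obtain ⟨H, H1, H2, hH, hH1, hH2c, hHf, hHg⟩ := glue2 ht0' hfd hf1d hf2c hgd hg1d hg2c hagree
  have hH0 : H 0 = 1 := by
    rw [(hHf 0 ht0').1]
    simp only [hf]
    rw [Complex.ofReal_zero, mul_zero, G_zero]
  have hHc : Continuous H := continuous_iff_continuousAt.2 fun t => (hH t).continuousAt
  have hH1c : Continuous H1 := continuous_iff_continuousAt.2 fun t => (hH1 t).continuousAt
  have hcoef : (2 * (d : ℂ) + 4 * l) = 4 * (ν + 1) := by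
    rw [hν]
    push_cast
    ring
  refine ⟨H, H1, H2, hH, hH1, hH2c, hH0, ?_, ?_, ?_⟩
  · intro r hr
    rcases hr.eq_or_lt with hr0 | hr0
    · subst hr0
      have e0 : (0 : ℝ) ^ 2 = 0 := by norm_num
      rw [e0, (hHf 0 ht0').1, (hHf 0 ht0').2.1, (hHf 0 ht0').2.2, hcoef,
        hV0 0 le_rfl (by positivity)]
      simp only [hf, hf1, hf2]
      have h1 := G_ode hν0 0
      rw [Complex.ofReal_zero, mul_zero, ← h1, hc]
      field_simp
      ring
    · have hr2 : 0 < r ^ 2 := by positivity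
      rw [(hHg _ hr2).1, (hHg _ hr2).2.1, (hHg _ hr2).2.2, hcoef]
      simp only [hg, hg1, hg2, hψ, hψ1, hψ2]
      set y := yy ε R (r ^ 2) with hy
      have e1 : R * Real.exp (ε * y) = r := by
        rw [(exp_yy hε hR hr2).1, Real.sqrt_sq hr]
      have e2 : Real.exp (2 * ε * y) = r ^ 2 / R ^ 2 := (exp_yy hε hR hr2).2
      have e3 : P y = (η : ℂ) ^ 2 + ((r ^ 2 / R ^ 2 : ℝ) : ℂ) * (V r / am - z) := by
        rw [hP]
        unfold PP
        rw [e2]
        simp only [e1]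
      rw [e3]
      have hrc : (r : ℂ) ≠ 0 := by exact_mod_cast hr0.ne'
      have e4 : (V r - am * z) = am * (V r / am - z) := by field_simp
      rw [e4, ← hrelc, hηc]
      push_cast
      field_simp
      ring
  · apply integrableOn_transfer hε hR (by fun_prop)
    have hC : IntegrableOn (fun y => (R ^ (2 * l + d) * ε) *
        ((1 + Real.exp (2 * ε * y)) * ‖φ y‖ ^ 2)) (Ioi 0) := hi.const_mul _
    refine Integrable.mono' hC ?_ ?_
    · apply Continuous.aestronglyMeasurable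
      fun_prop
    · refine Filter.Eventually.of_forall (fun y => ?_)
      have hpos : 0 < (R * Real.exp (ε * y)) ^ 2 := by positivity
      rw [(hHg _ hpos).1]
      simp only [hg, hψ]
      rw [yy_sq hε hR, Real.norm_eq_abs, abs_of_nonneg (by positivity), norm_mul,
        Complex.norm_real, Real.norm_of_nonneg (Real.exp_pos _).le]
      have e1 : (R * ε * Real.exp (ε * y)) * ((R * Real.exp (ε * y)) ^ (2 * l + d - 1) *
          (Real.exp (-(η * y)) * ‖φ y‖) ^ 2) = (R ^ (2 * l + d) * ε) *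
            ((Real.exp (ε * y) ^ (2 * l + d) * Real.exp (-(η * y)) ^ 2) * ‖φ y‖ ^ 2) := by
        obtain ⟨n, hn⟩ : ∃ n, 2 * l + d = n + 1 := ⟨2 * l + d - 1, by omega⟩
        rw [hn, Nat.add_sub_cancel]
        ring
      have e2 : Real.exp (ε * y) ^ (2 * l + d) * Real.exp (-(η * y)) ^ 2 = Real.exp (2 * ε * y) := by
        rw [← Real.exp_nat_mul, ← Real.exp_nat_mul, ← Real.exp_add]
        congr 1
        rw [hην, hν]
        push_cast
        ring
      rw [e1, e2]
      have h2 : 0 ≤ ‖φ y‖ ^ 2 := by positivity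
      have h3 : 0 ≤ R ^ (2 * l + d) * ε := by positivity
      apply mul_le_mul_of_nonneg_left _ h3
      nlinarith
  · apply integrableOn_transfer hε hR (by fun_prop)
    have hC : IntegrableOn (fun y => (R ^ (2 * l + d - 2) / (2 * ε)) *
        (‖φ' y‖ ^ 2 + η ^ 2 * ((1 + Real.exp (2 * ε * y)) * ‖φ y‖ ^ 2))) (Ioi 0) :=
      (hi'.add (hi.const_mul _)).const_mul _
    refine Integrable.mono' hC ?_ ?_
    · apply Continuous.aestronglyMeasurable
      fun_prop
    · refine Filter.Eventually.of_forall (fun y => ?_)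
      have hpos : 0 < (R * Real.exp (ε * y)) ^ 2 := by positivity
      rw [(hHg _ hpos).2.1]
      simp only [hg1, hψ1]
      rw [yy_sq hε hR, Real.norm_eq_abs, abs_of_nonneg (by positivity), norm_div, norm_mul,
        Complex.norm_real, Real.norm_of_nonneg (Real.exp_pos _).le]
      have e0 : ‖(2 * (ε : ℂ) * (((R * Real.exp (ε * y)) ^ 2 : ℝ) : ℂ))‖ =
          2 * ε * (R * Real.exp (ε * y)) ^ 2 := by
        rw [norm_mul, norm_mul, Complex.norm_real, Complex.norm_real, Complex.norm_ofNat,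
          Real.norm_of_nonneg hε.le, Real.norm_of_nonneg hpos.le]
      rw [e0]
      have e1 : (R * ε * Real.exp (ε * y)) * ((R * Real.exp (ε * y)) ^ (2 * l + d + 1) *
          (Real.exp (-(η * y)) * ‖φ' y - η * φ y‖ / (2 * ε * (R * Real.exp (ε * y)) ^ 2)) ^ 2) =
          (R ^ (2 * l + d - 2) / (4 * ε)) *
            ((Real.exp (ε * y) ^ (2 * l + d - 2) * Real.exp (-(η * y)) ^ 2) *
              ‖φ' y - η * φ y‖ ^ 2) := by
        obtain ⟨n, hn⟩ : ∃ n, 2 * l + d = n + 2 := ⟨2 * l + d - 2, by omega⟩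
        rw [hn, Nat.add_sub_cancel]
        have := (Real.exp_pos (ε * y)).ne'
        field_simp
        ring
      have e2 : Real.exp (ε * y) ^ (2 * l + d - 2) * Real.exp (-(η * y)) ^ 2 = 1 := by
        obtain ⟨n, hn⟩ : ∃ n, 2 * l + d = n + 2 := ⟨2 * l + d - 2, by omega⟩
        rw [hn, Nat.add_sub_cancel, ← Real.exp_nat_mul, ← Real.exp_nat_mul, ← Real.exp_add]
        rw [← Real.exp_zero]
        congr 1
        have hn' : (2 * (l : ℝ) + d) = n + 2 := by exact_mod_cast hn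
        rw [hην, hν]
        have : (n : ℝ) = 2 * l + d - 2 := by linarith
        rw [this]
        push_cast
        ring
      rw [e1, e2, one_mul]
      have h3 : ‖φ' y - η * φ y‖ ^ 2 ≤ 2 * (‖φ' y‖ ^ 2 + η ^ 2 * ‖φ y‖ ^ 2) := by
        have h4 : ‖φ' y - η * φ y‖ ≤ ‖φ' y‖ + |η| * ‖φ y‖ := by
          refine (norm_sub_le _ _).trans (le_of_eq ?_)
          rw [norm_mul, Complex.norm_real, Real.norm_eq_abs]
        have h5 : ‖φ' y - η * φ y‖ ^ 2 ≤ (‖φ' y‖ + |η| * ‖φ y‖) ^ 2 :=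
          pow_le_pow_left₀ (norm_nonneg _) h4 2
        have h6 : η ^ 2 = |η| ^ 2 := (sq_abs η).symm
        rw [h6]
        nlinarith [sq_nonneg (‖φ' y‖ - |η| * ‖φ y‖)]
      have h7 : ‖φ y‖ ^ 2 ≤ (1 + Real.exp (2 * ε * y)) * ‖φ y‖ ^ 2 := by
        have h8 : 0 ≤ ‖φ y‖ ^ 2 := by positivity
        have h9 := Real.exp_pos (2 * ε * y)
        nlinarith
      have h10 : η ^ 2 * ‖φ y‖ ^ 2 ≤ η ^ 2 * ((1 + Real.exp (2 * ε * y)) * ‖φ y‖ ^ 2) :=
        mul_le_mul_of_nonneg_left h7 (by positivity)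
      have h11 : R ^ (2 * l + d - 2) / (4 * ε) * ‖φ' y - η * φ y‖ ^ 2 ≤
          R ^ (2 * l + d - 2) / (4 * ε) * (2 * (‖φ' y‖ ^ 2 +
            η ^ 2 * ((1 + Real.exp (2 * ε * y)) * ‖φ y‖ ^ 2))) := by
        apply mul_le_mul_of_nonneg_left _ (by positivity)
        linarith
      refine h11.trans (le_of_eq ?_)
      field_simp
      ring

end Pool.Agent.TH795.LT
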