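import Pool.Agent.TH795.LT.Match
import Pool.Agent.TH795.LT.Defs

set_option autoImplicit false

/-!
# The limit problem
-/

open MeasureTheory Filter Topology Set

namespace Pool.Agent.TH795.LT

open Pool.Agent.Helper209.AC (IsSol)

lemma cpow_half_sq (x : ℂ) : (x ^ (1 / 2 : ℂ)) ^ 2 = x := by
  rw [one_div]
  exact Complex.cpow_nat_inv_pow x (n := 2) two_ne_zero

lemma kap_sq (ζ : ℂ) : kap ζ ^ 2 = -ζ := cpow_half_sq _

lemma qq_sq (ζ : ℂ) : qq ζ ^ 2 = ζ - Complex.I := cpow_half_sq _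

lemma kap_re_im {ζ : ℂ} (h : 0 < ζ.im) : 0 < (kap ζ).re ∧ (kap ζ).im < 0 := by
  have h0 : -ζ ≠ 0 := by
    intro h1
    have : ζ = 0 := neg_eq_zero.1 h1
    rw [this] at h
    simp at h
  have harg1 : Complex.arg (-ζ) < 0 := Complex.arg_neg_iff.2 (by simpa using h)
  have harg2 : -Real.pi < Complex.arg (-ζ) := Complex.neg_pi_lt_arg _
  unfold kap
  rw [Complex.cpow_def_of_ne_zero h0]
  have e1 : (Complex.log (-ζ) * (1 / 2)).re = Real.log ‖-ζ‖ / 2 := by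
    have : Complex.log (-ζ) * (1 / 2) = Complex.log (-ζ) * ((1 / 2 : ℝ) : ℂ) := by push_cast; ring
    rw [this, Complex.re_mul_ofReal, Complex.log_re]
    ring
  have e2 : (Complex.log (-ζ) * (1 / 2)).im = Complex.arg (-ζ) / 2 := by
    have : Complex.log (-ζ) * (1 / 2) = Complex.log (-ζ) * ((1 / 2 : ℝ) : ℂ) := by push_cast; ring
    rw [this, Complex.im_mul_ofReal, Complex.log_im]
    ring
  constructor
  · rw [Complex.exp_re, e2]
    apply mul_pos (Real.exp_pos _)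
    apply Real.cos_pos_of_mem_Ioo
    constructor <;> linarith
  · rw [Complex.exp_im, e2]
    apply mul_neg_of_pos_of_neg (Real.exp_pos _)
    apply Real.sin_neg_of_neg_of_neg_pi_lt
    · linarith
    · linarith

lemma qq_ne {ζ : ℂ} (h : 0 < ζ.re) : qq ζ ≠ 0 := by
  intro h0
  have := qq_sq ζ
  rw [h0] at this
  have h1 : ζ = Complex.I := by
    have : ζ - Complex.I = 0 := by rw [← this]; ring
    exact sub_eq_zero.1 this
  rw [h1] at h
  simp at h

lemma kap_contAt {ζ : ℂ} (h : 0 < ζ.im) : ContinuousAt kap ζ := by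
  unfold kap
  apply ContinuousAt.cpow (continuous_neg.continuousAt) continuousAt_const
  right
  simpa using h.ne'

lemma qq_contAt {ζ : ℂ} (h : 0 < ζ.re) : ContinuousAt qq ζ := by
  unfold qq
  apply ContinuousAt.cpow (by fun_prop) continuousAt_const
  left
  simpa using h

lemma Finf_contAt {a : ℝ} {ζ : ℂ} (h : 0 < ζ.im) (h' : 0 < ζ.re) : ContinuousAt (Finf a) ζ := by
  have h1 := kap_contAt h
  have h2 := qq_contAt h'
  have h3 := qq_ne h'
  unfold Finf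
  have h4 : ContinuousAt (fun ζ => 2 * qq ζ * (a : ℂ)) ζ :=
    (continuousAt_const.mul h2).mul continuousAt_const
  have h5 : ContinuousAt (fun ζ => Complex.cos (2 * qq ζ * (a : ℂ))) ζ :=
    Complex.continuous_cos.continuousAt.comp h4
  have h6 : ContinuousAt (fun ζ => Complex.sin (2 * qq ζ * (a : ℂ))) ζ :=
    Complex.continuous_sin.continuousAt.comp h4
  exact ((continuousAt_const.mul h1).mul h5).add
    ((((h1.pow 2).div h2 h3).sub h2).mul h6)

/-- decaying solution of the limit problem to the right, at `y ≤ a` -/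
noncomputable def vi (a : ℝ) (ζ : ℂ) (y : ℝ) : ℂ :=
  Complex.cos (qq ζ * ((y - a : ℝ) : ℂ)) - kap ζ / qq ζ * Complex.sin (qq ζ * ((y - a : ℝ) : ℂ))

/-- derivative of `vi` -/
noncomputable def vi' (a : ℝ) (ζ : ℂ) (y : ℝ) : ℂ :=
  -(qq ζ * Complex.sin (qq ζ * ((y - a : ℝ) : ℂ))) - kap ζ * Complex.cos (qq ζ * ((y - a : ℝ) : ℂ))

lemma vi_sol {a : ℝ} {ζ : ℂ} (h : 0 < ζ.re) :
    IsSol (fun _ => Complex.I - ζ) (vi a ζ) (vi' a ζ) := by
  have hq := qq_ne h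
  have hq2 := qq_sq ζ
  intro y
  have h0 : HasDerivAt (fun y : ℝ => qq ζ * ((y - a : ℝ) : ℂ)) (qq ζ * 1) y := by
    apply HasDerivAt.const_mul
    exact ((hasDerivAt_id y).sub_const a).ofReal_comp
  rw [mul_one] at h0
  have hc : HasDerivAt (fun y : ℝ => Complex.cos (qq ζ * ((y - a : ℝ) : ℂ)))
      (-Complex.sin (qq ζ * ((y - a : ℝ) : ℂ)) * qq ζ) y :=
    (Complex.hasDerivAt_cos _).comp y h0
  have hs : HasDerivAt (fun y : ℝ => Complex.sin (qq ζ * ((y - a : ℝ) : ℂ)))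
      (Complex.cos (qq ζ * ((y - a : ℝ) : ℂ)) * qq ζ) y :=
    (Complex.hasDerivAt_sin _).comp y h0
  constructor
  · refine (hc.sub (hs.const_mul (kap ζ / qq ζ))).congr_deriv ?_
    unfold vi'
    field_simp
  · refine (((hs.const_mul (qq ζ)).neg).sub (hc.const_mul (kap ζ))).congr_deriv ?_
    unfold vi
    have e : Complex.I - ζ = -(qq ζ) ^ 2 := by rw [hq2]; ring
    rw [e]
    field_simp
    ring

lemma vi_a (a : ℝ) (ζ : ℂ) : vi a ζ a = 1 ∧ vi' a ζ a = -kap ζ := by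
  constructor
  · unfold vi
    simp
  · unfold vi'
    simp

lemma vi_Finf {a : ℝ} {ζ : ℂ} (h : 0 < ζ.re) :
    kap ζ * vi a ζ (-a) - vi' a ζ (-a) = Finf a ζ := by
  have hq := qq_ne h
  unfold vi vi' Finf
  have e : qq ζ * ((-a - a : ℝ) : ℂ) = -(2 * qq ζ * a) := by push_cast; ring
  rw [e, Complex.cos_neg, Complex.sin_neg]
  field_simp
  ring

/-- window lemma for solutions -/
lemma window_sol {P φ φ' : ℝ → ℂ} {κ ω : ℂ} {x1 x2 t δ : ℝ} (hx : x1 ≤ x2) (h : IsSol P φ φ')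
    (hpos : ∀ y ∈ Icc x1 x2, 0 ≤ en ω φ φ' y ∧ φ y ≠ 0)
    (ht : 0 < t) (hωκ : t ≤ (ω * κ).re) (hω : ‖ω‖ ≤ 2) (hκ : 0 < κ.re)
    (hδ : ∀ y ∈ Icc x1 x2, ‖P y - κ ^ 2‖ ≤ δ) :
    mm φ φ' x2 + κ ≠ 0 ∧ ‖(mm φ φ' x2 - κ) / (mm φ φ' x2 + κ)‖ ≤
      (1 + 4 * ‖κ‖ / t) * Real.exp (-(2 * κ.re * (x2 - x1)))
      + δ * (2 + 4 * ‖κ‖ / t) ^ 2 / (4 * ‖κ‖ * κ.re) := by
  have hre : ∀ y ∈ Icc x1 x2, 0 ≤ (ω * mm φ φ' y).re := by
    intro y hy
    rw [re_mm (hpos y hy).2]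
    exact div_nonneg (hpos y hy).1 (by positivity)
  constructor
  · intro h0
    have h1 := hre x2 ⟨hx, le_rfl⟩
    have h2 : mm φ φ' x2 = -κ := eq_neg_of_add_eq_zero_left h0
    rw [h2, mul_neg, Complex.neg_re] at h1
    linarith
  · exact window hx (fun y hy => hasDerivAt_mm h (hpos y hy).2) hre ht hωκ hω hκ hδ

end Pool.Agent.TH795.LT
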