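import Pool.Agent.TH795.LT.Reg

set_option autoImplicit false

/-!
# Matching
-/

open MeasureTheory Filter Topology Set

namespace Pool.Agent.TH795.LT

open Pool.Agent.Helper209.AC (IsSol)

lemma growth_norm {V φ φ' : ℝ → ℂ} (h : IsSol V φ φ') {x1 x2 y K : ℝ} (hy : y ∈ Icc x1 x2)
    (hK : ∀ s ∈ Icc x1 x2, ‖V s‖ ≤ K) (hK0 : 0 ≤ K) {m : ℝ} (hm0 : 0 ≤ m)
    (hm : ‖φ x1‖ ^ 2 + ‖φ' x1‖ ^ 2 ≤ m ^ 2) :
    ‖φ y‖ ≤ m * Real.exp ((1 + K) * (x2 - x1)) := by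
  have h1 := h.growth (X := x1) (x := y) (K := K) hy.1 (fun s hs => hK s ⟨hs.1, hs.2.trans hy.2⟩)
  unfold Pool.Agent.Helper209.AC.en at h1
  have h2 : ‖φ y‖ ^ 2 ≤ (m * Real.exp ((1 + K) * (x2 - x1))) ^ 2 := by
    calc ‖φ y‖ ^ 2 ≤ ‖φ y‖ ^ 2 + ‖φ' y‖ ^ 2 := by
          have := sq_nonneg ‖φ' y‖
          linarith
      _ ≤ (‖φ x1‖ ^ 2 + ‖φ' x1‖ ^ 2) * Real.exp ((1 + K) * (y - x1)) := h1
      _ ≤ m ^ 2 * Real.exp ((1 + K) * (x2 - x1)) := by
          apply mul_le_mul hm _ (Real.exp_pos _).le (by positivity)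
          apply Real.exp_le_exp.2
          apply mul_le_mul_of_nonneg_left _ (by linarith)
          linarith [hy.2]
      _ ≤ m ^ 2 * Real.exp ((1 + K) * (x2 - x1)) ^ 2 := by
          apply mul_le_mul_of_nonneg_left _ (by positivity)
          have h3 : 1 ≤ Real.exp ((1 + K) * (x2 - x1)) := by
            apply Real.one_le_exp
            apply mul_nonneg (by linarith)
            linarith [hy.1, hy.2]
          nlinarith
      _ = _ := by ring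
  exact abs_le_of_sq_le_sq' h2 (by positivity) |>.2

/-- backward version -/
lemma growth_norm_rev {V φ φ' : ℝ → ℂ} (h : IsSol V φ φ') {x1 x2 y K : ℝ} (hy : y ∈ Icc x1 x2)
    (hK : ∀ s ∈ Icc x1 x2, ‖V s‖ ≤ K) (hK0 : 0 ≤ K) {m : ℝ} (hm0 : 0 ≤ m)
    (hm : ‖φ x2‖ ^ 2 + ‖φ' x2‖ ^ 2 ≤ m ^ 2) :
    ‖φ y‖ ≤ m * Real.exp ((1 + K) * (x2 - x1)) := by
  have h1 := growth_norm h.reflect (x1 := -x2) (x2 := -x1) (y := -y) (K := K)
    ⟨by linarith [hy.2], by linarith [hy.1]⟩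
    (fun s hs => hK (-s) ⟨by linarith [hs.2], by linarith [hs.1]⟩) hK0 hm0 (by simpa using hm)
  simp only [neg_neg] at h1
  have e : -x1 - -x2 = x2 - x1 := by ring
  rw [e] at h1
  exact h1

/-- The matching identity and estimate. -/
theorem match_est {P Q φ φ' χ χ' v v' : ℝ → ℂ} {κ : ℂ} {a m Cu Cv I : ℝ} (ha : 0 < a)
    (hP : Continuous P) (hQ : Continuous Q)
    (h1 : IsSol P φ φ') (h2 : IsSol P χ χ') (h3 : IsSol Q v v')
    (hva : v a = 1) (hva' : v' a = -κ) (hφ : φ (-a) ≠ 0) (hχ : χ a ≠ 0)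
    (hL : ‖mm φ φ' (-a) - κ‖ ≤ m) (hR : ‖mm χ χ' a + κ‖ ≤ m)
    (hCu : ∀ y ∈ Icc (-a) a, ‖φ y / φ (-a)‖ ≤ Cu) (hCv : ∀ y ∈ Icc (-a) a, ‖v y‖ ≤ Cv)
    (hI : ∫ y in (-a)..a, ‖P y - Q y‖ ≤ I) (y0 : ℝ) :
    ‖(φ' y0 * χ y0 - φ y0 * χ' y0) / (φ (-a) * χ a) - (κ * v (-a) - v' (-a))‖
      ≤ m * Cv + m * Cu + Cu * Cv * I := by
  have haa : -a ≤ a := by linarith
  have hCu0 : 0 ≤ Cu := (norm_nonneg _).trans (hCu (-a) ⟨le_rfl, haa⟩)
  have hCv0 : 0 ≤ Cv := (norm_nonneg _).trans (hCv (-a) ⟨le_rfl, haa⟩)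
  have hm0 : 0 ≤ m := (norm_nonneg _).trans hL
  have hW := h1.wronsk h2 y0 a
  have hW' : φ' y0 * χ y0 - φ y0 * χ' y0 = φ' a * χ a - φ a * χ' a := by
    linear_combination -hW
  set u : ℝ → ℂ := fun y => φ y / φ (-a) with hu
  set u' : ℝ → ℂ := fun y => φ' y / φ (-a) with hu'
  have hus : IsSol P u u' := by
    have := h1.smul (φ (-a))⁻¹
    intro y
    have h := this y
    constructor
    · have h5 := h.1
      simp only [hu, hu', div_eq_inv_mul]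
      exact h5
    · have h5 := h.2
      simp only [hu, hu', div_eq_inv_mul]
      exact h5
  have hu1 : u (-a) = 1 := div_self hφ
  have hu1' : u' (-a) = mm φ φ' (-a) := rfl
  have hF : (φ' y0 * χ y0 - φ y0 * χ' y0) / (φ (-a) * χ a) = u' a - mm χ χ' a * u a := by
    rw [hW']
    simp only [hu, hu', mm]
    field_simp
  -- Wronskian with v
  have hd : ∀ y, HasDerivAt (fun y => u' y * v y - u y * v' y) ((P y - Q y) * u y * v y) y := by
    intro y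
    exact (((hus y).2.mul (h3 y).1).sub ((hus y).1.mul (h3 y).2)).congr_deriv (by ring)
  have huc : Continuous u := hus.cont
  have hvc : Continuous v := h3.cont
  have hint : ∫ y in (-a)..a, (P y - Q y) * u y * v y =
      (u' a * v a - u a * v' a) - (u' (-a) * v (-a) - u (-a) * v' (-a)) := by
    apply intervalIntegral.integral_eq_sub_of_hasDerivAt (fun y _ => hd y)
    exact (((hP.sub hQ).mul huc).mul hvc).intervalIntegrable _ _
  rw [hva, hva', hu1, hu1'] at hint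
  have hid : (φ' y0 * χ y0 - φ y0 * χ' y0) / (φ (-a) * χ a) - (κ * v (-a) - v' (-a)) =
      (mm φ φ' (-a) - κ) * v (-a) - (mm χ χ' a + κ) * u a +
        ∫ y in (-a)..a, (P y - Q y) * u y * v y := by
    rw [hF, hint]
    ring
  rw [hid]
  have b1 : ‖(mm φ φ' (-a) - κ) * v (-a)‖ ≤ m * Cv := by
    rw [norm_mul]
    exact mul_le_mul hL (hCv _ ⟨le_rfl, haa⟩) (norm_nonneg _) hm0
  have b2 : ‖(mm χ χ' a + κ) * u a‖ ≤ m * Cu := by
    rw [norm_mul]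
    exact mul_le_mul hR (hCu _ ⟨haa, le_rfl⟩) (norm_nonneg _) hm0
  have b3 : ‖∫ y in (-a)..a, (P y - Q y) * u y * v y‖ ≤ Cu * Cv * I := by
    have c1 : ‖∫ y in (-a)..a, (P y - Q y) * u y * v y‖ ≤
        ∫ y in (-a)..a, Cu * Cv * ‖P y - Q y‖ := by
      apply intervalIntegral.norm_integral_le_of_norm_le haa
      · refine Filter.Eventually.of_forall (fun y hy => ?_)
        have hy' : y ∈ Icc (-a) a := ⟨hy.1.le, hy.2⟩
        rw [norm_mul, norm_mul]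
        have := mul_le_mul (hCu y hy') (hCv y hy') (norm_nonneg _) hCu0
        calc ‖P y - Q y‖ * ‖u y‖ * ‖v y‖ = (‖u y‖ * ‖v y‖) * ‖P y - Q y‖ := by ring
          _ ≤ (Cu * Cv) * ‖P y - Q y‖ := mul_le_mul_of_nonneg_right this (norm_nonneg _)
      · exact (((hP.sub hQ).norm).const_mul _).intervalIntegrable _ _
    rw [intervalIntegral.integral_const_mul] at c1
    exact c1.trans (mul_le_mul_of_nonneg_left hI (by positivity))
  calc ‖(mm φ φ' (-a) - κ) * v (-a) - (mm χ χ' a + κ) * u a +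
        ∫ y in (-a)..a, (P y - Q y) * u y * v y‖
      ≤ ‖(mm φ φ' (-a) - κ) * v (-a) - (mm χ χ' a + κ) * u a‖ +
        ‖∫ y in (-a)..a, (P y - Q y) * u y * v y‖ := norm_add_le _ _
    _ ≤ (‖(mm φ φ' (-a) - κ) * v (-a)‖ + ‖(mm χ χ' a + κ) * u a‖) +
        ‖∫ y in (-a)..a, (P y - Q y) * u y * v y‖ := by
        gcongr
        exact norm_sub_le _ _
    _ ≤ _ := by linarith

/-- From the Moebius variable back to the Riccati variable. -/
lemma from_R {M κ : ℂ} {δ : ℝ} (hM : M + κ ≠ 0) (hδ : δ ≤ 1 / 2)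
    (h : ‖(M - κ) / (M + κ)‖ ≤ δ) : ‖M - κ‖ ≤ 4 * ‖κ‖ * δ := by
  set R := (M - κ) / (M + κ) with hR
  have h1 : (M - κ) * (1 - R) = 2 * κ * R := by
    rw [hR]
    field_simp
    ring
  have h2 : (1 : ℝ) / 2 ≤ ‖1 - R‖ := by
    have h3 : ‖(1 : ℂ)‖ - ‖R‖ ≤ ‖1 - R‖ := norm_sub_norm_le _ _
    rw [norm_one] at h3
    linarith
  have h4 : ‖M - κ‖ * ‖1 - R‖ = 2 * ‖κ‖ * ‖R‖ := by
    rw [← norm_mul, h1, norm_mul, norm_mul]
    simp
  have h5 : ‖M - κ‖ * (1 / 2) ≤ ‖M - κ‖ * ‖1 - R‖ :=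
    mul_le_mul_of_nonneg_left h2 (norm_nonneg _)
  have h6 : 2 * ‖κ‖ * ‖R‖ ≤ 2 * ‖κ‖ * δ := mul_le_mul_of_nonneg_left h (by positivity)
  linarith

/-- zero existence by the maximum principle -/
theorem exists_zero_of_close {F F0 : ℂ → ℂ} {c : ℂ} {r m : ℝ} (hr : 0 < r) (hm : 0 < m)
    (hF : ∀ z ∈ Metric.closedBall c r, DifferentiableAt ℂ F z)
    (h1 : ∀ z ∈ Metric.sphere c r, 2 * m ≤ ‖F0 z‖) (h0 : F0 c = 0)
    (hcl : ∀ z ∈ Metric.closedBall c r, ‖F z - F0 z‖ ≤ m / 2) :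
    ∃ z ∈ Metric.closedBall c r, F z = 0 := by
  by_contra hcon
  push Not at hcon
  have hd : DiffContOnCl ℂ (fun z => (F z)⁻¹) (Metric.ball c r) := by
    apply DifferentiableOn.diffContOnCl
    rw [closure_ball c hr.ne']
    intro z hz
    exact ((hF z hz).inv (hcon z hz)).differentiableWithinAt
  have h2 : ∀ z ∈ frontier (Metric.ball c r), ‖(F z)⁻¹‖ ≤ (3 * m / 2)⁻¹ := by
    intro z hz
    rw [frontier_ball c hr.ne'] at hz
    rw [norm_inv]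
    apply inv_anti₀ (by positivity)
    have a1 := h1 z hz
    have a2 := hcl z (Metric.sphere_subset_closedBall hz)
    have a3 : ‖F0 z‖ - ‖F z‖ ≤ ‖F z - F0 z‖ := by
      rw [norm_sub_rev]
      exact norm_sub_norm_le _ _
    linarith
  have h3 := Complex.norm_le_of_forall_mem_frontier_norm_le Metric.isBounded_ball hd h2
    (z := c) (subset_closure (Metric.mem_ball_self hr))
  have h4 := hcl c (Metric.mem_closedBall_self hr.le)
  rw [h0, sub_zero] at h4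
  have h5 : F c ≠ 0 := hcon c (Metric.mem_closedBall_self hr.le)
  have h6 : 0 < ‖F c‖ := norm_pos_iff.2 h5
  rw [norm_inv] at h3
  have h7 : (m / 2)⁻¹ ≤ ‖F c‖⁻¹ := inv_anti₀ h6 h4
  have h8 : (m / 2)⁻¹ ≤ (3 * m / 2)⁻¹ := h7.trans h3
  rw [inv_le_inv₀ (by positivity) (by positivity)] at h8
  linarith

end Pool.Agent.TH795.LT
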