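import Pool.Agent.Helper209.AC.ODE
import Pool.Agent.Helper209.AC.ParamODE

set_option autoImplicit false

/-!
# Linear ODE `ψ'' = (A + z B) ψ` with holomorphic dependence on parameters
-/

namespace Pool.Agent.TH795.LT

open MeasureTheory Set
open Pool.Agent.Helper209.AC (IsSol)

namespace LinOde

open Pool.Agent.Helper209.AC.ParamODE.LinOde

theorem exists_QC (q : ℝ → ℂ) (hq : Continuous q) (X L : ℝ) (hL : 0 ≤ L) :
    ∃ Q : EB, ∀ y, Q y = q (cl X L y) := by
  obtain ⟨C, hC⟩ := (isCompact_Icc (a := X - L) (b := X + L)).exists_bound_of_continuousOn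
    hq.continuousOn
  refine ⟨BoundedContinuousFunction.ofNormedAddCommGroup (fun y => q (cl X L y)) ?_ C ?_,
    fun y => rfl⟩
  · have := cl_cont X L
    fun_prop
  · intro y
    apply hC
    have := cl_abs (X := X) hL y
    rw [abs_le] at this
    constructor <;> linarith

/-- main lemma on `[X - L, X + L]` -/
theorem exists_psi (A B : ℝ → ℂ) (hA : Continuous A) (hB : Continuous B) (X L : ℝ) (hL : 0 ≤ L) :
    ∃ P : ℂ × (ℂ × ℂ) → EB, Differentiable ℂ P ∧
      Differentiable ℂ (fun z => Jop X L hL (mop ((exists_QC A hA X L hL).choose +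
        z.1 • (exists_QC B hB X L hL).choose) (P z))) ∧
      (∀ z x, |x - X| ≤ L → P z x = z.2.1 + z.2.2 * (x - X) +
        ∫ s in X..x, ∫ t in X..s, (A t + z.1 * B t) * P z t) ∧
      (∀ z (G : ℝ → ℂ), Continuous G → (∀ x, |x - X| ≤ L → G x = z.2.1 + z.2.2 * (x - X) +
        ∫ s in X..x, ∫ t in X..s, (A t + z.1 * B t) * G t) → ∀ x, |x - X| ≤ L → G x = P z x) := by
  set QA := (exists_QC A hA X L hL).choose with hQAdef
  have hQA : ∀ y, QA y = A (cl X L y) := (exists_QC A hA X L hL).choose_spec
  set QB := (exists_QC B hB X L hL).choose with hQBdef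
  have hQB : ∀ y, QB y = B (cl X L y) := (exists_QC B hB X L hL).choose_spec
  obtain ⟨I, hI⟩ := exists_I X L hL
  set J := Jop X L hL with hJ
  let g : ℂ × (ℂ × ℂ) → EB := fun z => QA + z.1 • QB
  let v : ℂ × (ℂ × ℂ) → EB := fun z => z.2.1 • (1 : EB) + z.2.2 • I
  let Kz : ℂ × (ℂ × ℂ) → (EB →L[ℂ] EB) := fun z => 1 - J * J * mop (g z)
  have hu : ∀ z, IsUnit (Kz z) := fun z => isUnit_one_sub hL (g z)
  have hgd : Differentiable ℂ g := by fun_prop
  have hvd : Differentiable ℂ v := by fun_prop
  have hmd : Differentiable ℂ (fun z => mop (g z)) :=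
    (ContinuousLinearMap.mul ℂ EB).differentiable.comp hgd
  have hKd : Differentiable ℂ Kz := (hmd.const_mul (J * J)).const_sub (1 : EB →L[ℂ] EB)
  obtain ⟨N, hNd, hN1, hN2⟩ := exists_inv Kz hKd hu
  let P : ℂ × (ℂ × ℂ) → EB := fun z => N z (v z)
  have hPd : Differentiable ℂ P := hNd.clm_apply hvd
  have hg : ∀ z t, |t - X| ≤ L → g z t = A t + z.1 * B t := by
    intro z t ht
    show QA t + z.1 * QB t = _
    rw [hQA, hQB, cl_eq ht]
  have habs : ∀ x s : ℝ, |x - X| ≤ L → s ∈ Set.uIcc X x → |s - X| ≤ L := by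
    intro x s hx hs
    have := Set.abs_sub_left_of_mem_uIcc hs
    exact this.trans hx
  -- the double integral
  have hdbl : ∀ (z : ℂ × (ℂ × ℂ)) (f : EB) (x : ℝ), |x - X| ≤ L →
      (J * J * mop (g z)) f x = ∫ s in X..x, ∫ t in X..s, (A t + z.1 * B t) * f t := by
    intro z f x hx
    have e1 : (J * J * mop (g z)) f x = ∫ s in X..cl X L x, ∫ t in X..cl X L s, g z t * f t := rfl
    rw [e1, cl_eq hx]
    apply intervalIntegral.integral_congr
    intro s hs
    have hs' := habs x s hx hs
    show (∫ t in X..cl X L s, g z t * f t) = _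
    rw [cl_eq hs']
    apply intervalIntegral.integral_congr
    intro t ht
    show g z t * f t = _
    rw [hg z t (habs s t hs' ht)]
  have hv : ∀ z x, |x - X| ≤ L → v z x = z.2.1 + z.2.2 * (x - X) := by
    intro z x hx
    show z.2.1 * 1 + z.2.2 * I x = _
    rw [hI, cl_eq hx, mul_one]
    push_cast
    ring
  refine ⟨P, hPd, ?_, ?_, ?_⟩
  · exact J.differentiable.comp (hmd.clm_apply hPd)
  · intro z x hx
    have h1 : (Kz z * N z) (v z) = v z := by
      rw [hN1]
      rfl
    have h2 : P z x - (J * J * mop (g z)) (P z) x = v z x := by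
      have := congrArg (fun f : EB => f x) h1
      exact this
    rw [hdbl z _ x hx, hv z x hx] at h2
    rw [← h2]
    ring
  · intro z G hG hGe x hx
    let Gb : EB := BoundedContinuousFunction.ofNormedAddCommGroup (fun y => G (cl X L y))
      (hG.comp (cl_cont X L))
      ((isCompact_Icc (a := X - L) (b := X + L)).exists_bound_of_continuousOn
        hG.continuousOn).choose
      (fun y => (isCompact_Icc (a := X - L) (b := X + L)).exists_bound_of_continuousOn
        hG.continuousOn |>.choose_spec _ (by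
          have := cl_abs (X := X) hL y
          rw [abs_le] at this
          constructor <;> linarith))
    have hGb : ∀ y, Gb y = G (cl X L y) := fun y => rfl
    have h1 : Kz z Gb = v z := by
      ext y
      have e1 : Kz z Gb y = Gb y - (J * J * mop (g z)) Gb y := rfl
      have e2 : (J * J * mop (g z)) Gb y = (J * J * mop (g z)) Gb (cl X L y) := by
        show (∫ s in X..cl X L y, ∫ t in X..cl X L s, g z t * Gb t) =
          ∫ s in X..cl X L (cl X L y), ∫ t in X..cl X L s, g z t * Gb t
        rw [cl_eq (cl_abs (X := X) hL y)]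
      have e3 : v z y = v z (cl X L y) := by
        show z.2.1 * 1 + z.2.2 * I y = z.2.1 * 1 + z.2.2 * I (cl X L y)
        rw [hI, hI, cl_eq (cl_abs (X := X) hL y)]
      rw [e1, e2, e3, hdbl z Gb _ (cl_abs hL y), hv z _ (cl_abs hL y), hGb,
        hGe _ (cl_abs hL y)]
      have e4 : (∫ s in X..cl X L y, ∫ t in X..s, (A t + z.1 * B t) * G t) =
          ∫ s in X..cl X L y, ∫ t in X..s, (A t + z.1 * B t) * Gb t := by
        apply intervalIntegral.integral_congr
        intro s hs
        have hs' := habs _ s (cl_abs hL y) hs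
        apply intervalIntegral.integral_congr
        intro t ht
        show (A t + z.1 * B t) * G t = (A t + z.1 * B t) * Gb t
        rw [hGb, cl_eq (habs s t hs' ht)]
      rw [e4]
      ring
    have h2 : Gb = P z := by
      have h3 : (N z * Kz z) Gb = Gb := by
        rw [hN2]
        rfl
      rw [← h3]
      show N z (Kz z Gb) = _
      rw [h1]
    rw [← h2, hGb, cl_eq hx]

end LinOde

open LinOde Pool.Agent.Helper209.AC.ParamODE.LinOde in
/-- Linear ODE `ψ'' = (A + z B) ψ`, `ψ(X) = a`, `ψ'(X) = b`: global existence on `ℝ` and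
holomorphic dependence on the parameters `z = (z, (a, b))`. -/
theorem exists_sol_param (A B : ℝ → ℂ) (hA : Continuous A) (hB : Continuous B) (X : ℝ) :
    ∃ S T : ℂ × (ℂ × ℂ) → ℝ → ℂ,
      (∀ z, IsSol (fun x => A x + z.1 * B x) (S z) (T z) ∧ S z X = z.2.1 ∧ T z X = z.2.2) ∧
      (∀ x, Differentiable ℂ (fun z => S z x)) ∧ (∀ x, Differentiable ℂ (fun z => T z x)) := by
  have hL : ∀ x : ℝ, 0 ≤ |x - X| + 1 := fun x => by positivity
  choose! P hP using fun (L : ℝ) (h : 0 ≤ L) => exists_psi A B hA hB X L h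
  -- consistency
  have hcons : ∀ L L' : ℝ, 0 ≤ L → L ≤ L' → ∀ z x, |x - X| ≤ L → P L z x = P L' z x := by
    intro L L' h0 h1 z x hx
    have h2 := (hP L h0).2.2.2 z (fun t => P L' z t) (P L' z).continuous (fun y hy =>
      (hP L' (h0.trans h1)).2.2.1 z y (hy.trans h1)) x hx
    exact h2.symm
  let S : ℂ × (ℂ × ℂ) → ℝ → ℂ := fun z x => P (|x - X| + 1) z x
  have hS : ∀ L x z, 0 ≤ L → |x - X| ≤ L → P L z x = S z x := by
    intro L x z h0 hx
    rcases le_total L (|x - X| + 1) with h | h
    · exact hcons L _ h0 h z x hx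
    · exact (hcons _ L (hL x) h z x (by linarith)).symm
  let T : ℂ × (ℂ × ℂ) → ℝ → ℂ := fun z x =>
    z.2.2 + ∫ t in X..x, (A t + z.1 * B t) * S z t
  have hSc : ∀ z, Continuous (S z) := by
    intro z
    rw [continuous_iff_continuousAt]
    intro x
    have h1 : ContinuousAt (fun y => P (|x - X| + 1) z y) x := (P (|x - X| + 1) z).continuous.continuousAt
    refine h1.congr ?_
    filter_upwards [Metric.ball_mem_nhds x one_pos] with y hy
    rw [Metric.mem_ball, Real.dist_eq] at hy
    refine hS _ _ _ (hL x) ?_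
    have : |y - X| ≤ |y - x| + |x - X| := abs_sub_le y x X
    linarith
  have habs : ∀ x s : ℝ, s ∈ Set.uIcc X x → |s - X| ≤ |x - X| := by
    intro x s hs
    exact Set.abs_sub_left_of_mem_uIcc hs
  have hSe : ∀ z x, S z x = z.2.1 + z.2.2 * (x - X) +
        ∫ s in X..x, ∫ t in X..s, (A t + z.1 * B t) * S z t := by
    intro z x
    have h1 := (hP (|x - X| + 1) (hL x)).2.2.1 z x (by linarith)
    show P (|x - X| + 1) z x = _
    rw [h1]
    congr 1
    apply intervalIntegral.integral_congr
    intro s hs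
    have hs' := habs x s hs
    apply intervalIntegral.integral_congr
    intro t ht
    have ht' := habs s t ht
    show (A t + z.1 * B t) * P (|x - X| + 1) z t = (A t + z.1 * B t) * S z t
    rw [hS _ t z (hL x) (by linarith)]
  have hgc : ∀ z, Continuous fun t => (A t + z.1 * B t) * S z t := by
    intro z
    have := hSc z
    fun_prop
  have hTd : ∀ z x, HasDerivAt (T z) ((A x + z.1 * B x) * S z x) x := by
    intro z x
    exact ((hgc z).integral_hasStrictDerivAt X x).hasDerivAt.const_add z.2.2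
  have hTc : ∀ z, Continuous (fun s => ∫ t in X..s, (A t + z.1 * B t) * S z t) := by
    intro z
    exact intervalIntegral.continuous_primitive (fun a b => (hgc z).intervalIntegrable a b) X
  refine ⟨S, T, ?_, ?_, ?_⟩
  · intro z
    refine ⟨fun x => ⟨?_, hTd z x⟩, ?_, ?_⟩
    · have h1 : HasDerivAt (fun x : ℝ => z.2.1 + z.2.2 * ((x : ℂ) - X) +
        ∫ s in X..x, ∫ t in X..s, (A t + z.1 * B t) * S z t)
          (z.2.2 + ∫ t in X..x, (A t + z.1 * B t) * S z t) x := by
        refine HasDerivAt.add ?_ ((hTc z).integral_hasStrictDerivAt X x).hasDerivAt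
        have h2 : HasDerivAt (fun x : ℝ => ((x : ℂ) - X)) 1 x :=
          (Complex.ofRealCLM.hasDerivAt (x := x)).sub_const (X : ℂ)
        have h3 := (h2.const_mul z.2.2).const_add z.2.1
        rwa [mul_one] at h3
      have h2 : S z = fun x : ℝ => z.2.1 + z.2.2 * ((x : ℂ) - X) +
        ∫ s in X..x, ∫ t in X..s, (A t + z.1 * B t) * S z t := funext (hSe z)
      rw [h2]
      exact h1
    · rw [hSe]
      simp
    · show z.2.2 + ∫ t in X..X, (A t + z.1 * B t) * S z t = _
      simp
  · intro x
    have h1 := (hP (|x - X| + 1) (hL x)).1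
    exact (BoundedContinuousFunction.evalCLM ℂ x).differentiable.comp h1
  · intro x
    have h1 := (hP (|x - X| + 1) (hL x)).2.1
    have h2 := (BoundedContinuousFunction.evalCLM ℂ x).differentiable.comp h1
    have h3 : Differentiable ℂ (fun z : ℂ × (ℂ × ℂ) => z.2.2) := by fun_prop
    have h4 := h3.add h2
    suffices h6 : ∀ z, T z x = ((fun z : ℂ × (ℂ × ℂ) => z.2.2) +
        ⇑(BoundedContinuousFunction.evalCLM ℂ x) ∘ fun z =>
          (Jop X (|x - X| + 1) (hL x)) ((mop ((exists_QC A hA X (|x - X| + 1) (hL x)).choose +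
            z.1 • (exists_QC B hB X (|x - X| + 1) (hL x)).choose)) (P (|x - X| + 1) z))) z by
      rw [show (fun z => T z x) = _ from funext h6]
      exact h4
    intro z
    have hQA := (exists_QC A hA X (|x - X| + 1) (hL x)).choose_spec
    have hQB := (exists_QC B hB X (|x - X| + 1) (hL x)).choose_spec
    set QA := (exists_QC A hA X (|x - X| + 1) (hL x)).choose
    set QB := (exists_QC B hB X (|x - X| + 1) (hL x)).choose
    show z.2.2 + ∫ t in X..x, (A t + z.1 * B t) * S z t =
      z.2.2 + ∫ t in X..cl X (|x - X| + 1) x, (QA t + z.1 * QB t) * P (|x - X| + 1) z t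
    rw [cl_eq (by linarith : |x - X| ≤ |x - X| + 1)]
    congr 1
    apply intervalIntegral.integral_congr
    intro t ht
    have ht' := habs x t ht
    show (A t + z.1 * B t) * S z t = (QA t + z.1 * QB t) * P (|x - X| + 1) z t
    rw [hQA, hQB, cl_eq (by linarith : |t - X| ≤ |x - X| + 1),
      hS _ t z (hL x) (by linarith : |t - X| ≤ |x - X| + 1)]

end Pool.Agent.TH795.LT
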