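import Pool.Agent.TH795.LT.Defs

set_option autoImplicit false

/-!
# Weights and counting bounds
-/

open MeasureTheory Filter Topology Set
open scoped ENNReal NNReal ContDiff

namespace Pool.Agent.TH795.LT

open Pool.Agent.Helper41.CE (dRay posRay)

lemma fin_pos {α : Type} (T : Finset α) (f : α → ℝ) (h : ∀ p ∈ T, 0 < f p) :
    ∃ c : ℝ, 0 < c ∧ ∀ p ∈ T, c ≤ f p := by
  classical
  induction T using Finset.induction_on with
  | empty => exact ⟨1, one_pos, by simp⟩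
  | insert a s ha ih =>
    obtain ⟨c, hc, hc'⟩ := ih (fun p hp => h p (Finset.mem_insert_of_mem hp))
    refine ⟨min c (f a), lt_min hc (h a (Finset.mem_insert_self _ _)), ?_⟩
    intro p hp
    rcases Finset.mem_insert.1 hp with rfl | hp
    · exact min_le_right _ _
    · exact (min_le_left _ _).trans (hc' p hp)

lemma zero_mem_posRay : (0 : ℂ) ∈ posRay := by
  constructor <;> simp

lemma im_le_dRay {z : ℂ} : z.im ≤ dRay z := by
  unfold dRay
  apply (Metric.le_infDist ⟨0, zero_mem_posRay⟩).2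
  intro w hw
  have h1 : |(z - w).im| ≤ ‖z - w‖ := Complex.abs_im_le_norm _
  rw [Complex.sub_im, hw.1, sub_zero] at h1
  rw [dist_eq_norm]
  exact (le_abs_self _).trans h1

lemma dRay_le_norm (z : ℂ) : dRay z ≤ ‖z‖ := by
  unfold dRay
  have := Metric.infDist_le_dist_of_mem (x := z) zero_mem_posRay
  simpa using this

lemma weight_ge {γ σ p2 A B : ℝ} {z : ℂ} (hγ : 0 < γ) (hσ0 : 0 ≤ σ) (hσ : σ ≤ p2)
    (hA : 0 < A) (hz : A ≤ z.im) (hB : ‖z‖ ≤ B) :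
    A ^ (γ + p2) * B ^ (-p2) ≤ ‖z‖ ^ (-σ) * dRay z ^ (γ + σ) := by
  have h1 : A ≤ dRay z := hz.trans im_le_dRay
  have h2 := dRay_le_norm z
  have hδ : 0 < dRay z := hA.trans_le h1
  have hn : 0 < ‖z‖ := hδ.trans_le h2
  have hB0 : 0 < B := hn.trans_le hB
  have hp2 : 0 ≤ p2 := hσ0.trans hσ
  have e1 : ‖z‖ ^ (-σ) * dRay z ^ (γ + σ) = dRay z ^ γ * (dRay z / ‖z‖) ^ σ := by
    rw [Real.rpow_add hδ, Real.div_rpow hδ.le hn.le, Real.rpow_neg hn.le]
    field_simp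
  have e2 : dRay z ^ (γ + p2) * ‖z‖ ^ (-p2) = dRay z ^ γ * (dRay z / ‖z‖) ^ p2 := by
    rw [Real.rpow_add hδ, Real.div_rpow hδ.le hn.le, Real.rpow_neg hn.le]
    field_simp
  have h3 : (dRay z / ‖z‖) ^ p2 ≤ (dRay z / ‖z‖) ^ σ := by
    apply Real.rpow_le_rpow_of_exponent_ge (by positivity) _ hσ
    rw [div_le_one hn]
    exact h2
  calc A ^ (γ + p2) * B ^ (-p2) ≤ dRay z ^ (γ + p2) * ‖z‖ ^ (-p2) := by
        apply mul_le_mul
        · exact Real.rpow_le_rpow hA.le h1 (by linarith)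
        · exact Real.rpow_le_rpow_of_nonpos hn hB (by linarith)
        · positivity
        · positivity
    _ = dRay z ^ γ * (dRay z / ‖z‖) ^ p2 := e2
    _ ≤ dRay z ^ γ * (dRay z / ‖z‖) ^ σ := by gcongr
    _ = _ := e1.symm

lemma choose_ge (l m : ℕ) : ((l : ℝ)) ^ m / (m.factorial : ℝ) ≤ ((l + m).choose m : ℝ) := by
  have h := Nat.pow_le_choose (α := ℝ) m (l + m)
  have e : ((l + m + 1 - m : ℕ) : ℝ) = (l : ℝ) + 1 := by
    have : l + m + 1 - m = l + 1 := by omega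
    rw [this]
    push_cast
    ring
  rw [e] at h
  refine le_trans ?_ h
  gcongr
  linarith

/-- number of integers in `[x, 3x/2]` -/
lemma card_ge {x : ℝ} (hx : 4 ≤ x) :
    x / 4 ≤ ((Finset.Icc ⌈x⌉₊ ⌊3 * x / 2⌋₊).card : ℝ) := by
  rw [Nat.card_Icc]
  have h1 : (⌈x⌉₊ : ℝ) < x + 1 := Nat.ceil_lt_add_one (by linarith)
  have h2 : 3 * x / 2 < (⌊3 * x / 2⌋₊ : ℝ) + 1 := Nat.lt_floor_add_one _
  have h3 : ⌈x⌉₊ ≤ ⌊3 * x / 2⌋₊ + 1 := by
    have : (⌈x⌉₊ : ℝ) ≤ (⌊3 * x / 2⌋₊ : ℝ) + 1 := by linarith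
    exact_mod_cast this
  rw [Nat.cast_sub h3]
  push_cast
  linarith

end Pool.Agent.TH795.LT
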