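import Pool.Agent.TH795.LT.KConv2
import Pool.Agent.TH795.LT.Count
import Pool.Agent.TH795.LT.Wt
import Pool.Agent.TH55.J59

set_option autoImplicit false

/-!
# One annulus
-/

open MeasureTheory Filter Topology Set
open scoped ENNReal NNReal ContDiff

namespace Pool.Agent.TH795.LT

open Pool.Agent.Helper209.AC (IsSol)
open Pool.Agent.Helper41.CE (E IsTest pd pair IsGrad WeakEq Graph GenVec IndepVecs mult dRay posRay)

/-- The hypotheses on a radial potential under which the annulus at radius `R` of relative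
thickness `ε` and strength `am` produces many eigenvalues. -/
structure Ann (a ε1 ε R am : ℝ) (V : ℝ → ℂ) : Prop where
  hε : 0 < ε
  hε1 : ε ≤ ε1
  hR : 0 < R
  ham : 0 < am
  cont : Continuous V
  bdd : ∃ C, ∀ r, ‖V r‖ ≤ C
  zero : ∃ c : ℝ, 0 < c ∧ ∀ r, 0 ≤ r → r ≤ c → V r = 0
  out : ∀ y, a ≤ |y| → ‖V (R * Real.exp (ε * y))‖ ≤ am * (ε1 * (1 + Real.exp (-(2 * ε * y))))
  ins : ∀ y, |y| ≤ a → ‖V (R * Real.exp (ε * y))‖ ≤ am
  l1 : ∫ y in (-a)..a, ‖V (R * Real.exp (ε * y)) / am - Complex.I‖ ≤ ε1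

lemma Ann.adm {a ε1 ε1' ε R am η : ℝ} {V : ℝ → ℂ} (h : Ann a ε1 ε R am V) (hle : ε1 ≤ ε1')
    {η0 Λ : ℝ} (h1 : η0 ≤ η) (h2 : η ≤ Λ) :
    Adm a ε1' ε η0 Λ η (fun y => V (R * Real.exp (ε * y)) / am) := by
  have ham := h.ham
  have hn : ∀ y, ‖V (R * Real.exp (ε * y)) / am‖ = ‖V (R * Real.exp (ε * y))‖ / am := by
    intro y
    rw [norm_div, Complex.norm_real, Real.norm_of_nonneg ham.le]
  have hA : Adm a ε1 ε η0 Λ η (fun y => V (R * Real.exp (ε * y)) / am) := by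
    refine ⟨h.hε, h.hε1, h1, h2, ?_, ?_, ?_, h.l1⟩
    · have : Continuous fun y : ℝ => R * Real.exp (ε * y) := by fun_prop
      exact (h.cont.comp this).div_const _
    · intro y hy
      rw [hn, div_le_iff₀ ham, mul_comm _ am]
      exact h.out y hy
    · intro y hy
      rw [hn, div_le_one ham]
      exact h.ins y hy
  exact hA.mono hle

/-- The constant in the lower bound. -/
noncomputable def cst (d : ℕ) (γ : ℝ) : ℝ :=
  (1 / 8) ^ (γ + (d : ℝ) / 2) * 6 ^ (-((d : ℝ) / 2)) / (4 * ((d - 2).factorial : ℝ))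

lemma cst_pos (d : ℕ) (γ : ℝ) : 0 < cst d γ := by
  unfold cst
  positivity

lemma term_eq {d : ℕ} (hd : 2 ≤ d) {γ am ρ n : ℝ} (ham : 0 < am) (hρ : 0 < ρ) (hn : 0 < n) :
    (ρ * Real.sqrt n) / 4 * ((ρ * Real.sqrt n) ^ (d - 2) / ((d - 2).factorial : ℝ) *
      ((am / 8) ^ (γ + (d : ℝ) / 2) * (6 * am * n) ^ (-((d : ℝ) / 2)))) =
    cst d γ * am ^ γ * ρ ^ (d - 1) * n ^ (-(1 / 2) : ℝ) := by
  have hd' : (2 : ℝ) ≤ d := by exact_mod_cast hd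
  have e1 : (ρ * Real.sqrt n) * (ρ * Real.sqrt n) ^ (d - 2) = ρ ^ (d - 1) * Real.sqrt n ^ (d - 1) := by
    rw [← pow_succ', ← mul_pow]
    congr 1
    omega
  have e2 : Real.sqrt n ^ (d - 1) = n ^ (((d : ℝ) - 1) / 2) := by
    rw [Real.sqrt_eq_rpow, ← Real.rpow_natCast, ← Real.rpow_mul hn.le]
    congr 1
    rw [Nat.cast_sub (by omega)]
    push_cast
    ring
  have e3 : (am / 8) ^ (γ + (d : ℝ) / 2) = am ^ γ * am ^ ((d : ℝ) / 2) * (1 / 8) ^ (γ + (d : ℝ) / 2) := by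
    rw [div_eq_mul_one_div, Real.mul_rpow ham.le (by norm_num), Real.rpow_add ham]
  have e4 : (6 * am * n) ^ (-((d : ℝ) / 2)) = 6 ^ (-((d : ℝ) / 2)) * am ^ (-((d : ℝ) / 2)) *
      n ^ (-((d : ℝ) / 2)) := by
    rw [Real.mul_rpow (by positivity) hn.le, Real.mul_rpow (by norm_num) ham.le]
  have e5 : am ^ ((d : ℝ) / 2) * am ^ (-((d : ℝ) / 2)) = 1 := by
    rw [← Real.rpow_add ham]
    simp
  have e6 : n ^ (((d : ℝ) - 1) / 2) * n ^ (-((d : ℝ) / 2)) = n ^ (-(1 / 2) : ℝ) := by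
    rw [← Real.rpow_add hn]
    congr 1
    ring
  calc (ρ * Real.sqrt n) / 4 * ((ρ * Real.sqrt n) ^ (d - 2) / ((d - 2).factorial : ℝ) *
      ((am / 8) ^ (γ + (d : ℝ) / 2) * (6 * am * n) ^ (-((d : ℝ) / 2))))
      = ((ρ * Real.sqrt n) * (ρ * Real.sqrt n) ^ (d - 2)) * ((am / 8) ^ (γ + (d : ℝ) / 2) *
        (6 * am * n) ^ (-((d : ℝ) / 2))) / (4 * ((d - 2).factorial : ℝ)) := by
        field_simp
    _ = (ρ ^ (d - 1) * n ^ (((d : ℝ) - 1) / 2)) * ((am ^ γ * am ^ ((d : ℝ) / 2) *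
        (1 / 8) ^ (γ + (d : ℝ) / 2)) * (6 ^ (-((d : ℝ) / 2)) * am ^ (-((d : ℝ) / 2)) *
          n ^ (-((d : ℝ) / 2)))) / (4 * ((d - 2).factorial : ℝ)) := by
        rw [e1, e2, e3, e4]
    _ = ρ ^ (d - 1) * am ^ γ * (am ^ ((d : ℝ) / 2) * am ^ (-((d : ℝ) / 2))) *
        (n ^ (((d : ℝ) - 1) / 2) * n ^ (-((d : ℝ) / 2))) * ((1 / 8) ^ (γ + (d : ℝ) / 2) *
          6 ^ (-((d : ℝ) / 2))) / (4 * ((d - 2).factorial : ℝ)) := by ring
    _ = _ := by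
        rw [e5, e6]
        unfold cst
        ring

/-- one sector -/
lemma sector {d l : ℕ} (hd : 2 ≤ d) (hl : 1 ≤ l) {a ε1 ε R am ħ : ℝ} {V : ℝ → ℂ}
    (h : Ann a ε1 ε R am V) (hħ : 0 < ħ) (hrel : am * R ^ 2 * ε ^ 2 = ħ ^ 2) {e : ℂ}
    {r0 η0 Λ ε1' : ℝ} (hle : ε1 ≤ ε1')
    (hex : ∀ (ε η : ℝ) (v : ℝ → ℂ), Adm a ε1' ε η0 Λ η v → ∀ y0 : ℝ,
      (∀ y ≤ y0, v y = 0) → ∃ z : ℂ, ‖z - (e + (η : ℂ) ^ 2)‖ ≤ r0 ∧ ∃ φ φ' : ℝ → ℂ,
        IsSol (PP ε η v z) φ φ' ∧ (∀ y ≤ y0, φ y = reg ε η z y ∧ φ' y = reg' ε η z y) ∧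
        IntegrableOn (fun y => (1 + Real.exp (2 * ε * y)) * ‖φ y‖ ^ 2) (Ioi 0) ∧
        IntegrableOn (fun y => ‖φ' y‖ ^ 2) (Ioi 0))
    {η : ℝ} (hη : η = (l + ((d : ℝ) - 2) / 2) * ε) (h1 : η0 ≤ η) (h2 : η ≤ Λ) :
    ∃ (z : ℂ) (H : ℝ → ℂ), ‖z - (e + (η : ℂ) ^ 2)‖ ≤ r0 ∧ Continuous H ∧ H 0 = 1 ∧
      ∀ Y : E d → ℝ, IsHH d l Y → Graph (fun x : E d => V ‖x‖) ħ
        (fun x => H (‖x‖ ^ 2) * (Y x : ℂ)) (fun x => (am * z) * (H (‖x‖ ^ 2) * (Y x : ℂ))) := by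
  obtain ⟨c, hc, hc0⟩ := h.zero
  have hR := h.hR
  have hε := h.hε
  obtain ⟨y0, hy0⟩ : ∃ y0 : ℝ, y0 = Real.log (c / R) / ε := ⟨_, rfl⟩
  have hy0' : R * Real.exp (ε * y0) = c := by
    rw [hy0]
    have e1 : ε * (Real.log (c / R) / ε) = Real.log (c / R) := by field_simp
    rw [e1, Real.exp_log (by positivity)]
    field_simp
  have hV0 : ∀ r, 0 ≤ r → r ≤ R * Real.exp (ε * y0) → V r = 0 := by
    intro r hr hr'
    rw [hy0'] at hr'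
    exact hc0 r hr hr'
  obtain ⟨z, hz, φ, φ', hs, hr, hi, hi'⟩ := hex ε η _ (h.adm hle h1 h2) y0 (by
    intro y hy
    have : V (R * Real.exp (ε * y)) = 0 := by
      apply hV0 _ (by positivity)
      gcongr
    simp only [this, zero_div])
  obtain ⟨H, H1, H2, a1, a2, a3, a4, a5, a6, a7⟩ := exists_H hd hε hR hħ h.ham hrel h.cont hV0 hη
    hs (fun y hy => (hr y hy).1) hi hi'
  refine ⟨z, H, hz, continuous_iff_continuousAt.2 fun t => (a1 t).continuousAt, a4, ?_⟩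
  intro Y hY
  exact Pool.Agent.TH55.J60.graph_radial hd hl V h.cont h.bdd ħ hħ (am * z) H H1 H2 a1 a2 a3 a5 a6 a7
    Y hY

/-- Many eigenvalues from one annulus. -/
theorem stage {d : ℕ} (hd : 2 ≤ d) {γ : ℝ} (hγ : 0 < γ) (M : ℝ) :
    ∃ a ε1 : ℝ, 1 ≤ a ∧ 0 < ε1 ∧ ∀ (ε R am ħ : ℝ) (V : ℝ → ℂ), Ann a ε1 ε R am V → 0 < ħ →
      am * R ^ 2 * ε ^ 2 = ħ ^ 2 → ∀ σ : ℝ, 0 ≤ σ → σ ≤ (d : ℝ) / 2 →
      ENNReal.ofReal (cst d γ * (M * a) * am ^ γ * (1 / ε) ^ (d - 1)) ≤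
        eigS γ σ (fun x : E d => V ‖x‖) ħ := by
  classical
  obtain ⟨a, ha, S, hS, hsum⟩ := Pool.Agent.TH55.J59.exists_zeros M
  have hd' : (2 : ℝ) ≤ d := by exact_mod_cast hd
  have ha0 : 0 < a := by linarith
  -- constants
  have hnorm : ∀ e ∈ S, 1 ≤ ‖e‖ := fun e he =>
    (hS e he).1.le.trans (Complex.re_le_norm e)
  obtain ⟨Λ, hΛ⟩ : ∃ Λ : ℝ, ∀ e ∈ S, 2 * Real.sqrt ‖e‖ ≤ Λ := by
    refine ⟨∑ e ∈ S, 2 * Real.sqrt ‖e‖, fun e he => ?_⟩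
    exact Finset.single_le_sum (f := fun e : ℂ => 2 * Real.sqrt ‖e‖)
      (fun i _ => by positivity) he
  obtain ⟨r1, hr1, hr1'⟩ := fin_pos S.offDiag (fun p => ‖p.1 - p.2‖ / 4) (by
    intro p hp
    rw [Finset.mem_offDiag] at hp
    have : 0 < ‖p.1 - p.2‖ := norm_pos_iff.2 (sub_ne_zero.2 hp.2.2)
    positivity)
  obtain ⟨r0, hr0, hr08, hr01⟩ : ∃ r0 : ℝ, 0 < r0 ∧ r0 ≤ 1 / 8 ∧ r0 ≤ r1 :=
    ⟨min (1 / 8) r1, by positivity, min_le_left _ _, min_le_right _ _⟩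
  have hex : ∀ e : ℂ, ∃ ε1 : ℝ, 0 < ε1 ∧ (e ∈ S → ∀ (ε η : ℝ) (v : ℝ → ℂ),
      Adm a ε1 ε 1 (max 1 Λ) η v → ∀ y0 : ℝ,
      (∀ y ≤ y0, v y = 0) → ∃ z : ℂ, ‖z - (e + (η : ℂ) ^ 2)‖ ≤ r0 ∧ ∃ φ φ' : ℝ → ℂ,
        IsSol (PP ε η v z) φ φ' ∧ (∀ y ≤ y0, φ y = reg ε η z y ∧ φ' y = reg' ε η z y) ∧
        IntegrableOn (fun y => (1 + Real.exp (2 * ε * y)) * ‖φ y‖ ^ 2) (Ioi 0) ∧
        IntegrableOn (fun y => ‖φ' y‖ ^ 2) (Ioi 0)) := by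
    intro e
    by_cases he : e ∈ S
    · obtain ⟨h1, h2, h3, h4⟩ := hS e he
      obtain ⟨ε1, h5, h6⟩ := exists_eig ha0 h1 (by linarith) h3 h4 hr0 one_pos (le_max_left 1 Λ)
      exact ⟨ε1, h5, fun _ => h6⟩
    · exact ⟨1, one_pos, fun h => absurd h he⟩
  choose ε1f hε1f hε1f' using hex
  obtain ⟨ε2, hε2, hε2'⟩ := fin_pos S ε1f (fun e _ => hε1f e)
  obtain ⟨ε1, hε1, hε1a, hε1b⟩ : ∃ ε1 : ℝ, 0 < ε1 ∧ ε1 ≤ ε2 ∧ ε1 ≤ 1 / ((d : ℝ) + 4) :=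
    ⟨min ε2 (1 / ((d : ℝ) + 4)), by positivity, min_le_left _ _, min_le_right _ _⟩
  refine ⟨a, ε1, ha, hε1, ?_⟩
  intro ε R am ħ V hA hħ hrel σ hσ0 hσ
  have hε := hA.hε
  have ham := hA.ham
  obtain ⟨ρ, hρ⟩ : ∃ ρ : ℝ, ρ = 1 / ε := ⟨_, rfl⟩
  have hρ0 : 0 < ρ := by rw [hρ]; positivity
  have hρε : ρ * ε = 1 := by rw [hρ]; field_simp
  have hρd : (d : ℝ) + 4 ≤ ρ := by
    have h1 : ε ≤ 1 / ((d : ℝ) + 4) := hA.hε1.trans hε1b
    rw [hρ, le_div_iff₀ hε]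
    rw [le_div_iff₀ (by positivity)] at h1
    linarith
  -- the index set
  let Ie : ℂ → Finset ℕ := fun e => Finset.Icc ⌈ρ * Real.sqrt ‖e‖⌉₊ ⌊3 * (ρ * Real.sqrt ‖e‖) / 2⌋₊
  let T : Finset (Σ _ : ℂ, ℕ) := S.sigma (fun e => Ie e)
  have hsq : ∀ e ∈ S, 1 ≤ Real.sqrt ‖e‖ := fun e he => by
    rw [Real.one_le_sqrt]
    exact hnorm e he
  have hT : ∀ i ∈ T, i.1 ∈ S ∧ ρ * Real.sqrt ‖i.1‖ ≤ (i.2 : ℝ) ∧
      (i.2 : ℝ) ≤ 3 * (ρ * Real.sqrt ‖i.1‖) / 2 := by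
    intro i hi
    rw [Finset.mem_sigma] at hi
    obtain ⟨h1, h2⟩ := hi
    rw [Finset.mem_Icc] at h2
    refine ⟨h1, (Nat.le_ceil _).trans (by exact_mod_cast h2.1), ?_⟩
    exact (Nat.le_floor_iff (by positivity)).1 h2.2
  -- the radial parameter
  let η : (Σ _ : ℂ, ℕ) → ℝ := fun i => ((i.2 : ℝ) + ((d : ℝ) - 2) / 2) * ε
  have hη : ∀ i ∈ T, 1 ≤ η i ∧ η i ≤ 2 * Real.sqrt ‖i.1‖ ∧ η i ≤ max 1 Λ := by
    intro i hi
    obtain ⟨h1, h2, h3⟩ := hT i hi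
    have h4 := hsq i.1 h1
    have h5 : Real.sqrt ‖i.1‖ ≤ η i := by
      have : ρ * Real.sqrt ‖i.1‖ * ε ≤ ((i.2 : ℝ) + ((d : ℝ) - 2) / 2) * ε := by
        apply mul_le_mul_of_nonneg_right _ hε.le
        linarith
      calc Real.sqrt ‖i.1‖ = ρ * Real.sqrt ‖i.1‖ * ε := by
            rw [mul_right_comm, hρε, one_mul]
        _ ≤ _ := this
    have h6 : η i ≤ 2 * Real.sqrt ‖i.1‖ := by
      have h7 : (i.2 : ℝ) + ((d : ℝ) - 2) / 2 ≤ 2 * (ρ * Real.sqrt ‖i.1‖) := by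
        have : ρ ≤ ρ * Real.sqrt ‖i.1‖ := by nlinarith
        linarith
      calc η i ≤ 2 * (ρ * Real.sqrt ‖i.1‖) * ε := mul_le_mul_of_nonneg_right h7 hε.le
        _ = 2 * Real.sqrt ‖i.1‖ := by
            rw [show 2 * (ρ * Real.sqrt ‖i.1‖) * ε = 2 * Real.sqrt ‖i.1‖ * (ρ * ε) by ring, hρε,
              mul_one]
    exact ⟨h4.trans h5, h6, h6.trans ((hΛ i.1 h1).trans (le_max_right _ _))⟩
  have hsec : ∀ i ∈ T, ∃ (z : ℂ) (H : ℝ → ℂ), ‖z - (i.1 + (η i : ℂ) ^ 2)‖ ≤ r0 ∧ Continuous H ∧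
      H 0 = 1 ∧ ∀ Y : E d → ℝ, IsHH d i.2 Y → Graph (fun x : E d => V ‖x‖) ħ
        (fun x => H (‖x‖ ^ 2) * (Y x : ℂ)) (fun x => (am * z) * (H (‖x‖ ^ 2) * (Y x : ℂ))) := by
    intro i hi
    obtain ⟨h1, h2, h3⟩ := hT i hi
    obtain ⟨h4, h5, h6⟩ := hη i hi
    have hl : 1 ≤ i.2 := by
      have h7 := hsq i.1 h1
      have : (1 : ℝ) ≤ i.2 := by
        have : ρ ≤ ρ * Real.sqrt ‖i.1‖ := by nlinarith
        linarith
      exact_mod_cast this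
    exact sector hd hl hA hħ hrel (hε1a.trans (hε2' i.1 h1)) (hε1f' i.1 h1) rfl h4 h6
  choose! zf Hf hz hHc hH0 hHG using hsec
  -- distinctness
  have hdist : ∀ i ∈ T, ∀ j ∈ T, zf i = zf j → i.2 = j.2 → i = j := by
    intro i hi j hj hij hl
    have h1 := hz i hi
    have h2 := hz j hj
    have hηij : η i = η j := by
      show ((i.2 : ℝ) + ((d : ℝ) - 2) / 2) * ε = ((j.2 : ℝ) + ((d : ℝ) - 2) / 2) * ε
      rw [hl]
    rw [hij, hηij] at h1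
    have h3 : ‖i.1 - j.1‖ ≤ 2 * r0 := by
      have : i.1 - j.1 = (zf j - (j.1 + (η j : ℂ) ^ 2)) - (zf j - (i.1 + (η j : ℂ) ^ 2)) := by ring
      rw [this]
      refine (norm_sub_le _ _).trans ?_
      linarith
    have h4 : i.1 = j.1 := by
      by_contra hne
      have h5 := hr1' (i.1, j.1) (Finset.mem_offDiag.2 ⟨(hT i hi).1, (hT j hj).1, hne⟩)
      simp only at h5
      have : 0 < ‖i.1 - j.1‖ := norm_pos_iff.2 (sub_ne_zero.2 hne)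
      linarith
    exact Sigma.ext h4 (heq_of_eq hl)
  have hzim : ∀ i ∈ T, 1 / 8 ≤ (zf i).im ∧ ‖zf i‖ ≤ 6 * ‖i.1‖ := by
    intro i hi
    obtain ⟨h1, h2, h3⟩ := hT i hi
    obtain ⟨h4, h5, h6⟩ := hη i hi
    have h7 := hz i hi
    have hη2 : ((η i : ℂ)) ^ 2 = ((η i ^ 2 : ℝ) : ℂ) := by push_cast; ring
    constructor
    · have h8 : |(zf i - (i.1 + (η i : ℂ) ^ 2)).im| ≤ ‖zf i - (i.1 + (η i : ℂ) ^ 2)‖ :=
        Complex.abs_im_le_norm _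
      rw [hη2, Complex.sub_im, Complex.add_im, Complex.ofReal_im, add_zero, ← hη2] at h8
      have h9 := (abs_le.1 (h8.trans h7)).1
      have h10 := (hS i.1 h1).2.1
      linarith
    · have h8 : ‖zf i‖ ≤ ‖zf i - (i.1 + (η i : ℂ) ^ 2)‖ + (‖i.1‖ + ‖((η i : ℂ)) ^ 2‖) := by
        have := norm_add_le (zf i - (i.1 + (η i : ℂ) ^ 2)) (i.1 + (η i : ℂ) ^ 2)
        rw [sub_add_cancel] at this
        refine this.trans ?_
        have := norm_add_le i.1 ((η i : ℂ) ^ 2)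
        linarith
      have h9 : ‖((η i : ℂ)) ^ 2‖ ≤ 4 * ‖i.1‖ := by
        rw [norm_pow, Complex.norm_real, Real.norm_of_nonneg (by linarith)]
        have h10 : η i ^ 2 ≤ (2 * Real.sqrt ‖i.1‖) ^ 2 := pow_le_pow_left₀ (by linarith) h5 2
        have h11 : (2 * Real.sqrt ‖i.1‖) ^ 2 = 4 * ‖i.1‖ := by
          rw [mul_pow, Real.sq_sqrt (norm_nonneg _)]
          norm_num
        linarith
      have h12 := hnorm i.1 h1
      linarith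
  -- sum over the family
  have hsumle := sum_le_eigS (d := d) (γ := γ) (σ := σ) (V := fun x : E d => V ‖x‖) (ħ := ħ) T
    (fun i => am * zf i) (fun i => (i.2 + d - 2).choose (d - 2)) ?_ ?_
  · refine le_trans ?_ hsumle
    have hterm : ∀ i ∈ T, (am / 8) ^ (γ + (d : ℝ) / 2) * (6 * am * ‖i.1‖) ^ (-((d : ℝ) / 2)) ≤
        ‖am * zf i‖ ^ (-σ) * dRay (am * zf i) ^ (γ + σ) := by
      intro i hi
      obtain ⟨h1, h2⟩ := hzim i hi
      apply weight_ge hγ hσ0 hσ (by positivity)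
      · rw [Complex.im_ofReal_mul am (zf i)]
        nlinarith
      · rw [norm_mul, Complex.norm_real, Real.norm_of_nonneg ham.le]
        nlinarith
    have hw0 : ∀ i, 0 ≤ ‖am * zf i‖ ^ (-σ) * dRay (am * zf i) ^ (γ + σ) := fun i =>
      mul_nonneg (Real.rpow_nonneg (norm_nonneg _) _) (Real.rpow_nonneg Metric.infDist_nonneg _)
    have hconv : ∑ i ∈ T, (((i.2 + d - 2).choose (d - 2) : ℕ) : ℝ≥0∞) *
        ENNReal.ofReal (‖am * zf i‖ ^ (-σ) * dRay (am * zf i) ^ (γ + σ)) =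
        ENNReal.ofReal (∑ i ∈ T, (((i.2 + d - 2).choose (d - 2) : ℕ) : ℝ) *
          (‖am * zf i‖ ^ (-σ) * dRay (am * zf i) ^ (γ + σ))) := by
      rw [ENNReal.ofReal_sum_of_nonneg (fun i _ => mul_nonneg (Nat.cast_nonneg _) (hw0 i))]
      apply Finset.sum_congr rfl
      intro i _
      rw [ENNReal.ofReal_mul (Nat.cast_nonneg _), ENNReal.ofReal_natCast]
    rw [hconv]
    apply ENNReal.ofReal_le_ofReal
    have hce : ∀ i ∈ T, (ρ * Real.sqrt ‖i.1‖) ^ (d - 2) / ((d - 2).factorial : ℝ) *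
        ((am / 8) ^ (γ + (d : ℝ) / 2) * (6 * am * ‖i.1‖) ^ (-((d : ℝ) / 2))) ≤
        (((i.2 + d - 2).choose (d - 2) : ℕ) : ℝ) *
          (‖am * zf i‖ ^ (-σ) * dRay (am * zf i) ^ (γ + σ)) := by
      intro i hi
      obtain ⟨h1, h2, h3⟩ := hT i hi
      have h4 := hterm i hi
      have h5 := choose_ge i.2 (d - 2)
      have h6 : i.2 + (d - 2) = i.2 + d - 2 := by omega
      rw [h6] at h5
      have h7 : (ρ * Real.sqrt ‖i.1‖) ^ (d - 2) / ((d - 2).factorial : ℝ) ≤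
          (((i.2 + d - 2).choose (d - 2) : ℕ) : ℝ) := by
        refine le_trans ?_ h5
        gcongr
      have h8 := hnorm i.1 h1
      apply mul_le_mul h7 h4 (by positivity) (Nat.cast_nonneg _)
    refine le_trans ?_ (Finset.sum_le_sum hce)
    rw [Finset.sum_sigma]
    have hinner : ∀ e ∈ S, cst d γ * am ^ γ * ρ ^ (d - 1) * ‖e‖ ^ (-(1 / 2) : ℝ) ≤
        ∑ _l ∈ Ie e, (ρ * Real.sqrt ‖e‖) ^ (d - 2) / ((d - 2).factorial : ℝ) *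
        ((am / 8) ^ (γ + (d : ℝ) / 2) * (6 * am * ‖e‖) ^ (-((d : ℝ) / 2))) := by
      intro e he
      have h8 := hnorm e he
      rw [Finset.sum_const, nsmul_eq_mul, ← term_eq hd ham hρ0 (by linarith)]
      apply mul_le_mul_of_nonneg_right _ (by positivity)
      apply card_ge
      have h9 := hsq e he
      have : ρ ≤ ρ * Real.sqrt ‖e‖ := by nlinarith
      linarith
    refine le_trans ?_ (Finset.sum_le_sum hinner)
    rw [← Finset.mul_sum, ← hρ]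
    have h10 : 0 ≤ cst d γ * am ^ γ * ρ ^ (d - 1) := by
      have := cst_pos d γ
      positivity
    calc cst d γ * (M * a) * am ^ γ * ρ ^ (d - 1) = cst d γ * am ^ γ * ρ ^ (d - 1) * (M * a) := by
          ring
      _ ≤ _ := mul_le_mul_of_nonneg_left hsum h10
  · intro i hi
    obtain ⟨h1, h2⟩ := hzim i hi
    intro h3
    have h4 : (am * zf i : ℂ).im = 0 := h3.1
    rw [Complex.im_ofReal_mul am (zf i)] at h4
    nlinarith
  · intro z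
    apply mult_ge hd (T.filter (fun i => (am * zf i : ℂ) = z)) (fun i => i.2) _ Hf
    · intro i hi
      exact hHc i (Finset.mem_filter.1 hi).1
    · intro i hi
      exact hH0 i (Finset.mem_filter.1 hi).1
    · intro i hi Y hY
      obtain ⟨h1, h2⟩ := Finset.mem_filter.1 hi
      rw [← h2]
      exact hHG i h1 Y hY
    · intro i hi j hj hij
      obtain ⟨h1, h2⟩ := Finset.mem_filter.1 hi
      obtain ⟨h3, h4⟩ := Finset.mem_filter.1 hj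
      apply hdist i h1 j h3 _ hij
      have hamc : (am : ℂ) ≠ 0 := by exact_mod_cast ham.ne'
      exact mul_left_cancel₀ hamc (h2.trans h4.symm)

end Pool.Agent.TH795.LT
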