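import Pool.Agent.TH795.LT.Sel
import Pool.Agent.TH795.LT.Stage

set_option autoImplicit false

/-!
# The potential
-/

open MeasureTheory Filter Topology Set
open scoped ENNReal NNReal ContDiff

namespace Pool.Agent.TH795.LT

open Pool.Agent.Helper41.CE (E)

/-- trapezoid -/
noncomputable def trap (a δ y : ℝ) : ℝ := max 0 (min 1 ((a - |y|) / δ))

lemma trap_nonneg (a δ y : ℝ) : 0 ≤ trap a δ y := le_max_left _ _

lemma trap_le_one (a δ y : ℝ) : trap a δ y ≤ 1 := max_le (by norm_num) (min_le_left _ _)

lemma trap_cont (a δ : ℝ) : Continuous (trap a δ) := by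
  unfold trap
  fun_prop

lemma trap_zero {a δ y : ℝ} (hδ : 0 < δ) (hy : a ≤ |y|) : trap a δ y = 0 := by
  unfold trap
  apply max_eq_left
  refine (min_le_right _ _).trans ?_
  apply div_nonpos_of_nonpos_of_nonneg _ hδ.le
  linarith

lemma trap_one {a δ y : ℝ} (hδ : 0 < δ) (hy : |y| ≤ a - δ) : trap a δ y = 1 := by
  unfold trap
  have : 1 ≤ (a - |y|) / δ := by
    rw [one_le_div hδ]
    linarith
  rw [min_eq_left this]
  norm_num

lemma trap_int {a δ : ℝ} (hδ : 0 < δ) (hδa : δ ≤ a) :
    ∫ y in (-a)..a, |trap a δ y - 1| ≤ 2 * δ := by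
  have hc : Continuous fun y => |trap a δ y - 1| := ((trap_cont a δ).sub continuous_const).abs
  have hi : ∀ x y : ℝ, IntervalIntegrable (fun y => |trap a δ y - 1|) volume x y := fun x y =>
    hc.intervalIntegrable _ _
  have hb : ∀ y, |trap a δ y - 1| ≤ 1 := fun y => by
    rw [abs_le]
    constructor <;> linarith [trap_nonneg a δ y, trap_le_one a δ y]
  have h1 : ∀ x y : ℝ, x ≤ y → ∫ s in x..y, |trap a δ s - 1| ≤ y - x := by
    intro x y hxy
    have := intervalIntegral.integral_mono_on hxy (hi x y) (g := fun _ => (1 : ℝ))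
      (by simp) (fun s _ => hb s)
    simpa using this
  have h2 : ∫ s in (-a + δ)..(a - δ), |trap a δ s - 1| = 0 := by
    have : ∫ s in (-a + δ)..(a - δ), |trap a δ s - 1| = ∫ s in (-a + δ)..(a - δ), (0 : ℝ) := by
      apply intervalIntegral.integral_congr
      intro s hs
      rw [uIcc_of_le (by linarith)] at hs
      show |trap a δ s - 1| = 0
      rw [trap_one hδ (abs_le.2 ⟨by linarith [hs.1], by linarith [hs.2]⟩)]
      simp
    rw [this]
    simp
  rw [← intervalIntegral.integral_add_adjacent_intervals (hi (-a) (-a + δ)) (hi (-a + δ) a),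
    ← intervalIntegral.integral_add_adjacent_intervals (hi (-a + δ) (a - δ)) (hi (a - δ) a), h2]
  have h3 := h1 (-a) (-a + δ) (by linarith)
  have h4 := h1 (a - δ) a (by linarith)
  linarith

section

variable {d : ℕ} {p : ℝ} {a tol am ε R : ℕ → ℝ}

/-- width of the ramps -/
noncomputable def dl (a tol : ℕ → ℝ) (j : ℕ) : ℝ := min (tol j / 2) (a j)

/-- lower edge -/
noncomputable def Lo (a ε R : ℕ → ℝ) (j : ℕ) : ℝ := R j * Real.exp (-(ε j * a j))

/-- upper edge -/
noncomputable def Up (a ε R : ℕ → ℝ) (j : ℕ) : ℝ := R j * Real.exp (ε j * a j)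

/-- the annulus profiles -/
noncomputable def ff (a tol ε R : ℕ → ℝ) (j : ℕ) (r : ℝ) : ℝ :=
  trap (a j) (dl a tol j) ((Real.log (max r (Lo a ε R j)) - Real.log (R j)) / ε j)

/-- the radial profile of the potential -/
noncomputable def VV (a tol am ε R : ℕ → ℝ) (r : ℝ) : ℂ :=
  ∑' j, ((am j * ff a tol ε R j r : ℝ) : ℂ) * Complex.I

lemma dl_pos (h : Seqs d p a tol am ε R) (j : ℕ) : 0 < dl a tol j :=
  lt_min (by linarith [h.htol j]) (by linarith [h.ha j])

lemma Lo_pos (h : Seqs d p a tol am ε R) (j : ℕ) : 0 < Lo a ε R j := by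
  have := h.hR j
  unfold Lo
  positivity

lemma am_le (h : Seqs d p a tol am ε R) (j : ℕ) : am j ≤ (1 / 4) ^ j := by
  induction j with
  | zero => rw [h.ham0]; norm_num
  | succ j ih =>
    rw [pow_succ]
    exact (h.hams j).trans (mul_le_mul_of_nonneg_right ih (by norm_num))

lemma am_anti (h : Seqs d p a tol am ε R) : Antitone am := by
  apply antitone_nat_of_succ_le
  intro j
  have h1 := h.hams j
  have h2 := h.ham j
  linarith

lemma am_le_one (h : Seqs d p a tol am ε R) (j : ℕ) : am j ≤ 1 := by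
  have := am_anti h (Nat.zero_le j)
  rwa [h.ham0] at this

lemma am_lt (h : Seqs d p a tol am ε R) {i j : ℕ} (hij : j < i) : am i ≤ am j * tol j :=
  (am_anti h hij).trans (h.hamt j)

lemma ff_cont (h : Seqs d p a tol am ε R) (j : ℕ) : Continuous (ff a tol ε R j) := by
  unfold ff
  apply (trap_cont _ _).comp
  apply Continuous.div_const
  apply Continuous.sub _ continuous_const
  apply Continuous.log (by fun_prop)
  intro r
  have := Lo_pos h j
  have h2 : Lo a ε R j ≤ max r (Lo a ε R j) := le_max_right _ _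
  linarith

lemma ff_at (h : Seqs d p a tol am ε R) (j : ℕ) (y : ℝ) :
    ff a tol ε R j (R j * Real.exp (ε j * y)) = trap (a j) (dl a tol j) y := by
  have hR := h.hR j
  have hε := h.hε j
  have hδ := dl_pos h j
  unfold ff
  rcases le_or_gt (-a j) y with hy | hy
  · have h1 : max (R j * Real.exp (ε j * y)) (Lo a ε R j) = R j * Real.exp (ε j * y) := by
      apply max_eq_left
      unfold Lo
      apply mul_le_mul_of_nonneg_left _ hR.le
      apply Real.exp_le_exp.2
      nlinarith
    rw [h1, Real.log_mul hR.ne' (Real.exp_pos _).ne', Real.log_exp]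
    congr 1
    field_simp
    ring
  · have h1 : max (R j * Real.exp (ε j * y)) (Lo a ε R j) = Lo a ε R j := by
      apply max_eq_right
      unfold Lo
      apply mul_le_mul_of_nonneg_left _ hR.le
      apply Real.exp_le_exp.2
      nlinarith
    have h2 : (Real.log (Lo a ε R j) - Real.log (R j)) / ε j = -a j := by
      unfold Lo
      rw [Real.log_mul hR.ne' (Real.exp_pos _).ne', Real.log_exp]
      field_simp
      ring
    have ha := h.ha j
    rw [h1, h2, trap_zero hδ (by rw [abs_neg, abs_of_pos (by linarith)]),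
      trap_zero hδ (by rw [abs_of_neg (by linarith)]; linarith)]

lemma ff_supp (h : Seqs d p a tol am ε R) {j : ℕ} {r : ℝ} (hr : ff a tol ε R j r ≠ 0) :
    Lo a ε R j < r ∧ r < Up a ε R j := by
  have hR := h.hR j
  have hε := h.hε j
  have hδ := dl_pos h j
  have ha := h.ha j
  have hLo := Lo_pos h j
  have h1 : Lo a ε R j < r := by
    by_contra hcon
    push Not at hcon
    apply hr
    unfold ff
    rw [max_eq_right hcon]
    have h2 : (Real.log (Lo a ε R j) - Real.log (R j)) / ε j = -a j := by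
      unfold Lo
      rw [Real.log_mul hR.ne' (Real.exp_pos _).ne', Real.log_exp]
      field_simp
      ring
    rw [h2, trap_zero hδ (by rw [abs_neg, abs_of_pos (by linarith)])]
  refine ⟨h1, ?_⟩
  by_contra hcon
  push Not at hcon
  apply hr
  have hr0 : 0 < r := hLo.trans h1
  have e1 : R j * Real.exp (ε j * (Real.log (r / R j) / ε j)) = r := by
    have : ε j * (Real.log (r / R j) / ε j) = Real.log (r / R j) := by field_simp
    rw [this, Real.exp_log (by positivity)]
    field_simp
  rw [← e1, ff_at h]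
  apply trap_zero hδ
  have h3 : a j ≤ Real.log (r / R j) / ε j := by
    rw [le_div_iff₀ hε]
    have : Real.exp (ε j * a j) ≤ r / R j := by
      rw [le_div_iff₀ hR]
      unfold Up at hcon
      linarith
    have h4 := Real.log_le_log (Real.exp_pos _) this
    rw [Real.log_exp] at h4
    linarith
  exact h3.trans (le_abs_self _)

lemma Lo_lt_Up (h : Seqs d p a tol am ε R) (j : ℕ) : Lo a ε R j < Up a ε R j := by
  unfold Lo Up
  apply mul_lt_mul_of_pos_left _ (h.hR j)
  apply Real.exp_lt_exp.2
  have h1 := h.hε j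
  have h2 := h.ha j
  have : 0 < ε j * a j := by positivity
  linarith

lemma Up_le_Lo_succ (h : Seqs d p a tol am ε R) (j : ℕ) : Up a ε R j ≤ Lo a ε R (j + 1) := h.hLU j

lemma Up_mono (h : Seqs d p a tol am ε R) : Monotone (Up a ε R) :=
  monotone_nat_of_le_succ fun j => (Up_le_Lo_succ h j).trans (Lo_lt_Up h (j + 1)).le

lemma Up_le_Lo (h : Seqs d p a tol am ε R) {i j : ℕ} (hij : i < j) : Up a ε R i ≤ Lo a ε R j := by
  obtain ⟨k, rfl⟩ : ∃ k, j = k + 1 := ⟨j - 1, by omega⟩
  exact (Up_mono h (by omega : i ≤ k)).trans (Up_le_Lo_succ h k)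

lemma Lo_ge (h : Seqs d p a tol am ε R) (j : ℕ) : 1 ≤ Lo a ε R j := by
  rcases Nat.eq_zero_or_pos j with h0 | h0
  · rw [h0]; exact h.hL0
  · have h1 : 1 ≤ Lo a ε R 0 := h.hL0
    exact (h1.trans (Lo_lt_Up h 0).le).trans (Up_le_Lo h h0)

lemma ff_unique (h : Seqs d p a tol am ε R) {i j : ℕ} {r : ℝ} (hi : ff a tol ε R i r ≠ 0)
    (hj : ff a tol ε R j r ≠ 0) : i = j := by
  obtain ⟨h1, h2⟩ := ff_supp h hi
  obtain ⟨h3, h4⟩ := ff_supp h hj
  rcases lt_trichotomy i j with hij | hij | hij
  · have := Up_le_Lo h hij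
    linarith
  · exact hij
  · have := Up_le_Lo h hij
    linarith

lemma VV_eq (h : Seqs d p a tol am ε R) {j : ℕ} {r : ℝ} (hj : ∀ i, i ≠ j → ff a tol ε R i r = 0) :
    VV a tol am ε R r = ((am j * ff a tol ε R j r : ℝ) : ℂ) * Complex.I := by
  unfold VV
  rw [tsum_eq_single j]
  intro i hi
  rw [hj i hi]
  simp

lemma VV_cases (h : Seqs d p a tol am ε R) (r : ℝ) : VV a tol am ε R r = 0 ∨
    ∃ j, ff a tol ε R j r ≠ 0 ∧ VV a tol am ε R r = ((am j * ff a tol ε R j r : ℝ) : ℂ) * Complex.I := by
  by_cases hex : ∃ j, ff a tol ε R j r ≠ 0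
  · obtain ⟨j, hj⟩ := hex
    right
    refine ⟨j, hj, VV_eq h ?_⟩
    intro i hi
    by_contra hcon
    exact hi (ff_unique h hcon hj)
  · left
    push Not at hex
    unfold VV
    simp [hex]

lemma VV_norm {j : ℕ} {r : ℝ} (h : Seqs d p a tol am ε R)
    (hV : VV a tol am ε R r = ((am j * ff a tol ε R j r : ℝ) : ℂ) * Complex.I) :
    ‖VV a tol am ε R r‖ ≤ am j := by
  have h1 : 0 ≤ ff a tol ε R j r := trap_nonneg _ _ _
  have h2 : ff a tol ε R j r ≤ 1 := trap_le_one _ _ _
  have h3 := h.ham j
  rw [hV, norm_mul, Complex.norm_I, mul_one, Complex.norm_real, Real.norm_of_nonneg (by positivity)]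
  nlinarith

lemma VV_bdd (h : Seqs d p a tol am ε R) (r : ℝ) : ‖VV a tol am ε R r‖ ≤ 1 := by
  rcases VV_cases h r with h0 | ⟨j, -, h0⟩
  · rw [h0, norm_zero]; exact zero_le_one
  · exact (VV_norm h h0).trans (am_le_one h j)

lemma VV_cont (h : Seqs d p a tol am ε R) : Continuous (VV a tol am ε R) := by
  unfold VV
  refine continuous_tsum (u := fun j => (1 / 4 : ℝ) ^ j) ?_ ?_ ?_
  · intro j
    have := ff_cont h j
    fun_prop
  · exact summable_geometric_of_lt_one (by norm_num) (by norm_num)
  · intro j r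
    have h1 : 0 ≤ ff a tol ε R j r := trap_nonneg _ _ _
    have h2 : ff a tol ε R j r ≤ 1 := trap_le_one _ _ _
    have h3 := h.ham j
    rw [norm_mul, Complex.norm_I, mul_one, Complex.norm_real, Real.norm_of_nonneg (by positivity)]
    have := am_le h j
    nlinarith

lemma VV_zero (h : Seqs d p a tol am ε R) {r : ℝ} (hr : r ≤ 1) : VV a tol am ε R r = 0 := by
  rcases VV_cases h r with h0 | ⟨j, hj, -⟩
  · exact h0
  · have := (ff_supp h hj).1
    have := Lo_ge h j
    linarith

/-- the potential satisfies the hypotheses of the stage theorem at every stage -/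
theorem VV_ann (h : Seqs d p a tol am ε R) (j : ℕ) :
    Ann (a j) (tol j) (ε j) (R j) (am j) (VV a tol am ε R) := by
  have hR := h.hR j
  have hε := h.hε j
  have hδ := dl_pos h j
  have ha := h.ha j
  have ham := h.ham j
  have htol := h.htol j
  have hins : ∀ y, |y| ≤ a j → VV a tol am ε R (R j * Real.exp (ε j * y)) =
      ((am j * trap (a j) (dl a tol j) y : ℝ) : ℂ) * Complex.I := by
    intro y hy
    rw [abs_le] at hy
    rw [← ff_at h]
    apply VV_eq h
    intro i hi
    by_contra hcon
    obtain ⟨h1, h2⟩ := ff_supp h hcon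
    have h3 : Lo a ε R j ≤ R j * Real.exp (ε j * y) := by
      unfold Lo
      apply mul_le_mul_of_nonneg_left _ hR.le
      apply Real.exp_le_exp.2
      nlinarith
    have h4 : R j * Real.exp (ε j * y) ≤ Up a ε R j := by
      unfold Up
      apply mul_le_mul_of_nonneg_left _ hR.le
      apply Real.exp_le_exp.2
      nlinarith
    rcases lt_or_gt_of_ne hi with hij | hij
    · have := Up_le_Lo h hij
      linarith
    · have := Up_le_Lo h hij
      linarith
  refine ⟨hε, h.hεt j, hR, ham, VV_cont h, ⟨1, VV_bdd h⟩, ⟨1, one_pos, fun r _ hr => VV_zero h hr⟩,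
    ?_, ?_, ?_⟩
  · intro y hy
    have hexp : 0 < Real.exp (-(2 * ε j * y)) := Real.exp_pos _
    rcases VV_cases h (R j * Real.exp (ε j * y)) with h0 | ⟨i, hi, h0⟩
    · rw [h0, norm_zero]
      positivity
    · have hne : i ≠ j := by
        intro hij
        rw [hij, ff_at h, trap_zero hδ hy] at hi
        exact hi rfl
      obtain ⟨h1, h2⟩ := ff_supp h hi
      rcases lt_or_gt_of_ne hne with hij | hij
      · -- inner annuli
        obtain ⟨k, hk⟩ : ∃ k, j = k + 1 := ⟨j - 1, by omega⟩
        have h3 : R j * Real.exp (ε j * y) ≤ Up a ε R k :=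
          h2.le.trans (Up_mono h (by omega))
        have h4 : (Up a ε R k) ^ 2 ≤ tol j * am j * R j ^ 2 := by
          rw [hk]
          exact h.hin k
        have h5 : (R j * Real.exp (ε j * y)) ^ 2 ≤ tol j * am j * R j ^ 2 :=
          (pow_le_pow_left₀ (by positivity) h3 2).trans h4
        have h6 : Real.exp (ε j * y) ^ 2 ≤ tol j * am j := by
          have hR2 : 0 < R j ^ 2 := by positivity
          have : R j ^ 2 * Real.exp (ε j * y) ^ 2 ≤ R j ^ 2 * (tol j * am j) := by
            calc R j ^ 2 * Real.exp (ε j * y) ^ 2 = (R j * Real.exp (ε j * y)) ^ 2 := by ring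
              _ ≤ tol j * am j * R j ^ 2 := h5
              _ = _ := by ring
          exact le_of_mul_le_mul_left this hR2
        have h7 : Real.exp (ε j * y) ^ 2 * Real.exp (-(2 * ε j * y)) = 1 := by
          rw [← Real.exp_nat_mul, ← Real.exp_add]
          have : ((2 : ℕ) : ℝ) * (ε j * y) + -(2 * ε j * y) = 0 := by push_cast; ring
          rw [this, Real.exp_zero]
        have h8 : 1 ≤ tol j * am j * Real.exp (-(2 * ε j * y)) := by
          rw [← h7]
          exact mul_le_mul_of_nonneg_right h6 hexp.le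
        refine (VV_bdd h _).trans ?_
        have h9 : 0 ≤ am j * tol j := by positivity
        nlinarith
      · refine (VV_norm h h0).trans ((am_lt h hij).trans ?_)
        have h9 : 0 ≤ am j * tol j := by positivity
        nlinarith
  · intro y hy
    exact VV_norm h (j := j) (by rw [hins y hy, ff_at h])
  · have hle : ∫ y in (-a j)..a j, ‖VV a tol am ε R (R j * Real.exp (ε j * y)) / am j - Complex.I‖ =
        ∫ y in (-a j)..a j, |trap (a j) (dl a tol j) y - 1| := by
      apply intervalIntegral.integral_congr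
      intro y hy
      rw [uIcc_of_le (by linarith)] at hy
      show ‖VV a tol am ε R (R j * Real.exp (ε j * y)) / am j - Complex.I‖ = _
      rw [hins y (abs_le.2 hy)]
      have hamc : (am j : ℂ) ≠ 0 := by exact_mod_cast ham.ne'
      have e1 : ((am j * trap (a j) (dl a tol j) y : ℝ) : ℂ) * Complex.I / am j - Complex.I =
          ((trap (a j) (dl a tol j) y - 1 : ℝ) : ℂ) * Complex.I := by
        push_cast
        field_simp
      rw [e1, norm_mul, Complex.norm_I, mul_one, Complex.norm_real, Real.norm_eq_abs]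
    rw [hle]
    refine (trap_int hδ (min_le_right _ _)).trans ?_
    have : dl a tol j ≤ tol j / 2 := min_le_left _ _
    linarith

end

end Pool.Agent.TH795.LT
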