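import Pool.Agent.TH795.LT.Cor
import Pool.Agent.TH795.LT.GF
import Pool.Agent.TH795.LT.ODEP

set_option autoImplicit false

/-!
# The regular solution
-/

open MeasureTheory Filter Topology Set

namespace Pool.Agent.TH795.LT

open Pool.Agent.Helper209.AC (IsSol)

/-- The coefficient of the radial equation in the logarithmic variable. -/
noncomputable def PP (ε η : ℝ) (v : ℝ → ℂ) (z : ℂ) (y : ℝ) : ℂ :=
  (η : ℂ) ^ 2 + (Real.exp (2 * ε * y) : ℂ) * (v y - z)

/-- argument of `G` -/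
noncomputable def xx (ε : ℝ) (z : ℂ) (y : ℝ) : ℂ :=
  -z * (Real.exp (2 * ε * y) : ℂ) / (4 * (ε : ℂ) ^ 2)

/-- regular solution for `v = 0` -/
noncomputable def reg (ε η : ℝ) (z : ℂ) (y : ℝ) : ℂ :=
  (Real.exp (η * y) : ℂ) * G (η / ε) (xx ε z y)

/-- derivative of the regular solution for `v = 0` -/
noncomputable def reg' (ε η : ℝ) (z : ℂ) (y : ℝ) : ℂ :=
  (Real.exp (η * y) : ℂ) * (η * G (η / ε) (xx ε z y) +
    2 * ε * (xx ε z y * G1 (η / ε) (xx ε z y)))

lemma hasDerivAt_expR (c y : ℝ) :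
    HasDerivAt (fun y : ℝ => (Real.exp (c * y) : ℂ)) ((Real.exp (c * y) : ℂ) * c) y := by
  have h1 : HasDerivAt (fun y : ℝ => c * y) (c * 1) y := (hasDerivAt_id y).const_mul c
  have h2 := h1.exp.ofReal_comp
  rw [mul_one] at h2
  exact h2.congr_deriv (by push_cast; ring)

lemma hasDerivAt_xx (ε : ℝ) (z : ℂ) (y : ℝ) :
    HasDerivAt (xx ε z) (2 * ε * xx ε z y) y := by
  have h1 := ((hasDerivAt_expR (2 * ε) y).const_mul (-z)).div_const (4 * (ε : ℂ) ^ 2)
  refine h1.congr_deriv ?_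
  unfold xx
  push_cast
  ring

lemma reg_sol {ε η : ℝ} (hε : 0 < ε) (hη : 0 ≤ η) (z : ℂ) :
    IsSol (PP ε η (fun _ => 0) z) (reg ε η z) (reg' ε η z) := by
  have hν : 0 ≤ η / ε := by positivity
  intro y
  have hx := hasDerivAt_xx ε z y
  have hG : HasDerivAt (fun y => G (η / ε) (xx ε z y))
      (G1 (η / ε) (xx ε z y) * (2 * ε * xx ε z y)) y :=
    (G_hasDerivAt hν (xx ε z y)).comp y hx
  have hG1 : HasDerivAt (fun y => G1 (η / ε) (xx ε z y))
      (G2 (η / ε) (xx ε z y) * (2 * ε * xx ε z y)) y :=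
    (G1_hasDerivAt hν (xx ε z y)).comp y hx
  have hode := G_ode hν (xx ε z y)
  have hεc : (ε : ℂ) ≠ 0 := by exact_mod_cast hε.ne'
  constructor
  · refine ((hasDerivAt_expR η y).mul hG).congr_deriv ?_
    unfold reg'
    ring
  · have h1 := (hasDerivAt_expR η y).mul ((hG.const_mul (η : ℂ)).add
      ((hx.mul hG1).const_mul (2 * (ε : ℂ))))
    refine h1.congr_deriv ?_
    have e1 : (Real.exp (2 * ε * y) : ℂ) * (0 - z) = 4 * (ε : ℂ) ^ 2 * xx ε z y := by
      unfold xx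
      field_simp
      ring
    unfold PP reg
    rw [e1]
    have e2 : G (η / ε) (xx ε z y) = xx ε z y * G2 (η / ε) (xx ε z y) +
      ((η : ℂ) / ε + 1) * G1 (η / ε) (xx ε z y) := by
      rw [← hode]
      push_cast
      ring
    have e3 : (4 * (ε : ℂ) ^ 2 * xx ε z y) * ((Real.exp (η * y) : ℂ) * G (η / ε) (xx ε z y)) =
        (4 * (ε : ℂ) ^ 2 * xx ε z y) * ((Real.exp (η * y) : ℂ) * (xx ε z y * G2 (η / ε) (xx ε z y) +
      ((η : ℂ) / ε + 1) * G1 (η / ε) (xx ε z y))) := by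
      rw [← e2]
    rw [add_mul, e3]
    simp only [Pi.mul_apply, Pi.add_apply]
    field_simp
    ring

lemma reg_diff {ε η : ℝ} (hε : 0 < ε) (hη : 0 ≤ η) (y : ℝ) :
    Differentiable ℂ (fun z => reg ε η z y) ∧ Differentiable ℂ (fun z => reg' ε η z y) := by
  have hν : 0 ≤ η / ε := by positivity
  have hx : Differentiable ℂ (fun z => xx ε z y) := by
    unfold xx
    fun_prop
  have hG : Differentiable ℂ (G (η / ε)) := fun x => (G_hasDerivAt hν x).differentiableAt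
  have hG1 : Differentiable ℂ (G1 (η / ε)) := fun x => (G1_hasDerivAt hν x).differentiableAt
  have h1 : Differentiable ℂ (fun z => G (η / ε) (xx ε z y)) := hG.comp hx
  have h2 : Differentiable ℂ (fun z => G1 (η / ε) (xx ε z y)) := hG1.comp hx
  unfold reg reg'
  constructor
  · exact h1.const_mul _
  · exact ((h1.const_mul _).add ((hx.mul h2).const_mul _)).const_mul _

lemma xx_tendsto {ε : ℝ} (hε : 0 < ε) (z : ℂ) : Tendsto (xx ε z) atBot (𝓝 0) := by
  have h1 : Tendsto (fun y : ℝ => Real.exp (2 * ε * y)) atBot (𝓝 0) := by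
    apply Real.tendsto_exp_atBot.comp
    exact tendsto_id.const_mul_atBot (by positivity)
  have h2 : Tendsto (fun y : ℝ => (Real.exp (2 * ε * y) : ℂ)) atBot (𝓝 ((0 : ℝ) : ℂ)) :=
    (Complex.continuous_ofReal.tendsto 0).comp h1
  have h3 := (h2.const_mul (-z)).div_const (4 * (ε : ℂ) ^ 2)
  have e : -z * ((0 : ℝ) : ℂ) / (4 * (ε : ℂ) ^ 2) = 0 := by simp
  rw [e] at h3
  exact h3

lemma G_xx_tendsto {ε η : ℝ} (hε : 0 < ε) (hη : 0 ≤ η) (z : ℂ) :
    Tendsto (fun y => G (η / ε) (xx ε z y)) atBot (𝓝 1) := by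
  have hν : 0 ≤ η / ε := by positivity
  have h1 := (G_hasDerivAt hν 0).continuousAt.tendsto.comp (xx_tendsto hε z)
  rw [G_zero] at h1
  exact h1

lemma reg_tendsto {ε η : ℝ} (hε : 0 < ε) (hη : 0 < η) (z : ℂ) :
    Tendsto (reg ε η z) atBot (𝓝 0) ∧ Tendsto (reg' ε η z) atBot (𝓝 0) := by
  have hν : 0 ≤ η / ε := by positivity
  have h1 : Tendsto (fun y : ℝ => Real.exp (η * y)) atBot (𝓝 0) := by
    apply Real.tendsto_exp_atBot.comp
    exact tendsto_id.const_mul_atBot (by positivity)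
  have h2 : Tendsto (fun y : ℝ => (Real.exp (η * y) : ℂ)) atBot (𝓝 ((0 : ℝ) : ℂ)) :=
    (Complex.continuous_ofReal.tendsto 0).comp h1
  have hG := G_xx_tendsto hε hη.le z
  have hG1 : Tendsto (fun y => G1 (η / ε) (xx ε z y)) atBot (𝓝 (G1 (η / ε) 0)) :=
    (G1_hasDerivAt hν 0).continuousAt.tendsto.comp (xx_tendsto hε z)
  have hx := xx_tendsto hε z
  constructor
  · have := h2.mul hG
    rw [Complex.ofReal_zero, zero_mul] at this
    exact this
  · have := h2.mul ((hG.const_mul (η : ℂ)).add ((hx.mul hG1).const_mul (2 * (ε : ℂ))))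
    rw [Complex.ofReal_zero, zero_mul] at this
    exact this

lemma reg_ne {ε η : ℝ} (hε : 0 < ε) (hη : 0 ≤ η) (z : ℂ) : ∀ᶠ y in atBot, reg ε η z y ≠ 0 := by
  have h1 := G_xx_tendsto hε hη z
  have h2 : ∀ᶠ y in atBot, G (η / ε) (xx ε z y) ≠ 0 := h1.eventually_ne one_ne_zero
  filter_upwards [h2] with y hy
  unfold reg
  apply mul_ne_zero _ hy
  exact_mod_cast (Real.exp_pos _).ne'

/-- The regular solution, entire in `z`. -/
theorem exists_regular {ε η : ℝ} (hε : 0 < ε) (hη : 0 ≤ η) {v : ℝ → ℂ} (hv : Continuous v)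
    {y0 : ℝ} (hv0 : ∀ y ≤ y0, v y = 0) :
    ∃ S T : ℂ → ℝ → ℂ, (∀ z, IsSol (PP ε η v z) (S z) (T z)) ∧
      (∀ z, ∀ y ≤ y0, S z y = reg ε η z y ∧ T z y = reg' ε η z y) ∧
      (∀ y, Differentiable ℂ (fun z => S z y)) ∧ (∀ y, Differentiable ℂ (fun z => T z y)) := by
  have hexpc : Continuous fun y : ℝ => (Real.exp (2 * ε * y) : ℂ) := by fun_prop
  obtain ⟨S, T, h1, h2, h3⟩ := exists_sol_param
    (fun y => (η : ℂ) ^ 2 + (Real.exp (2 * ε * y) : ℂ) * v y)
    (fun y => -(Real.exp (2 * ε * y) : ℂ)) (by fun_prop) (by fun_prop) y0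
  have hP : ∀ z, (fun x => (fun y : ℝ => (η : ℂ) ^ 2 + (Real.exp (2 * ε * y) : ℂ) * v y) x
      + z * (fun y : ℝ => -(Real.exp (2 * ε * y) : ℂ)) x) = PP ε η v z := by
    intro z
    funext y
    unfold PP
    ring
  let w : ℂ → ℂ × (ℂ × ℂ) := fun z => (z, (reg ε η z y0, reg' ε η z y0))
  have hw : Differentiable ℂ w :=
    differentiable_id.prodMk ((reg_diff hε hη y0).1.prodMk (reg_diff hε hη y0).2)
  refine ⟨fun z y => if y ≤ y0 then reg ε η z y else S (w z) y,
    fun z y => if y ≤ y0 then reg' ε η z y else T (w z) y, ?_, ?_, ?_, ?_⟩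
  · intro z
    have a1 := (h1 (w z)).1
    have a2 : IsSol (PP ε η v z) (S (w z)) (T (w z)) := by
      rw [← hP z]
      exact a1
    apply IsSol_glue (reg_sol hε hη z) a2
    · intro y hy
      unfold PP
      rw [hv0 y hy]
    · exact (h1 (w z)).2.1
    · exact (h1 (w z)).2.2
  · intro z y hy
    constructor
    · exact if_pos hy
    · exact if_pos hy
  · intro y
    by_cases hy : y ≤ y0
    · simp only [if_pos hy]
      exact (reg_diff hε hη y).1
    · simp only [if_neg hy]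
      exact (h2 y).comp hw
  · intro y
    by_cases hy : y ≤ y0
    · simp only [if_pos hy]
      exact (reg_diff hε hη y).2
    · simp only [if_neg hy]
      exact (h3 y).comp hw

/-- positivity of the energy of the regular solution -/
theorem left_pos {P φ φ' : ℝ → ℂ} {ω : ℂ} {x1 c : ℝ} (h : IsSol P φ φ') (hω : 0 ≤ ω.re)
    (hc : 0 < c) (hP : ∀ y ≤ x1, c ≤ (ω * P y).re)
    (h0 : Tendsto φ atBot (𝓝 0)) (h0' : Tendsto φ' atBot (𝓝 0)) (hne : ∀ᶠ y in atBot, φ y ≠ 0) :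
    ∀ y ≤ x1, 0 ≤ en ω φ φ' y ∧ φ y ≠ 0 := by
  have hmono : MonotoneOn (en ω φ φ') (Iic x1) := en_mono h hω (convex_Iic x1)
    (fun y hy => hc.le.trans (hP y hy))
  have hlim : Tendsto (en ω φ φ') atBot (𝓝 0) := by
    have h1 : Tendsto (fun y => starRingEnd ℂ (φ y)) atBot (𝓝 0) := by
      have := (Complex.continuous_conj.tendsto 0).comp h0
      rw [map_zero] at this
      exact this
    have h2 := (Complex.continuous_re.tendsto _).comp ((h1.mul h0').const_mul ω)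
    rw [mul_zero, mul_zero, Complex.zero_re] at h2
    exact h2
  have hnn : ∀ y ≤ x1, 0 ≤ en ω φ φ' y := by
    intro y hy
    apply le_of_tendsto hlim
    filter_upwards [eventually_le_atBot y] with s hs
    exact hmono (hs.trans hy) hy hs
  intro y hy
  refine ⟨hnn y hy, ?_⟩
  intro hz
  have hey : en ω φ φ' y = 0 := by
    unfold en
    rw [hz]
    simp
  have hzero : ∀ s ≤ y, en ω φ φ' s = 0 := by
    intro s hs
    apply le_antisymm _ (hnn s (hs.trans hy))
    rw [← hey]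
    exact hmono (hs.trans hy) hy hs
  have hφ : ∀ s < y, φ s = 0 := by
    intro s hs
    have h1 : deriv (en ω φ φ') s = 0 := by
      have : en ω φ φ' =ᶠ[𝓝 s] fun _ => 0 := by
        filter_upwards [Iio_mem_nhds hs] with r hr
        exact hzero r (le_of_lt hr)
      rw [this.deriv_eq]
      simp
    rw [(hasDerivAt_en h s).deriv] at h1
    unfold den at h1
    have h2 := hP s (hs.le.trans hy)
    have h3 : 0 ≤ ω.re * ‖φ' s‖ ^ 2 := by positivity
    have h4 : c * ‖φ s‖ ^ 2 ≤ (ω * P s).re * ‖φ s‖ ^ 2 :=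
      mul_le_mul_of_nonneg_right h2 (by positivity)
    have h5 : c * ‖φ s‖ ^ 2 ≤ 0 := by linarith
    have h6 : ‖φ s‖ ^ 2 ≤ 0 := by
      by_contra hcon
      push Not at hcon
      have := mul_pos hc hcon
      linarith
    have h7 : ‖φ s‖ = 0 := by
      have := sq_nonneg ‖φ s‖
      exact pow_eq_zero_iff (two_ne_zero) |>.1 (le_antisymm h6 this)
    exact norm_eq_zero.1 h7
  obtain ⟨s, hs1, hs2⟩ := (hne.and (eventually_lt_atBot y)).exists
  exact hs1 (hφ s hs2)

/-- negativity of the energy of a solution vanishing at `b` -/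
theorem right_neg {P φ φ' : ℝ → ℂ} {ω : ℂ} {x1 b c : ℝ} (h : IsSol P φ φ') (hω : 0 ≤ ω.re)
    (hc : 0 < c) (hP : ∀ y, x1 ≤ y → c ≤ (ω * P y).re)
    (h0 : φ b = 0) (h0' : φ' b ≠ 0) :
    ∀ y ∈ Ico x1 b, en ω φ φ' y ≤ 0 ∧ φ y ≠ 0 := by
  have hmono : MonotoneOn (en ω φ φ') (Ici x1) := en_mono h hω (convex_Ici x1)
    (fun y hy => hc.le.trans (hP y hy))
  have heb : en ω φ φ' b = 0 := by
    unfold en
    rw [h0]
    simp
  intro y hy
  have hle : ∀ s ∈ Icc y b, en ω φ φ' s ≤ 0 := by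
    intro s hs
    rw [← heb]
    exact hmono (hy.1.trans hs.1) (hy.1.trans hy.2.le) hs.2
  refine ⟨hle y ⟨le_rfl, hy.2.le⟩, ?_⟩
  intro hz
  have hey : en ω φ φ' y = 0 := by
    unfold en
    rw [hz]
    simp
  have hzero : ∀ s ∈ Icc y b, en ω φ φ' s = 0 := by
    intro s hs
    apply le_antisymm (hle s hs)
    rw [← hey]
    exact hmono hy.1 (hy.1.trans hs.1) hs.1
  have hφ : ∀ s ∈ Ioo y b, φ s = 0 := by
    intro s hs
    have h1 : deriv (en ω φ φ') s = 0 := by
      have : en ω φ φ' =ᶠ[𝓝 s] fun _ => 0 := by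
        filter_upwards [Ioo_mem_nhds hs.1 hs.2] with r hr
        exact hzero r ⟨hr.1.le, hr.2.le⟩
      rw [this.deriv_eq]
      simp
    rw [(hasDerivAt_en h s).deriv] at h1
    unfold den at h1
    have h2 := hP s (hy.1.trans hs.1.le)
    have h3 : 0 ≤ ω.re * ‖φ' s‖ ^ 2 := by positivity
    have h4 : c * ‖φ s‖ ^ 2 ≤ (ω * P s).re * ‖φ s‖ ^ 2 :=
      mul_le_mul_of_nonneg_right h2 (by positivity)
    have h5 : c * ‖φ s‖ ^ 2 ≤ 0 := by linarith
    have h6 : ‖φ s‖ ^ 2 ≤ 0 := by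
      by_contra hcon
      push Not at hcon
      have := mul_pos hc hcon
      linarith
    have h7 : ‖φ s‖ = 0 := by
      have := sq_nonneg ‖φ s‖
      exact pow_eq_zero_iff (two_ne_zero) |>.1 (le_antisymm h6 this)
    exact norm_eq_zero.1 h7
  have hφ' : ∀ s ∈ Ioo y b, φ' s = 0 := by
    intro s hs
    have h1 : deriv φ s = 0 := by
      have : φ =ᶠ[𝓝 s] fun _ => 0 := by
        filter_upwards [Ioo_mem_nhds hs.1 hs.2] with r hr
        exact hφ r hr
      rw [this.deriv_eq]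
      simp
    rwa [(h s).1.deriv] at h1
  apply h0'
  have hcont : Tendsto φ' (𝓝[<] b) (𝓝 (φ' b)) := (h b).2.continuousAt.continuousWithinAt
  have hc0 : Tendsto φ' (𝓝[<] b) (𝓝 0) := by
    apply tendsto_const_nhds.congr'
    filter_upwards [Ioo_mem_nhdsLT hy.2] with s hs
    exact (hφ' s hs).symm
  exact tendsto_nhds_unique hcont hc0

end Pool.Agent.TH795.LT
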