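import Mathlib

set_option autoImplicit false

/-!
# Selection of the sequences
-/

open Filter Topology Set

namespace Pool.Agent.TH795.LT

/-- the radius as a function of the relative thickness -/
noncomputable def Rf (d : ℕ) (K ε : ℝ) : ℝ := (K / ε) ^ (1 / (d : ℝ))

lemma Rf_pos {d : ℕ} {K ε : ℝ} (hK : 0 < K) (hε : 0 < ε) : 0 < Rf d K ε := by
  unfold Rf
  positivity

lemma Rf_pow {d : ℕ} (hd : 2 ≤ d) {K ε : ℝ} (hK : 0 < K) (hε : 0 < ε) :
    Rf d K ε ^ d = K / ε := by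
  unfold Rf
  rw [← Real.rpow_natCast, ← Real.rpow_mul (by positivity)]
  have : (1 / (d : ℝ)) * d = 1 := by
    have : (d : ℝ) ≠ 0 := by
      have : (0 : ℝ) < d := by exact_mod_cast (by omega : 0 < d)
      exact this.ne'
    field_simp
  rw [this, Real.rpow_one]

lemma Rf_tendsto {d : ℕ} (hd : 2 ≤ d) {K : ℝ} (hK : 0 < K) :
    Tendsto (Rf d K) (𝓝[>] 0) atTop := by
  have hd0 : (0 : ℝ) < d := by exact_mod_cast (by omega : 0 < d)
  have h1 : Tendsto (fun ε : ℝ => K / ε) (𝓝[>] 0) atTop := by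
    simp only [div_eq_mul_inv]
    exact tendsto_inv_nhdsGT_zero.const_mul_atTop hK
  exact (tendsto_rpow_atTop (by positivity : 0 < 1 / (d : ℝ))).comp h1

lemma Rf_mul_tendsto {d : ℕ} (hd : 2 ≤ d) {K : ℝ} (hK : 0 < K) :
    Tendsto (fun ε => Rf d K ε * ε) (𝓝[>] 0) (𝓝 0) := by
  have hd0 : (2 : ℝ) ≤ d := by exact_mod_cast hd
  have h1 : 0 < 1 - 1 / (d : ℝ) := by
    have : 1 / (d : ℝ) ≤ 1 / 2 := by gcongr
    linarith
  have h2 : Tendsto (fun ε : ℝ => K ^ (1 / (d : ℝ)) * ε ^ (1 - 1 / (d : ℝ))) (𝓝[>] 0)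
      (𝓝 (K ^ (1 / (d : ℝ)) * 0 ^ (1 - 1 / (d : ℝ)))) := by
    apply Tendsto.const_mul
    have := (Real.continuous_rpow_const h1.le).tendsto (0 : ℝ)
    exact this.mono_left nhdsWithin_le_nhds
  rw [Real.zero_rpow h1.ne', mul_zero] at h2
  refine h2.congr' ?_
  filter_upwards [self_mem_nhdsWithin] with ε hε
  have hε' : (0 : ℝ) < ε := hε
  unfold Rf
  rw [Real.div_rpow hK.le hε'.le, Real.rpow_sub hε', Real.rpow_one]
  field_simp

lemma good {d : ℕ} (hd : 2 ≤ d) {K a tol am B c : ℝ} (hK : 0 < K) (ha : 0 < a) (htol : 0 < tol)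
    (ham : 0 < am) (hc : 0 < c) :
    ∃ ε : ℝ, 0 < ε ∧ ε ≤ tol ∧ d * ε * a ≤ 1 ∧ B ≤ Rf d K ε * Real.exp (-(ε * a)) ∧
      B ^ 2 ≤ tol * am * Rf d K ε ^ 2 ∧ Real.sqrt am * (Rf d K ε * ε) < c := by
  have h1 : ∀ᶠ ε : ℝ in 𝓝[>] 0, ε ≤ tol := by
    have : ∀ᶠ ε : ℝ in 𝓝 0, ε ≤ tol := ge_mem_nhds htol
    exact this.filter_mono nhdsWithin_le_nhds
  have h2 : ∀ᶠ ε : ℝ in 𝓝[>] 0, d * ε * a ≤ 1 := by
    have : ∀ᶠ ε : ℝ in 𝓝 0, d * ε * a ≤ 1 := by
      have hc : Continuous fun ε : ℝ => d * ε * a := by fun_prop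
      exact hc.continuousAt.eventually (ge_mem_nhds (by simp))
    exact this.filter_mono nhdsWithin_le_nhds
  have h3 := (Rf_tendsto hd hK).eventually_ge_atTop (|B| * Real.exp 1)
  have h4 := (Rf_tendsto hd hK).eventually_ge_atTop (|B| / Real.sqrt (tol * am))
  have h5 : ∀ᶠ ε in 𝓝[>] 0, Real.sqrt am * (Rf d K ε * ε) < c := by
    have := (Rf_mul_tendsto hd hK).const_mul (Real.sqrt am)
    rw [mul_zero] at this
    exact this.eventually (gt_mem_nhds hc)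
  obtain ⟨ε, ⟨g1, g2, g3, g4, g5⟩, g0⟩ :=
    ((h1.and (h2.and (h3.and (h4.and h5)))).and self_mem_nhdsWithin).exists
  have hε : (0 : ℝ) < ε := g0
  have hd2 : (2 : ℝ) ≤ d := by exact_mod_cast hd
  refine ⟨ε, hε, g1, g2, ?_, ?_, g5⟩
  · have e1 : ε * a ≤ 1 := by
      have : 0 < ε * a := by positivity
      nlinarith
    have e2 : Real.exp (-1) ≤ Real.exp (-(ε * a)) := Real.exp_le_exp.2 (by linarith)
    have e3 : Real.exp 1 * Real.exp (-1) = 1 := by rw [← Real.exp_add]; simp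
    calc B ≤ |B| := le_abs_self B
      _ = |B| * Real.exp 1 * Real.exp (-1) := by rw [mul_assoc, e3, mul_one]
      _ ≤ Rf d K ε * Real.exp (-(ε * a)) := by
        apply mul_le_mul g3 e2 (Real.exp_pos _).le (Rf_pos hK hε).le
  · have e1 : 0 < Real.sqrt (tol * am) := Real.sqrt_pos.2 (by positivity)
    rw [div_le_iff₀ e1] at g4
    have e2 : B ^ 2 = |B| ^ 2 := (sq_abs B).symm
    rw [e2]
    calc |B| ^ 2 ≤ (Rf d K ε * Real.sqrt (tol * am)) ^ 2 :=
          pow_le_pow_left₀ (abs_nonneg _) g4 2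
      _ = _ := by
        rw [mul_pow, Real.sq_sqrt (by positivity)]
        ring

/-- The sequences. -/
structure Seqs (d : ℕ) (p : ℝ) (a tol am ε R : ℕ → ℝ) : Prop where
  ha : ∀ j, 1 ≤ a j
  htol : ∀ j, 0 < tol j
  ham : ∀ j, 0 < am j
  ham0 : am 0 = 1
  hams : ∀ j, am (j + 1) ≤ am j * (1 / 4)
  hamt : ∀ j, am (j + 1) ≤ am j * tol j
  hε : ∀ j, 0 < ε j
  hεt : ∀ j, ε j ≤ tol j
  hεa : ∀ j, d * ε j * a j ≤ 1
  hR : ∀ j, 0 < R j
  hL0 : 1 ≤ R 0 * Real.exp (-(ε 0 * a 0))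
  hLU : ∀ j, R j * Real.exp (ε j * a j) ≤ R (j + 1) * Real.exp (-(ε (j + 1) * a (j + 1)))
  hin : ∀ j, (R j * Real.exp (ε j * a j)) ^ 2 ≤ tol (j + 1) * am (j + 1) * R (j + 1) ^ 2
  hsmall : ∀ j : ℕ, Real.sqrt (am j) * (R j * ε j) < 1 / ((j : ℝ) + 1)
  hpow : ∀ j, am j ^ p * R j ^ d * a j * ε j = (1 / 2) ^ j

theorem exists_seqs {d : ℕ} (hd : 2 ≤ d) (p : ℝ) (a tol : ℕ → ℝ) (ha : ∀ j, 1 ≤ a j)
    (htol : ∀ j, 0 < tol j) : ∃ am ε R : ℕ → ℝ, Seqs d p a tol am ε R := by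
  let am : ℕ → ℝ := fun n => Nat.rec (motive := fun _ => ℝ) 1 (fun j x => x * min (1 / 4) (tol j)) n
  have ham0 : am 0 = 1 := rfl
  have hams : ∀ j, am (j + 1) = am j * min (1 / 4) (tol j) := fun j => rfl
  have ham : ∀ j, 0 < am j := by
    intro j
    induction j with
    | zero => rw [ham0]; exact one_pos
    | succ j ih =>
      rw [hams]
      have := htol j
      positivity
  let K : ℕ → ℝ := fun j => (1 / 2) ^ j / (am j ^ p * a j)
  have hK : ∀ j, 0 < K j := by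
    intro j
    have h1 := ham j
    have h2 := ha j
    have h3 : 0 < a j := by linarith
    show 0 < (1 / 2) ^ j / (am j ^ p * a j)
    positivity
  have hgood := fun (j : ℕ) (B : ℝ) => good hd (K := K j) (a := a j) (tol := tol j) (am := am j)
    (B := B) (c := 1 / ((j : ℝ) + 1)) (hK j) (by linarith [ha j]) (htol j) (ham j) (by positivity)
  choose st hst using hgood
  let B : ℕ → ℝ := fun n => Nat.rec (motive := fun _ => ℝ) 1
    (fun j x => Rf d (K j) (st j x) * Real.exp (st j x * a j)) n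
  have hB0 : B 0 = 1 := rfl
  have hBs : ∀ j, B (j + 1) = Rf d (K j) (st j (B j)) * Real.exp (st j (B j) * a j) := fun j => rfl
  refine ⟨am, fun j => st j (B j), fun j => Rf d (K j) (st j (B j)), ?_⟩
  refine ⟨ha, htol, ham, ham0, ?_, ?_, fun j => (hst j (B j)).1, fun j => (hst j (B j)).2.1,
    fun j => (hst j (B j)).2.2.1, fun j => Rf_pos (hK j) (hst j (B j)).1, ?_, ?_, ?_, ?_, ?_⟩
  · intro j
    rw [hams]
    exact mul_le_mul_of_nonneg_left (min_le_left _ _) (ham j).le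
  · intro j
    rw [hams]
    exact mul_le_mul_of_nonneg_left (min_le_right _ _) (ham j).le
  · have := (hst 0 (B 0)).2.2.2.1
    rw [hB0] at this
    exact this
  · intro j
    have := (hst (j + 1) (B (j + 1))).2.2.2.1
    rw [← hBs]
    exact this
  · intro j
    have := (hst (j + 1) (B (j + 1))).2.2.2.2.1
    rw [← hBs]
    exact this
  · intro j
    exact (hst j (B j)).2.2.2.2.2
  · intro j
    have h1 := ham j
    have h2 : 0 < a j := by linarith [ha j]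
    have h3 := (hst j (B j)).1
    rw [Rf_pow hd (hK j) h3]
    show am j ^ p * ((1 / 2) ^ j / (am j ^ p * a j) / st j (B j)) * a j * st j (B j) = (1 / 2) ^ j
    have h4 : am j ^ p ≠ 0 := (Real.rpow_pos_of_pos h1 p).ne'
    field_simp

end Pool.Agent.TH795.LT
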