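import Pool.Agent.TH795.LT.Est

set_option autoImplicit false

/-!
# Zeros of the truncated problem
-/

open MeasureTheory Filter Topology Set

namespace Pool.Agent.TH795.LT

open Pool.Agent.Helper209.AC (IsSol)

/-- the closeness of the characteristic function, with explicit constants -/
theorem close_est {a ε1 ε η0 Λ η : ℝ} {v : ℝ → ℂ} (h : Adm a ε1 ε η0 Λ η v) (ha : 0 < a)
    (hη0 : 0 < η0) {B s0 t c1 mκ Mκ L δ1 δ' Cu Cv I b : ℝ} {z : ℂ}
    (hz : ‖z‖ ≤ B) (hs0 : 0 < s0) (hzi : s0 ≤ z.im) (hzr : 0 < (z - (η : ℂ) ^ 2).re)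
    (ht : 0 < t) (ht1 : t ≤ 1) (htB : t * B ≤ s0 / 2) (hc0 : 0 < c1)
    (hc1 : 2 * ε1 ≤ c1) (hc2 : 2 * c1 ≤ t * η0 ^ 2) (hc3 : 2 * c1 ≤ s0 / 2)
    (hmκ : 0 < mκ) (hκ1 : mκ ≤ (kap (z - (η : ℂ) ^ 2)).re) (hκ2 : ‖kap (z - (η : ℂ) ^ 2)‖ ≤ Mκ)
    (hL : 0 < L) (hb : a + L < b)
    (hwin : (Real.exp (2 * ε1 * (a + L)) - 1) * B + Real.exp (2 * ε1 * (a + L)) *
      (ε1 * (1 + Real.exp (2 * ε1 * (a + L)))) ≤ δ1)
    (hδ' : (1 + 4 * Mκ / (t * mκ)) * Real.exp (-(2 * mκ * L))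
      + δ1 * (2 + 4 * Mκ / (t * mκ)) ^ 2 / (4 * mκ * mκ) ≤ δ') (hδ'2 : δ' ≤ 1 / 2)
    (hε3 : Real.exp (2 * ε1 * a) ≤ 3)
    (hCu : Cu = (1 + 3 * Mκ) * Real.exp ((1 + (Λ ^ 2 + 3 * (1 + B))) * (2 * a)))
    (hCv : Cv = (1 + Mκ) * Real.exp ((1 + (1 + B + Λ ^ 2)) * (2 * a)))
    (hI : 2 * a * ((Real.exp (2 * ε1 * a) - 1) * (1 + B)) + ε1 ≤ I)
    {φ φ' χ χ' : ℝ → ℂ} (h1 : IsSol (PP ε η v z) φ φ') (h2 : IsSol (PP ε η v z) χ χ')
    (hφ0 : Tendsto φ atBot (𝓝 0)) (hφ0' : Tendsto φ' atBot (𝓝 0))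
    (hφne : ∀ᶠ y in atBot, φ y ≠ 0) (hχb : χ b = 0) (hχb' : χ' b = -1) :
    φ (-a) ≠ 0 ∧ χ a ≠ 0 ∧
    ‖φ b / (φ (-a) * χ a) - Finf a (z - (η : ℂ) ^ 2)‖ ≤
      4 * Mκ * δ' * Cv + 4 * Mκ * δ' * Cu + Cu * Cv * I := by
  set ζ : ℂ := z - (η : ℂ) ^ 2 with hζ
  have hζi : ζ.im = z.im := by
    have e2 : (η : ℂ) ^ 2 = ((η ^ 2 : ℝ) : ℂ) := by push_cast; ring
    rw [hζ, e2, Complex.sub_im, Complex.ofReal_im, sub_zero]
  have hζpos : 0 < ζ.im := by rw [hζi]; linarith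
  set κ := kap ζ with hκdef
  obtain ⟨hκre, hκim⟩ := kap_re_im hζpos
  rw [← hκdef] at hκre hκim
  set ω : ℂ := (t : ℂ) + Complex.I with hω
  have hωre : 0 ≤ ω.re := by simp [hω]; exact ht.le
  have hωn : ‖ω‖ ≤ 2 := by
    calc ‖ω‖ ≤ ‖(t : ℂ)‖ + ‖Complex.I‖ := norm_add_le _ _
      _ ≤ 1 + 1 := by
        rw [Complex.norm_real, Real.norm_of_nonneg ht.le, Complex.norm_I]
        linarith
      _ = 2 := by norm_num
  have hωκ : t * mκ ≤ (ω * κ).re := by
    have e : (ω * κ).re = t * κ.re - κ.im := by simp [hω]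
    rw [e]
    have := mul_le_mul_of_nonneg_left hκ1 ht.le
    linarith
  have hcoer : ∀ y, a ≤ |y| → c1 ≤ (ω * PP ε η v z y).re := by
    intro y hy
    have h3 := coer h hη0 hz hzi ht ht1 htB hc1 hc2 hc3 hy
    have h4 : 0 < Real.exp (2 * ε * y) := Real.exp_pos _
    nlinarith
  have hP := PP_cont ε η h.cont z
  have hκ2' : κ ^ 2 = (η : ℂ) ^ 2 - z := by
    rw [hκdef, kap_sq, hζ]
    ring
  -- left
  have hleft := left_pos (x1 := -a) h1 hωre hc0 (fun y hy => hcoer y (by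
    rw [abs_of_nonpos (by linarith)]; linarith)) hφ0 hφ0' hφne
  -- right
  have hright := right_neg (x1 := a) (b := b) h2 hωre hc0 (fun y hy => hcoer y (hy.trans (le_abs_self _))) hχb
    (by rw [hχb']; norm_num)
  have hφa : φ (-a) ≠ 0 := (hleft (-a) le_rfl).2
  have hχa : χ a ≠ 0 := (hright a ⟨le_rfl, by linarith⟩).2
  have hMκ : 0 < Mκ := hκre.trans_le ((Complex.re_le_norm _).trans hκ2)
  have hδ1 : 0 ≤ δ1 := by
    refine le_trans ?_ hwin
    have h3 := h.hε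
    have h4 := h.hε1
    have h5 : 1 ≤ Real.exp (2 * ε1 * (a + L)) := Real.one_le_exp (by
      have : 0 < ε1 := h3.trans_le h4
      positivity)
    have h6 : 0 ≤ B := (norm_nonneg _).trans hz
    have : 0 < ε1 := h3.trans_le h4
    have h7 : 0 ≤ (Real.exp (2 * ε1 * (a + L)) - 1) * B := mul_nonneg (by linarith) h6
    have h8 : 0 ≤ Real.exp (2 * ε1 * (a + L)) * (ε1 * (1 + Real.exp (2 * ε1 * (a + L)))) := by
      positivity
    linarith
  have hfin : (1 + 4 * ‖κ‖ / (t * mκ)) * Real.exp (-(2 * κ.re * L))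
      + δ1 * (2 + 4 * ‖κ‖ / (t * mκ)) ^ 2 / (4 * ‖κ‖ * κ.re) ≤ δ' := by
    refine le_trans (add_le_add ?_ ?_) hδ'
    · apply mul_le_mul _ _ (Real.exp_pos _).le (by positivity)
      · gcongr
      · apply Real.exp_le_exp.2
        nlinarith
    · have hκn : mκ ≤ ‖κ‖ := hκ1.trans (Complex.re_le_norm _)
      gcongr
  have hwL := window_sol (x1 := -(a + L)) (x2 := -a) (κ := κ) (ω := ω) (t := t * mκ) (δ := δ1)
    (by linarith) h1 (fun y hy => hleft y hy.2) (by positivity) hωκ hωn hκre (by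
      intro y hy
      rw [hκ2']
      refine (pdiff h hz ?_ ?_).trans hwin
      · rw [abs_of_nonpos (by linarith [hy.2])]
        linarith [hy.2]
      · rw [abs_of_nonpos (by linarith [hy.2])]
        linarith [hy.1])
  have e1 : -a - -(a + L) = L := by ring
  rw [e1] at hwL
  have hML : ‖mm φ φ' (-a) - κ‖ ≤ 4 * Mκ * δ' := by
    have := from_R hwL.1 hδ'2 (hwL.2.trans hfin)
    refine this.trans ?_
    have hd0 : 0 ≤ δ' := (norm_nonneg _).trans (hwL.2.trans hfin)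
    gcongr
  -- reflected right solution
  have h2r := h2.reflect
  have hposr : ∀ y ∈ Icc (-(a + L)) (-a), 0 ≤ en ω (fun x => χ (-x)) (fun x => -χ' (-x)) y ∧
      (fun x => χ (-x)) y ≠ 0 := by
    intro y hy
    have h3 := hright (-y) ⟨by linarith [hy.2], by linarith [hy.1]⟩
    refine ⟨?_, h3.2⟩
    have e : en ω (fun x => χ (-x)) (fun x => -χ' (-x)) y = -en ω χ χ' (-y) := by
      unfold en
      rw [mul_neg, mul_neg, Complex.neg_re]
    rw [e]
    linarith [h3.1]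
  have hwR := window_sol (x1 := -(a + L)) (x2 := -a) (κ := κ) (ω := ω) (t := t * mκ) (δ := δ1)
    (by linarith) h2r hposr (by positivity) hωκ hωn hκre (by
      intro y hy
      rw [hκ2']
      refine (pdiff h hz (y := -y) ?_ ?_).trans hwin
      · rw [abs_of_nonneg (by linarith [hy.2])]
        linarith [hy.2]
      · rw [abs_of_nonneg (by linarith [hy.2])]
        linarith [hy.1])
  rw [e1] at hwR
  have e2 : mm (fun x => χ (-x)) (fun x => -χ' (-x)) (-a) = -mm χ χ' a := by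
    unfold mm
    simp only [neg_neg]
    rw [neg_div]
  rw [e2] at hwR
  have hMR : ‖mm χ χ' a + κ‖ ≤ 4 * Mκ * δ' := by
    have := from_R hwR.1 hδ'2 (hwR.2.trans hfin)
    have e3 : ‖mm χ χ' a + κ‖ = ‖-mm χ χ' a - κ‖ := by
      rw [← norm_neg]
      congr 1
      ring
    rw [e3]
    refine this.trans ?_
    have hd0 : 0 ≤ δ' := (norm_nonneg _).trans (hwR.2.trans hfin)
    gcongr
  -- bounds inside
  have hB : 0 ≤ B := (norm_nonneg _).trans hz
  have hCu' : ∀ y ∈ Icc (-a) a, ‖φ y / φ (-a)‖ ≤ Cu := by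
    intro y hy
    have hsm : IsSol (PP ε η v z) (fun x => (φ (-a))⁻¹ * φ x) (fun x => (φ (-a))⁻¹ * φ' x) :=
      h1.smul (φ (-a))⁻¹
    have h3 := growth_norm hsm hy (K := Λ ^ 2 + 3 * (1 + B)) (m := 1 + 3 * Mκ)
      (fun s hs => (pin h hη0.le hz hε3 (abs_le.2 ⟨hs.1, hs.2⟩)).2) (by positivity) (by positivity) (by
        have a1 : ‖(φ (-a))⁻¹ * φ (-a)‖ = 1 := by
          rw [inv_mul_cancel₀ hφa, norm_one]
        have a2 : ‖(φ (-a))⁻¹ * φ' (-a)‖ ≤ 3 * Mκ := by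
          have a3 : (φ (-a))⁻¹ * φ' (-a) = (mm φ φ' (-a) - κ) + κ := by
            unfold mm
            rw [sub_add_cancel, div_eq_inv_mul]
          rw [a3]
          refine (norm_add_le _ _).trans ?_
          have a4 : 4 * Mκ * δ' ≤ 2 * Mκ := by nlinarith
          linarith
        rw [a1]
        have a5 := norm_nonneg ((φ (-a))⁻¹ * φ' (-a))
        nlinarith)
    have e3 : a - -a = 2 * a := by ring
    rw [e3, ← hCu] at h3
    rw [div_eq_inv_mul]
    exact h3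
  have hCv' : ∀ y ∈ Icc (-a) a, ‖vi a ζ y‖ ≤ Cv := by
    intro y hy
    have h3 := growth_norm_rev (vi_sol (a := a) hzr) hy (K := 1 + B + Λ ^ 2) (m := 1 + Mκ)
      (fun s _ => by
        have a1 : ‖ζ‖ ≤ B + Λ ^ 2 := by
          rw [hζ]
          refine (norm_sub_le _ _).trans (add_le_add hz ?_)
          rw [norm_pow, Complex.norm_real]
          have : 0 ≤ η := hη0.le.trans h.hη0
          rw [Real.norm_of_nonneg this]
          exact pow_le_pow_left₀ this h.hΛ 2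
        refine (norm_sub_le _ _).trans ?_
        rw [Complex.norm_I]
        linarith) (by positivity) (by positivity) (by
        rw [(vi_a a ζ).1, (vi_a a ζ).2, norm_one, norm_neg]
        have a5 := norm_nonneg (kap ζ)
        nlinarith)
    have e3 : a - -a = 2 * a := by ring
    rw [e3, ← hCv] at h3
    exact h3
  have hI' : ∫ y in (-a)..a, ‖PP ε η v z y - (fun _ => Complex.I - ζ) y‖ ≤ I := by
    have hc1 : Continuous fun y => ‖PP ε η v z y - (Complex.I - ζ)‖ := by fun_prop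
    have hc2 : Continuous fun y => ‖v y - Complex.I‖ := by
      have := h.cont
      fun_prop
    have a1 : ∫ y in (-a)..a, ‖PP ε η v z y - (Complex.I - ζ)‖ ≤
        ∫ y in (-a)..a, ((Real.exp (2 * ε1 * a) - 1) * (1 + B) + ‖v y - Complex.I‖) := by
      apply intervalIntegral.integral_mono_on (by linarith)
      · exact hc1.intervalIntegrable _ _
      · exact (continuous_const.add hc2).intervalIntegrable _ _
      · intro y hy
        exact (pin h hη0.le hz hε3 (abs_le.2 ⟨hy.1, hy.2⟩)).1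
    rw [intervalIntegral.integral_add (continuous_const.intervalIntegrable _ _)
      (hc2.intervalIntegrable _ _), intervalIntegral.integral_const] at a1
    have a2 := h.l1
    simp only [smul_eq_mul] at a1
    have e3 : a - -a = 2 * a := by ring
    rw [e3] at a1
    linarith
  refine ⟨hφa, hχa, ?_⟩
  have hfinal := match_est ha hP continuous_const h1 h2 (vi_sol (a := a) hzr) (vi_a a ζ).1
    (vi_a a ζ).2 hφa hχa hML hMR hCu' hCv' hI' b
  rw [vi_Finf hzr, hχb, hχb'] at hfinal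
  have e4 : φ' b * 0 - φ b * -1 = φ b := by ring
  rw [e4] at hfinal
  exact hfinal

end Pool.Agent.TH795.LT
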