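import Pool.Agent.TH795.LT.Zero

set_option autoImplicit false

/-!
# Existence of zeros of the truncated problem
-/

open MeasureTheory Filter Topology Set

namespace Pool.Agent.TH795.LT

open Pool.Agent.Helper209.AC (IsSol)

lemma Adm.mono {a ε1 ε1' ε η0 Λ η : ℝ} {v : ℝ → ℂ} (h : Adm a ε1 ε η0 Λ η v) (hle : ε1 ≤ ε1') :
    Adm a ε1' ε η0 Λ η v := by
  refine ⟨h.hε, h.hε1.trans hle, h.hη0, h.hΛ, h.cont, ?_, h.ins, h.l1.trans hle⟩
  intro y hy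
  refine (h.out y hy).trans ?_
  have := Real.exp_pos (-(2 * ε * y))
  gcongr

/-- A family of regular solutions, entire in `z`. -/
structure RegFam (ε η : ℝ) (v : ℝ → ℂ) (S T : ℂ → ℝ → ℂ) : Prop where
  sol : ∀ z, IsSol (PP ε η v z) (S z) (T z)
  lim0 : ∀ z, Tendsto (S z) atBot (𝓝 0)
  lim0' : ∀ z, Tendsto (T z) atBot (𝓝 0)
  ne : ∀ z, ∀ᶠ y in atBot, S z y ≠ 0
  diff : ∀ y, Differentiable ℂ (fun z => S z y)
  diff' : ∀ y, Differentiable ℂ (fun z => T z y)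

theorem trunc_zero {a : ℝ} (ha : 0 < a) {e : ℂ} (he : 1 < e.re) (hei : 0 < e.im)
    (hF : Finf a e = 0) (hiso : ∀ᶠ ζ in 𝓝[≠] e, Finf a ζ ≠ 0) {r0 η0 Λ : ℝ} (hr0 : 0 < r0)
    (hη0 : 0 < η0) (hΛ : η0 ≤ Λ) :
    ∃ ε1 t c1 b0 : ℝ, 0 < ε1 ∧ 0 < t ∧ 0 < c1 ∧ a < b0 ∧
      ∀ (ε η : ℝ) (v : ℝ → ℂ), Adm a ε1 ε η0 Λ η v → ∃ r : ℝ, 0 < r ∧ r ≤ r0 ∧
        (∀ z ∈ Metric.closedBall (e + (η : ℂ) ^ 2) r, ∀ y, a ≤ y →
          c1 * (1 + Real.exp (2 * ε * y)) ≤ (((t : ℂ) + Complex.I) * PP ε η v z y).re) ∧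
        ∀ S T : ℂ → ℝ → ℂ, RegFam ε η v S T → ∀ b, b0 < b →
          ∃ z ∈ Metric.closedBall (e + (η : ℂ) ^ 2) r, S z b = 0 := by
  -- choice of the radius
  obtain ⟨r1, hr1, hr1'⟩ : ∃ r1 > 0, ∀ ζ : ℂ, dist ζ e < r1 → ζ ≠ e → Finf a ζ ≠ 0 := by
    rw [eventually_nhdsWithin_iff, Metric.eventually_nhds_iff] at hiso
    obtain ⟨r1, h1, h2⟩ := hiso
    exact ⟨r1, h1, fun ζ h3 h4 => h2 h3 h4⟩
  obtain ⟨r, hrpos, hr_1, hr_0, hr_h, hr_i⟩ : ∃ r : ℝ, 0 < r ∧ r < r1 ∧ r ≤ r0 ∧ r ≤ 1 / 2 ∧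
      r ≤ e.im / 2 := by
    refine ⟨min (r1 / 2) (min r0 (min (1 / 2) (e.im / 2))), by positivity, ?_, ?_, ?_, ?_⟩
    · exact (min_le_left _ _).trans_lt (by linarith)
    · exact (min_le_right _ _).trans (min_le_left _ _)
    · exact (min_le_right _ _).trans ((min_le_right _ _).trans (min_le_left _ _))
    · exact (min_le_right _ _).trans ((min_le_right _ _).trans (min_le_right _ _))
  have hK : ∀ ζ ∈ Metric.closedBall e r, 1 / 2 < ζ.re ∧ e.im / 2 ≤ ζ.im ∧ ‖ζ‖ ≤ ‖e‖ + 1 := by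
    intro ζ hζ
    rw [mem_closedBall_iff_norm] at hζ
    have h1 : |(ζ - e).re| ≤ ‖ζ - e‖ := Complex.abs_re_le_norm _
    have h2 : |(ζ - e).im| ≤ ‖ζ - e‖ := Complex.abs_im_le_norm _
    rw [Complex.sub_re, abs_le] at h1
    rw [Complex.sub_im, abs_le] at h2
    refine ⟨by linarith [h1.1], by linarith [h2.1], ?_⟩
    have h3 : ‖ζ‖ ≤ ‖ζ - e‖ + ‖e‖ := by
      have := norm_add_le (ζ - e) e
      rwa [sub_add_cancel] at this
    linarith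
  have hKc : IsCompact (Metric.closedBall e r) := isCompact_closedBall e r
  have hKn : (Metric.closedBall e r).Nonempty := ⟨e, Metric.mem_closedBall_self hrpos.le⟩
  have hkc : ContinuousOn kap (Metric.closedBall e r) := fun ζ hζ =>
    (kap_contAt (by linarith [(hK ζ hζ).2.1])).continuousWithinAt
  obtain ⟨ζ1, hζ1, hζ1'⟩ := hKc.exists_isMinOn hKn
    (Complex.continuous_re.comp_continuousOn hkc)
  obtain ⟨ζ2, hζ2, hζ2'⟩ := hKc.exists_isMaxOn hKn hkc.norm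
  set mκ : ℝ := (kap ζ1).re with hmκ
  set Mκ : ℝ := ‖kap ζ2‖ with hMκ
  have hmκ0 : 0 < mκ := (kap_re_im (by linarith [(hK ζ1 hζ1).2.1])).1
  have hMm : mκ ≤ Mκ := by
    have h1 : ‖kap ζ1‖ ≤ Mκ := hζ2' hζ1
    exact (Complex.re_le_norm _).trans h1
  have hMκ0 : 0 < Mκ := hmκ0.trans_le hMm
  -- minimum on the sphere
  have hSc : IsCompact (Metric.sphere e r) := isCompact_sphere e r
  have hSn : (Metric.sphere e r).Nonempty := NormedSpace.sphere_nonempty.2 hrpos.le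
  have hFc : ContinuousOn (fun ζ => ‖Finf a ζ‖) (Metric.sphere e r) := fun ζ hζ => by
    have h1 := hK ζ (Metric.sphere_subset_closedBall hζ)
    exact (Finf_contAt (by linarith [h1.2.1]) (by linarith [h1.1])).norm.continuousWithinAt
  obtain ⟨ζ3, hζ3, hζ3'⟩ := hSc.exists_isMinOn hSn hFc
  obtain ⟨m, hm0, hm⟩ : ∃ m : ℝ, 0 < m ∧ ∀ ζ ∈ Metric.sphere e r, 2 * m ≤ ‖Finf a ζ‖ := by
    refine ⟨‖Finf a ζ3‖ / 2, ?_, ?_⟩
    · have h1 : Finf a ζ3 ≠ 0 := by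
        have h2 : dist ζ3 e = r := hζ3
        apply hr1' ζ3 (by linarith)
        intro h3
        rw [h3, dist_self] at h2
        linarith
      have := norm_pos_iff.2 h1
      positivity
    · intro ζ hζ
      have : ‖Finf a ζ3‖ ≤ ‖Finf a ζ‖ := hζ3' hζ
      linarith
  -- constants
  obtain ⟨B, hB⟩ : ∃ B : ℝ, B = ‖e‖ + 1 + Λ ^ 2 := ⟨_, rfl⟩
  have hB0 : 0 < B := by rw [hB]; positivity
  obtain ⟨s0, hs0⟩ : ∃ s0 : ℝ, s0 = e.im / 2 := ⟨_, rfl⟩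
  have hs00 : 0 < s0 := by rw [hs0]; positivity
  obtain ⟨t, ht0, ht1, htB⟩ : ∃ t : ℝ, 0 < t ∧ t ≤ 1 ∧ t * B ≤ s0 / 2 := by
    refine ⟨min 1 (s0 / (2 * B)), by positivity, min_le_left _ _, ?_⟩
    calc min 1 (s0 / (2 * B)) * B ≤ s0 / (2 * B) * B :=
          mul_le_mul_of_nonneg_right (min_le_right _ _) hB0.le
      _ = s0 / 2 := by field_simp
  obtain ⟨c1, hc10, hc2, hc3⟩ : ∃ c1 : ℝ, 0 < c1 ∧ 2 * c1 ≤ t * η0 ^ 2 ∧ 2 * c1 ≤ s0 / 2 := by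
    refine ⟨min (t * η0 ^ 2) (s0 / 2) / 2, by positivity, ?_, ?_⟩
    · have := min_le_left (t * η0 ^ 2) (s0 / 2)
      linarith
    · have := min_le_right (t * η0 ^ 2) (s0 / 2)
      linarith
  obtain ⟨Cu, hCu⟩ : ∃ Cu : ℝ, Cu = (1 + 3 * Mκ) *
    Real.exp ((1 + (Λ ^ 2 + 3 * (1 + B))) * (2 * a)) := ⟨_, rfl⟩
  obtain ⟨Cv, hCv⟩ : ∃ Cv : ℝ, Cv = (1 + Mκ) *
    Real.exp ((1 + (1 + B + Λ ^ 2)) * (2 * a)) := ⟨_, rfl⟩
  have hCu0 : 0 < Cu := by rw [hCu]; positivity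
  have hCv0 : 0 < Cv := by rw [hCv]; positivity
  obtain ⟨δ', hδ'0, hδ'1, hδ'2⟩ : ∃ δ' : ℝ, 0 < δ' ∧ δ' ≤ 1 / 2 ∧
      4 * Mκ * δ' * (Cv + Cu) ≤ m / 4 := by
    refine ⟨min (1 / 2) (m / (16 * Mκ * (Cv + Cu))), by positivity, min_le_left _ _, ?_⟩
    calc 4 * Mκ * min (1 / 2) (m / (16 * Mκ * (Cv + Cu))) * (Cv + Cu) ≤
          4 * Mκ * (m / (16 * Mκ * (Cv + Cu))) * (Cv + Cu) := by
          gcongr
          exact min_le_right _ _
      _ = m / 4 := by field_simp; norm_num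
  obtain ⟨L, hL0, hL⟩ : ∃ L : ℝ, 0 < L ∧
      (1 + 4 * Mκ / (t * mκ)) * Real.exp (-(2 * mκ * L)) ≤ δ' / 2 := by
    have h1 : Tendsto (fun L : ℝ => (1 + 4 * Mκ / (t * mκ)) * Real.exp (-(2 * mκ * L))) atTop
        (𝓝 ((1 + 4 * Mκ / (t * mκ)) * 0)) := by
      apply Tendsto.const_mul
      apply Real.tendsto_exp_neg_atTop_nhds_zero.comp
      exact tendsto_id.const_mul_atTop (by positivity)
    rw [mul_zero] at h1
    obtain ⟨L, h2, h3⟩ := ((h1.eventually (ge_mem_nhds (by positivity : (0 : ℝ) < δ' / 2))).and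
      (eventually_gt_atTop 0)).exists
    exact ⟨L, h3, h2⟩
  obtain ⟨δ1, hδ10, hδ1⟩ : ∃ δ1 : ℝ, 0 < δ1 ∧
      δ1 * (2 + 4 * Mκ / (t * mκ)) ^ 2 / (4 * mκ * mκ) ≤ δ' / 2 := by
    refine ⟨δ' / 2 * (4 * mκ * mκ) / (2 + 4 * Mκ / (t * mκ)) ^ 2, by positivity, le_of_eq ?_⟩
    have : (2 + 4 * Mκ / (t * mκ)) ≠ 0 := by positivity
    field_simp
  obtain ⟨I, hI0, hI⟩ : ∃ I : ℝ, 0 < I ∧ Cu * Cv * I ≤ m / 4 := by
    refine ⟨m / (4 * (Cu * Cv)), by positivity, le_of_eq ?_⟩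
    field_simp
  -- choice of ε1
  have hev : ∀ᶠ x : ℝ in 𝓝[>] 0, 2 * x ≤ c1 ∧
      (Real.exp (2 * x * (a + L)) - 1) * B + Real.exp (2 * x * (a + L)) *
      (x * (1 + Real.exp (2 * x * (a + L)))) ≤ δ1 ∧ Real.exp (2 * x * a) ≤ 3 ∧
      2 * a * ((Real.exp (2 * x * a) - 1) * (1 + B)) + x ≤ I := by
    have key : ∀ (f : ℝ → ℝ) (c : ℝ), Continuous f → f 0 < c → ∀ᶠ x : ℝ in 𝓝[>] 0, f x ≤ c := by
      intro f c hf h0
      have h1 : ∀ᶠ x in 𝓝 (0 : ℝ), f x ≤ c := hf.continuousAt.eventually (ge_mem_nhds h0)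
      exact h1.filter_mono nhdsWithin_le_nhds
    refine (key _ _ (by fun_prop) (by simpa using hc10)).and ((key _ _ (by fun_prop) ?_).and
      ((key _ _ (by fun_prop) ?_).and (key _ _ (by fun_prop) ?_)))
    · simpa using hδ10
    · simp
    · simpa using hI0
  obtain ⟨ε1, ⟨hε1a, hε1b, hε1c, hε1d⟩, hε10⟩ := (hev.and self_mem_nhdsWithin).exists
  have hε10' : 0 < ε1 := hε10
  refine ⟨ε1, t, c1, a + L, hε10', ht0, hc10, by linarith, ?_⟩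
  intro ε η v hA
  have hηpos : 0 < η := hη0.trans_le hA.hη0
  have hη2 : (η : ℂ) ^ 2 = ((η ^ 2 : ℝ) : ℂ) := by push_cast; ring
  have hzK : ∀ z ∈ Metric.closedBall (e + (η : ℂ) ^ 2) r, z - (η : ℂ) ^ 2 ∈ Metric.closedBall e r := by
    intro z hz
    rw [mem_closedBall_iff_norm] at hz ⊢
    have : z - (η : ℂ) ^ 2 - e = z - (e + (η : ℂ) ^ 2) := by ring
    rwa [this]
  have hzB : ∀ z ∈ Metric.closedBall (e + (η : ℂ) ^ 2) r, ‖z‖ ≤ B ∧ s0 ≤ z.im := by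
    intro z hz
    have h1 := hK _ (hzK z hz)
    have h2 : z = (z - (η : ℂ) ^ 2) + (η : ℂ) ^ 2 := by ring
    constructor
    · rw [h2]
      refine (norm_add_le _ _).trans ?_
      rw [hB]
      refine add_le_add h1.2.2 ?_
      rw [norm_pow, Complex.norm_real, Real.norm_of_nonneg hηpos.le]
      exact pow_le_pow_left₀ hηpos.le hA.hΛ 2
    · have h3 : (z - (η : ℂ) ^ 2).im = z.im := by
        rw [hη2, Complex.sub_im, Complex.ofReal_im, sub_zero]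
      rw [← h3, hs0]
      exact h1.2.1
  refine ⟨r, hrpos, hr_0, ?_, ?_⟩
  · intro z hz y hy
    exact coer hA hη0 (hzB z hz).1 (hzB z hz).2 ht0 ht1 htB hε1a hc2 hc3 (hy.trans (le_abs_self _))
  · intro S T hS b hb
    obtain ⟨U, W, hU1, hU2, hU3⟩ := exists_sol_param
      (fun y => (η : ℂ) ^ 2 + (Real.exp (2 * ε * y) : ℂ) * v y)
      (fun y => -(Real.exp (2 * ε * y) : ℂ)) (by have := hA.cont; fun_prop) (by fun_prop) b
    have hPP : ∀ z, (fun x => (fun y : ℝ => (η : ℂ) ^ 2 + (Real.exp (2 * ε * y) : ℂ) * v y) x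
        + z * (fun y : ℝ => -(Real.exp (2 * ε * y) : ℂ)) x) = PP ε η v z := by
      intro z
      funext y
      unfold PP
      ring
    let w : ℂ → ℂ × (ℂ × ℂ) := fun z => (z, ((0 : ℂ), (-1 : ℂ)))
    have hw : Differentiable ℂ w := differentiable_id.prodMk (differentiable_const _)
    have hχ : ∀ z, IsSol (PP ε η v z) (U (w z)) (W (w z)) := by
      intro z
      have := (hU1 (w z)).1
      rw [← hPP z]
      exact this
    have hmain : ∀ z ∈ Metric.closedBall (e + (η : ℂ) ^ 2) r,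
        S z (-a) ≠ 0 ∧ U (w z) a ≠ 0 ∧
        ‖S z b / (S z (-a) * U (w z) a) - Finf a (z - (η : ℂ) ^ 2)‖ ≤
          4 * Mκ * δ' * Cv + 4 * Mκ * δ' * Cu + Cu * Cv * I := by
      intro z hz
      have hzK' := hzK z hz
      have hκ1 : mκ ≤ (kap (z - (η : ℂ) ^ 2)).re := hζ1' hzK'
      have hκ2 : ‖kap (z - (η : ℂ) ^ 2)‖ ≤ Mκ := hζ2' hzK'
      refine close_est hA ha hη0 (hzB z hz).1 hs00 (hzB z hz).2 (by linarith [(hK _ hzK').1])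
        ht0 ht1 htB hc10 hε1a hc2 hc3 hmκ0 hκ1 hκ2 hL0 hb hε1b ?_ hδ'1 hε1c hCu hCv hε1d
        (hS.sol z) (hχ z) (hS.lim0 z) (hS.lim0' z) (hS.ne z) (hU1 (w z)).2.1 (hU1 (w z)).2.2
      linarith
    have hz0 := exists_zero_of_close (F := fun z => S z b / (S z (-a) * U (w z) a))
      (F0 := fun z => Finf a (z - (η : ℂ) ^ 2)) (c := e + (η : ℂ) ^ 2) hrpos hm0 ?_ ?_ ?_ ?_
    · obtain ⟨z, hz, hz'⟩ := hz0
      refine ⟨z, hz, ?_⟩
      obtain ⟨n1, n2, -⟩ := hmain z hz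
      rcases div_eq_zero_iff.1 hz' with h3 | h3
      · exact h3
      · exact absurd h3 (mul_ne_zero n1 n2)
    · intro z hz
      obtain ⟨n1, n2, -⟩ := hmain z hz
      exact (hS.diff b z).div ((hS.diff (-a) z).mul (((hU2 a).comp hw) z)) (mul_ne_zero n1 n2)
    · intro z hz
      apply hm
      rw [mem_sphere_iff_norm] at hz ⊢
      have : z - (η : ℂ) ^ 2 - e = z - (e + (η : ℂ) ^ 2) := by ring
      rwa [this]
    · show Finf a (e + (η : ℂ) ^ 2 - (η : ℂ) ^ 2) = 0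
      rw [add_sub_cancel_right]
      exact hF
    · intro z hz
      obtain ⟨-, -, n3⟩ := hmain z hz
      refine n3.trans ?_
      have : 4 * Mκ * δ' * Cv + 4 * Mκ * δ' * Cu = 4 * Mκ * δ' * (Cv + Cu) := by ring
      linarith

end Pool.Agent.TH795.LT
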